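import Pool.Agent.V11324.KW.Main

/-!
The set of all boundary points: three independent paths have infinitely many common points, four
only finitely many.
-/

set_option autoImplicit false

namespace V11324.KW

open Finset MeasureTheory ProbabilityTheory Filter Topology H389KP

theorem sh_univ (n : ℕ) : sh n Set.univ = Set.univ := rfl

theorem F_rec (p : ℝ) (n : ℕ) : F p (n + 1) Set.univ = 1 - (1 - p * F p n Set.univ) ^ 2 := by
  simp only [F, sh_univ]
  ring

theorem F_zero_univ (p : ℝ) : F p 0 Set.univ = 1 := by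
  simp [F]

theorem two_pk (k : ℕ) : 2 * pk k = (2 : ℝ) ^ (1 - (k : ℝ) / 3) := by
  unfold pk
  rw [Real.rpow_sub (by norm_num), Real.rpow_one]
  rfl

theorem F_large {k : ℕ} (hk : k ≤ 3) (n : ℕ) : 1 / ((n : ℝ) + 1) ≤ F (pk k) n Set.univ := by
  have hp : 1 ≤ 2 * pk k := by
    rw [two_pk]
    apply Real.one_le_rpow (by norm_num)
    have : (k : ℝ) ≤ 3 := by exact_mod_cast hk
    linarith
  induction n with
  | zero => rw [F_zero_univ]; norm_num
  | succ n ih =>
    obtain ⟨f0, f1⟩ := F_mem (pk_pos k).le (pk_le k) n Set.univ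
    rw [F_rec]
    set f := F (pk k) n Set.univ
    set x : ℝ := 1 / ((n : ℝ) + 1) with hx
    have hx0 : 0 < x := by positivity
    have hx1 : x ≤ 1 := ih.trans f1
    have h1 : x / 2 ≤ pk k * f := by nlinarith
    have h2 : pk k * f ≤ 1 := mul_le_one₀ (pk_le k) f0 f1
    have h3 : x - x ^ 2 / 4 ≤ 1 - (1 - pk k * f) ^ 2 := by nlinarith
    refine le_trans ?_ h3
    have h4 : 1 / (((n + 1 : ℕ) : ℝ) + 1) = x / (1 + x) := by
      rw [hx]; push_cast; field_simp
    rw [h4, div_le_iff₀ (by positivity)]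
    nlinarith [mul_pos hx0 hx0, mul_nonneg hx0.le (sub_nonneg.mpr hx1)]

theorem F_small {k : ℕ} (n : ℕ) : F (pk k) n Set.univ ≤ (2 * pk k) ^ n := by
  induction n with
  | zero => rw [F_zero_univ]; simp
  | succ n ih =>
    obtain ⟨f0, f1⟩ := F_mem (pk_pos k).le (pk_le k) n Set.univ
    rw [F_rec]
    have hp := pk_pos k
    have h1 := mul_le_mul_of_nonneg_left ih (show 0 ≤ 2 * pk k by positivity)
    have h2 : (2 * pk k) ^ (n + 1) = 2 * pk k * (2 * pk k) ^ n := by ring
    have h3 : 1 - (1 - pk k * F (pk k) n Set.univ) ^ 2 =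
      2 * pk k * F (pk k) n Set.univ - (pk k * F (pk k) n Set.univ) ^ 2 := by ring
    rw [h2, h3]
    have h4 := sq_nonneg (pk k * F (pk k) n Set.univ)
    linarith

theorem At_pos (n : ℕ) : At {x : ℤ | 1 ≤ x} n = Set.univ := by
  ext x
  simp only [Set.mem_univ, iff_true]
  show (1 : ℤ) ≤ ((2 ^ n + x : ℕ) : ℤ)
  have : 1 ≤ 2 ^ n + x := by
    have := Nat.one_le_two_pow (n := n)
    omega
  exact_mod_cast this

theorem all_points (k : ℕ) :
    (k ≤ 3 → ∀ᵐ ω ∂(Measure.pi (fun _ : Fin k => perc)),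
      {x : ℤ | 1 ≤ x ∧ ∀ i, x ∈ V (ω i)}.Infinite) ∧
    (4 ≤ k → ∀ᵐ ω ∂(Measure.pi (fun _ : Fin k => perc)),
      {x : ℤ | 1 ≤ x ∧ ∀ i, x ∈ V (ω i)}.Finite) := by
  constructor
  · intro hk
    filter_upwards [main k {x : ℤ | 1 ≤ x} (fun x hx => hx)] with ω hω
    apply hω.2
    intro hs
    simp only [At_pos] at hs
    have h1 : Summable (fun n : ℕ => 1 / ((n : ℝ) + 1)) :=
      Summable.of_nonneg_of_le (fun n => by positivity) (fun n => F_large hk n) hs
    have h2 : Summable (fun n : ℕ => 1 / (n : ℝ)) := by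
      rw [← summable_nat_add_iff 1]
      refine h1.congr (fun n => ?_)
      push_cast
      rfl
    exact Real.not_summable_one_div_natCast h2
  · intro hk
    filter_upwards [main k {x : ℤ | 1 ≤ x} (fun x hx => hx)] with ω hω
    by_contra hcon
    apply hω.1 hcon
    simp only [At_pos]
    have hp0 : 0 ≤ 2 * pk k := by have := pk_pos k; positivity
    have hp : 2 * pk k < 1 := by
      rw [two_pk]
      apply Real.rpow_lt_one_of_one_lt_of_neg (by norm_num)
      have : (4 : ℝ) ≤ k := by exact_mod_cast hk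
      linarith
    exact Summable.of_nonneg_of_le (fun n => (F_mem (pk_pos k).le (pk_le k) n _).1)
      (fun n => F_small n) (summable_geometric_of_lt_one hp0 hp)

end V11324.KW
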