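import Pool.Agent.V11324.KW.Cap

/-!
Capacities of the dyadic pieces for the kernels `(max (x, y) / (|x - y| + 1)) ^ k`.
-/

set_option autoImplicit false

namespace V11324.KW.R

open V11324.KW (F ms En EK kd At F_mem low En_le_EK EK_le_En kd_nonneg kd_succ kd_ge_one abs_cast sum_piece gg gg_nonneg flow F_le_gg Xc sm ms_succ)

open Finset
open scoped NNReal

/-- The kernel. -/
noncomputable def kernk (k : ℝ≥0) (x y : ℤ) : ℝ :=
  (((max x y : ℤ) : ℝ) / (((|x - y| : ℤ) : ℝ) + 1)) ^ (k : ℝ)

/-- The capacity. -/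
noncomputable def capk (k : ℝ≥0) (S : Set ℤ) : ℝ :=
  sSup {r | ∃ (T : Finset ℤ) (m : ℤ → ℝ), (∀ x ∈ T, x ∈ S ∧ 0 ≤ m x) ∧ ∑ x ∈ T, m x = 1 ∧
    r = 1 / ∑ x ∈ T, ∑ y ∈ T, m x * m y * kernk k x y}

/-- the percolation parameter -/
noncomputable def pk (k : ℝ≥0) : ℝ := ((2 : ℝ) ^ (k : ℝ))⁻¹

theorem pk_pos (k : ℝ≥0) : 0 < pk k := by unfold pk; positivity

theorem pk_lt {k : ℝ≥0} (hk : 0 < k) : pk k < 1 := by
  unfold pk
  apply inv_lt_one_of_one_lt₀
  exact Real.one_lt_rpow (by norm_num) (by exact_mod_cast hk)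

theorem pk_le (k : ℝ≥0) : pk k ≤ 1 := by
  unfold pk
  apply inv_le_one_of_one_le₀
  apply Real.one_le_rpow (by norm_num)
  positivity

theorem pk_add (k j : ℝ≥0) : pk k * pk j = pk (k + j) := by
  unfold pk
  rw [← mul_inv, ← Real.rpow_add (by norm_num)]
  congr 2

theorem pk_zero : pk 0 = 1 := by
  unfold pk; simp

theorem ker_low (k : ℝ≥0) (n x y : ℕ) :
    kd (k : ℝ) n |(x : ℝ) - y| ≤ kernk k ((2 ^ n + x : ℕ) : ℤ) ((2 ^ n + y : ℕ) : ℤ) := by
  unfold kd kernk
  apply Real.rpow_le_rpow (by positivity) _ (by positivity)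
  rw [abs_cast]
  push_cast
  rw [add_sub_add_left_eq_sub]
  apply div_le_div_of_nonneg_right _ (by positivity)
  have : (0 : ℝ) ≤ x := Nat.cast_nonneg x
  exact le_trans (by linarith) (le_max_left _ _)

theorem ker_up {k : ℝ≥0} {n x y : ℕ} (hx : x < 2 ^ n) (hy : y < 2 ^ n) :
    kernk k ((2 ^ n + x : ℕ) : ℤ) ((2 ^ n + y : ℕ) : ℤ) ≤
      2 ^ (k : ℝ) * kd (k : ℝ) n |(x : ℝ) - y| := by
  unfold kd kernk
  rw [← Real.mul_rpow (by norm_num) (by positivity)]
  apply Real.rpow_le_rpow _ _ (by positivity)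
  · rw [abs_cast]
    apply div_nonneg _ (by positivity)
    exact_mod_cast Nat.zero_le _
  · rw [abs_cast]
    push_cast
    rw [add_sub_add_left_eq_sub, ← mul_div_assoc]
    apply div_le_div_of_nonneg_right _ (by positivity)
    have hx1 : (x : ℝ) ≤ 2 ^ n := by exact_mod_cast hx.le
    have hy1 : (y : ℝ) ≤ 2 ^ n := by exact_mod_cast hy.le
    apply max_le <;> linarith

theorem elem (k : ℝ≥0) {n : ℕ} {S : Set ℤ} {T : Finset ℤ} {m : ℤ → ℝ}
    (h1 : ∀ x ∈ T, x ∈ TH868.CT.pc S n ∧ 0 ≤ m x) (h2 : ∑ x ∈ T, m x = 1) :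
    1 / ∑ x ∈ T, ∑ y ∈ T, m x * m y * kernk k x y ≤ F (pk k) n (At S n) := by
  classical
  set u : ℕ → ℝ := fun x => if ((2 ^ n + x : ℕ) : ℤ) ∈ T then m ((2 ^ n + x : ℕ) : ℤ) else 0 with hu
  have hT : ∀ z ∈ T, (2 : ℤ) ^ n ≤ z ∧ z < 2 ^ (n + 1) := fun z hz =>
    ⟨(h1 z hz).1.2.1, (h1 z hz).1.2.2⟩
  have hu0 : ∀ x, 0 ≤ u x := by
    intro x
    simp only [hu]
    split_ifs with h
    · exact (h1 _ h).2
    · exact le_rfl
  have huA : ∀ x, x < 2 ^ n → u x ≠ 0 → x ∈ At S n := by
    intro x _ hx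
    simp only [hu] at hx
    split_ifs at hx with h
    · exact (h1 _ h).1.1
    · exact absurd rfl hx
  have hms : ms n u = 1 := by
    rw [← h2, sum_piece T hT]
    rfl
  have hen : EK (k : ℝ) n u ≤ ∑ x ∈ T, ∑ y ∈ T, m x * m y * kernk k x y := by
    rw [sum_piece T hT]
    unfold EK
    apply Finset.sum_le_sum
    intro x hx
    by_cases hxT : ((2 ^ n + x : ℕ) : ℤ) ∈ T
    · rw [if_pos hxT, sum_piece T hT]
      apply Finset.sum_le_sum
      intro y hy
      by_cases hyT : ((2 ^ n + y : ℕ) : ℤ) ∈ T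
      · rw [if_pos hyT]
        have e1 : u x = m ((2 ^ n + x : ℕ) : ℤ) := by simp only [hu]; rw [if_pos hxT]
        have e2 : u y = m ((2 ^ n + y : ℕ) : ℤ) := by simp only [hu]; rw [if_pos hyT]
        rw [← e1, ← e2]
        exact mul_le_mul_of_nonneg_left (ker_low k n x y) (mul_nonneg (hu0 x) (hu0 y))
      · rw [if_neg hyT]
        have e2 : u y = 0 := by simp only [hu]; rw [if_neg hyT]
        rw [e2]; simp
    · rw [if_neg hxT]
      have e1 : u x = 0 := by simp only [hu]; rw [if_neg hxT]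
      simp [e1]
  have hlow := low (pk_pos k) (pk_le k) n (At S n) u hu0 huA
  rw [hms] at hlow
  have hE := En_le_EK (a := (k : ℝ)) (by positivity) n u hu0
  obtain ⟨f0, f1⟩ := F_mem (pk_pos k).le (pk_le k) n (At S n)
  set E := ∑ x ∈ T, ∑ y ∈ T, m x * m y * kernk k x y with hEd
  have h3 : En (pk k) n u ≤ E := le_trans hE hen
  have h4 : 1 ≤ F (pk k) n (At S n) * E := by
    have := mul_le_mul_of_nonneg_left h3 f0
    linarith
  have hEpos : 0 < E := by
    by_contra hcon
    push Not at hcon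
    nlinarith [mul_nonneg f0 (neg_nonneg.mpr hcon)]
  rw [div_le_iff₀ hEpos]
  exact h4

theorem capk_le (k : ℝ≥0) (n : ℕ) (S : Set ℤ) : capk k (TH868.CT.pc S n) ≤ F (pk k) n (At S n) := by
  apply Real.sSup_le
  · rintro r ⟨T, m, h1, h2, rfl⟩
    exact elem k h1 h2
  · exact (F_mem (pk_pos k).le (pk_le k) n (At S n)).1

theorem capk_nonneg (k : ℝ≥0) (n : ℕ) (S : Set ℤ) : 0 ≤ capk k (TH868.CT.pc S n) := by
  apply Real.sSup_nonneg
  rintro r ⟨T, m, h1, h2, rfl⟩
  apply div_nonneg zero_le_one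
  apply Finset.sum_nonneg
  intro x hx
  apply Finset.sum_nonneg
  intro y hy
  apply mul_nonneg (mul_nonneg (h1 x hx).2 (h1 y hy).2)
  have hx1 := TH868.CT.pc_pos x (h1 x hx).1
  unfold kernk
  apply Real.rpow_nonneg
  apply div_nonneg
  · have : (0 : ℤ) ≤ max x y := le_trans (by omega) (le_max_left _ _)
    exact_mod_cast this
  · have : (0 : ℤ) ≤ |x - y| := abs_nonneg _
    have h : (0 : ℝ) ≤ ((|x - y| : ℤ) : ℝ) := by exact_mod_cast this
    linarith

theorem le_capk {k : ℝ≥0} (hk : 0 < k) : ∃ C : ℝ, 0 < C ∧ ∀ (n : ℕ) (S : Set ℤ),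
    F (pk k) n (At S n) ≤ C * capk k (TH868.CT.pc S n) := by
  classical
  set a : ℝ := (k : ℝ) with ha
  have ha0 : 0 < a := by rw [ha]; exact_mod_cast hk
  have hr1 : (1 : ℝ) < 2 ^ a := Real.one_lt_rpow (by norm_num) ha0
  have hr0 : (0 : ℝ) < 2 ^ a := by positivity
  set C1 : ℝ := (1 + 2 * 2 ^ a) * 2 ^ a / (2 ^ a - 1) with hC1
  have hC10 : 0 < C1 := by
    rw [hC1]
    apply div_pos (by positivity)
    linarith
  have hp0 := pk_pos k
  have hp1 := pk_lt hk
  have hpa : pk k = (2 ^ a)⁻¹ := rfl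
  refine ⟨4 / pk k * C1, by positivity, fun n S => ?_⟩
  obtain ⟨u, u0, uA, um, uE⟩ := flow hp0 hp1 n (At S n)
  have hF := F_le_gg hp0 hp1 n (At S n)
  have hg0 := gg_nonneg hp0 hp1 n (At S n)
  obtain ⟨f0, f1⟩ := F_mem hp0.le hp1.le n (At S n)
  have hcap0 := capk_nonneg k n S
  set g := gg (pk k) n (At S n) with hg
  rcases hg0.eq_or_lt with h0 | hgpos
  · rw [← h0] at hF
    have h1 : F (pk k) n (At S n) ≤ 0 := by
      have h2 : pk k * F (pk k) n (At S n) ≤ 0 := by linarith
      by_contra hcon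
      push Not at hcon
      have := mul_pos hp0 hcon
      linarith
    refine h1.trans ?_
    positivity
  · set T : Finset ℤ := ((range (2 ^ n)).filter (fun x => x ∈ At S n)).image
      (fun x => ((2 ^ n + x : ℕ) : ℤ)) with hT
    set m : ℤ → ℝ := fun z => u (z - 2 ^ n).toNat / g with hm
    have hval : ∀ x : ℕ, m ((2 ^ n + x : ℕ) : ℤ) = u x / g := by
      intro x
      simp only [hm]
      congr 2
      push_cast
      rw [add_sub_cancel_left, Int.toNat_natCast]
    have hTpc : ∀ z ∈ T, z ∈ TH868.CT.pc S n := by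
      intro z hz
      rw [hT, Finset.mem_image] at hz
      obtain ⟨x, hx, rfl⟩ := hz
      rw [Finset.mem_filter, Finset.mem_range] at hx
      have h3 : (x : ℤ) < 2 ^ n := by exact_mod_cast hx.1
      refine ⟨hx.2, ?_, ?_⟩
      · push_cast; omega
      · push_cast; rw [pow_succ]; omega
    have hTr : ∀ z ∈ T, (2 : ℤ) ^ n ≤ z ∧ z < 2 ^ (n + 1) := fun z hz =>
      ⟨(hTpc z hz).2.1, (hTpc z hz).2.2⟩
    have hmem : ∀ x, x < 2 ^ n → (((2 ^ n + x : ℕ) : ℤ) ∈ T ↔ x ∈ At S n) := by
      intro x hx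
      rw [hT, Finset.mem_image]
      constructor
      · rintro ⟨y, hy, hxy⟩
        have : 2 ^ n + y = 2 ^ n + x := by exact_mod_cast hxy
        have h4 : y = x := by omega
        rw [← h4]
        exact (Finset.mem_filter.mp hy).2
      · intro h
        exact ⟨x, Finset.mem_filter.mpr ⟨Finset.mem_range.mpr hx, h⟩, rfl⟩
    have hoff : ∀ x, x < 2 ^ n → x ∉ At S n → u x = 0 := by
      intro x hx hxA
      by_contra hne
      exact hxA (uA x hx hne)
    have hsum : ∑ z ∈ T, m z = 1 := by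
      rw [sum_piece T hTr]
      have e : ∀ x ∈ range (2 ^ n), (if ((2 ^ n + x : ℕ) : ℤ) ∈ T then m ((2 ^ n + x : ℕ) : ℤ) else 0)
          = u x / g := by
        intro x hx
        have hx' := Finset.mem_range.mp hx
        split_ifs with h
        · exact hval x
        · rw [hoff x hx' (fun h2 => h ((hmem x hx').2 h2))]; simp
      rw [Finset.sum_congr rfl e, ← Finset.sum_div]
      unfold ms at um
      rw [um]
      exact div_self hgpos.ne'
    have hen : ∑ x ∈ T, ∑ y ∈ T, m x * m y * kernk k x y ≤ 2 ^ a * EK a n u / g ^ 2 := by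
      rw [sum_piece T hTr]
      unfold EK
      rw [Finset.mul_sum, Finset.sum_div]
      apply Finset.sum_le_sum
      intro x hx
      have hx' := Finset.mem_range.mp hx
      have hker : ∀ y, 0 ≤ kd a n |(x : ℝ) - y| := fun y => kd_nonneg n (abs_nonneg _)
      split_ifs with h
      · rw [sum_piece T hTr, Finset.mul_sum, Finset.sum_div]
        apply Finset.sum_le_sum
        intro y hy
        have hy' := Finset.mem_range.mp hy
        have h5 : 0 ≤ u x * u y := mul_nonneg (u0 x) (u0 y)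
        split_ifs with h'
        · rw [hval, hval]
          have h6 := mul_le_mul_of_nonneg_left (ker_up (k := k) hx' hy') h5
          have e : u x / g * (u y / g) * kernk k ((2 ^ n + x : ℕ) : ℤ) ((2 ^ n + y : ℕ) : ℤ) =
              (u x * u y * kernk k ((2 ^ n + x : ℕ) : ℤ) ((2 ^ n + y : ℕ) : ℤ)) / g ^ 2 := by
            field_simp
          rw [e]
          apply div_le_div_of_nonneg_right _ (by positivity)
          linarith
        · have := hker y
          positivity
      · apply div_nonneg _ (by positivity)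
        apply mul_nonneg hr0.le
        apply Finset.sum_nonneg
        intro y _
        exact mul_nonneg (mul_nonneg (u0 x) (u0 y)) (hker y)
    have hle : 1 / ∑ x ∈ T, ∑ y ∈ T, m x * m y * kernk k x y ≤ capk k (TH868.CT.pc S n) := by
      apply le_csSup
      · refine ⟨1, ?_⟩
        rintro r ⟨T', m', h1, h2, rfl⟩
        exact (elem k h1 h2).trans f1
      · exact ⟨T, m, fun x hx => ⟨hTpc x hx, div_nonneg (u0 _) hgpos.le⟩, hsum, rfl⟩
    set E := ∑ x ∈ T, ∑ y ∈ T, m x * m y * kernk k x y with hE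
    have helem := elem k (n := n) (S := S) (T := T) (m := m)
      (fun x hx => ⟨hTpc x hx, div_nonneg (u0 _) hgpos.le⟩) hsum
    -- upper bound of the energy
    have hEub : E ≤ C1 * (1 + 1 / g) := by
      have h7 := EK_le_En ha0 n u u0
      have h8 : EK a n u ≤ C1 * En (pk k) n u := by
        rw [hC1, div_mul_eq_mul_div, le_div_iff₀ (by linarith), hpa]
        linarith
      have h9 : 2 ^ a * EK a n u ≤ 2 ^ a * (C1 * (pk k * (g ^ 2 + g))) := by
        apply mul_le_mul_of_nonneg_left _ hr0.le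
        exact h8.trans (mul_le_mul_of_nonneg_left uE hC10.le)
      have h10 : 2 ^ a * (C1 * (pk k * (g ^ 2 + g))) = C1 * (g ^ 2 + g) := by
        rw [hpa]; field_simp
      refine hen.trans ?_
      rw [div_le_iff₀ (by positivity)]
      refine h9.trans (le_of_eq ?_)
      rw [h10]
      field_simp
    -- positivity of the energy
    have hms2 : 0 < E := by
      by_contra hcon
      push Not at hcon
      -- the energy is at least the tree energy, which is positive
      have hen2 : EK a n u / g ^ 2 ≤ E := by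
        rw [hE, sum_piece T hTr]
        unfold EK
        rw [Finset.sum_div]
        apply Finset.sum_le_sum
        intro x hx
        have hx' := Finset.mem_range.mp hx
        split_ifs with h
        · rw [sum_piece T hTr, Finset.sum_div]
          apply Finset.sum_le_sum
          intro y hy
          have hy' := Finset.mem_range.mp hy
          have h5 : 0 ≤ u x * u y := mul_nonneg (u0 x) (u0 y)
          split_ifs with h'
          · rw [hval, hval]
            have h6 := mul_le_mul_of_nonneg_left (ker_low k n x y) h5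
            have e : u x / g * (u y / g) * kernk k ((2 ^ n + x : ℕ) : ℤ) ((2 ^ n + y : ℕ) : ℤ) =
                (u x * u y * kernk k ((2 ^ n + x : ℕ) : ℤ) ((2 ^ n + y : ℕ) : ℤ)) / g ^ 2 := by
              field_simp
            rw [e]
            apply div_le_div_of_nonneg_right _ (by positivity)
            exact h6
          · rw [hoff y hy' (fun h2 => h' ((hmem y hy').2 h2))]; simp
        · rw [hoff x hx' (fun h2 => h ((hmem x hx').2 h2))]; simp
      have hlo := low (pk_pos k) (pk_le k) n (At S n) u u0 uA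
      rw [um] at hlo
      have hEE := En_le_EK (a := a) ha0.le n u u0
      have h11 : 0 < En (pk k) n u := by
        by_contra hc2
        push Not at hc2
        nlinarith [mul_nonneg f0 (neg_nonneg.mpr hc2), pow_pos hgpos 2]
      have h12 : 0 < EK a n u / g ^ 2 := div_pos (lt_of_lt_of_le h11 hEE) (by positivity)
      linarith
    have h13 : 1 / (C1 * (1 + 1 / g)) ≤ capk k (TH868.CT.pc S n) :=
      (one_div_le_one_div_of_le hms2 hEub).trans hle
    have h14 : pk k * F (pk k) n (At S n) ≤ 4 * (g / (1 + g)) := by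
      rw [← mul_div_assoc, le_div_iff₀ (by positivity)]
      exact hF
    have h15 : 1 / (C1 * (1 + 1 / g)) = (g / (1 + g)) / C1 := by
      field_simp
      ring
    rw [h15, div_le_iff₀ hC10] at h13
    have h16 : pk k * F (pk k) n (At S n) ≤ 4 * (capk k (TH868.CT.pc S n) * C1) := by linarith
    have h17 : F (pk k) n (At S n) ≤ 4 * (capk k (TH868.CT.pc S n) * C1) / pk k := by
      rw [le_div_iff₀ hp0]
      linarith
    refine h17.trans (le_of_eq ?_)
    ring

/-- the criterion in terms of the percolation -/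
theorem summable_iff {k : ℝ≥0} (hk : 0 < k) (S : Set ℤ) :
    Summable (fun n => capk k (TH868.CT.pc S n)) ↔ Summable (fun n => F (pk k) n (At S n)) := by
  obtain ⟨C, hC, h⟩ := le_capk hk
  constructor
  · intro hs
    exact Summable.of_nonneg_of_le (fun n => (F_mem (pk_pos k).le (pk_le k) n _).1)
      (fun n => h n S) (hs.mul_left C)
  · intro hs
    exact Summable.of_nonneg_of_le (fun n => capk_nonneg k n S) (fun n => capk_le k n S) hs

end V11324.KW.R
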