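import Pool.Agent.V11324.KW.DimMain

/-!
The number of the common boundary points of independent exploration paths.
-/

set_option autoImplicit false
set_option maxHeartbeats 400000

namespace V11324.KW.R

open V11324.KW (F At Ix wt st wt_nonneg wt_sum F_comp F_one F_mem F_congr F_empty Q mem_Q Q_meas
  meas_Ix V V_meas ser_conv ser_div int01 sh sh_univ F_zero_univ F_rec meas_inf At_pos sum_piece)
open Finset MeasureTheory ProbabilityTheory Filter Topology H389KP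
open scoped NNReal ENNReal

open Classical in
/-- the number of points below `2 ^ n` -/
noncomputable def cnt (n : ℕ) (B : Set ℕ) : ℝ := ∑ x ∈ range (2 ^ n), if x ∈ B then 1 else 0

theorem cnt_succ (n : ℕ) (B : Set ℕ) : cnt (n + 1) B = cnt n B + cnt n (sh n B) := by
  classical
  unfold cnt
  rw [pow_succ, mul_two, Finset.sum_range_add]
  congr 1
  apply Finset.sum_congr rfl
  intro x _
  have e : (2 ^ n + x ∈ B) ↔ x ∈ sh n B := by
    unfold sh
    rw [Set.mem_setOf_eq, add_comm]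
  simp only [e]

theorem cnt_nonneg (n : ℕ) (B : Set ℕ) : 0 ≤ cnt n B := by
  classical
  exact Finset.sum_nonneg fun x _ => by split_ifs <;> norm_num

theorem F_le_cnt {p : ℝ} (h0 : 0 ≤ p) (h1 : p ≤ 1) (n : ℕ) (B : Set ℕ) :
    F p n B ≤ cnt n B * p ^ n := by
  classical
  induction n generalizing B with
  | zero =>
    simp only [F, cnt, pow_zero, mul_one, Finset.sum_range_one]
    exact le_of_eq (by congr)
  | succ n ih =>
    have i1 := ih B
    have i2 := ih (sh n B)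
    obtain ⟨a0, a1⟩ := F_mem h0 h1 n B
    obtain ⟨b0, b1⟩ := F_mem h0 h1 n (sh n B)
    rw [cnt_succ]
    simp only [F]
    have h2 := mul_le_mul_of_nonneg_left i1 h0
    have h3 := mul_le_mul_of_nonneg_left i2 h0
    have h4 : 0 ≤ p * F p n B * (p * F p n (sh n B)) := by positivity
    have h5 : (cnt n B + cnt n (sh n B)) * p ^ (n + 1) =
      p * (cnt n B * p ^ n) + p * (cnt n (sh n B) * p ^ n) := by ring
    rw [h5]
    nlinarith

open Classical in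
/-- the number of the points of `A` in `[2 ^ n, 2 ^ (n + 1))` -/
noncomputable def num (A : Set ℤ) (n : ℕ) : ℕ :=
  ((Finset.Ico ((2 : ℤ) ^ n) (2 ^ (n + 1))).filter (fun x => x ∈ A)).card

theorem num_eq (A : Set ℤ) (n : ℕ) : (num A n : ℝ) = cnt n (At A n) := by
  classical
  unfold num cnt
  rw [Finset.card_eq_sum_ones]
  push_cast
  rw [sum_piece _ (fun z hz => by
    have h := (Finset.mem_filter.1 hz).1
    exact Finset.mem_Ico.1 h)]
  apply Finset.sum_congr rfl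
  intro x hx
  have hx' := Finset.mem_range.1 hx
  have h3 : (x : ℤ) < 2 ^ n := by exact_mod_cast hx'
  have e : ((2 ^ n + x : ℕ) : ℤ) ∈ (Finset.Ico ((2 : ℤ) ^ n) (2 ^ (n + 1))).filter (fun x => x ∈ A) ↔
      x ∈ At A n := by
    rw [Finset.mem_filter, Finset.mem_Ico]
    constructor
    · exact fun h => h.2
    · intro h
      refine ⟨⟨?_, ?_⟩, h⟩
      · push_cast; omega
      · push_cast; rw [pow_succ]; omega
  simp only [e]

/-- few points: small dimension -/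
theorem dim_le_of_num {A : Set ℤ} {b : ℝ} (hb : 0 ≤ b)
    (h : ∀ᶠ n : ℕ in atTop, (num A n : ℝ) ≤ (2 : ℝ) ^ (b * n)) : DimS A ≤ b := by
  apply le_of_forall_pos_le_add
  intro ε hε
  apply csInf_le (GG_bdd A)
  obtain ⟨a, ha⟩ : ∃ a : ℝ≥0, (a : ℝ) = b + ε := ⟨⟨b + ε, by positivity⟩, rfl⟩
  rw [← ha]
  have ha0 : 0 < a := NNReal.coe_pos.1 (by rw [ha]; positivity)
  rw [mem_GG ha0]
  have hsum : Summable (fun n : ℕ => ((2 : ℝ) ^ (-ε)) ^ n) :=
    summable_geometric_of_lt_one (by positivity)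
      (Real.rpow_lt_one_of_one_lt_of_neg (by norm_num) (by linarith))
  apply Summable.of_norm_bounded_eventually_nat hsum
  filter_upwards [h] with n hn
  rw [Real.norm_of_nonneg (F_mem (pk_pos a).le (pk_le a) n _).1]
  refine (F_le_cnt (pk_pos a).le (pk_le a) n _).trans ?_
  rw [← num_eq]
  refine (mul_le_mul_of_nonneg_right hn (by have := pk_pos a; positivity)).trans (le_of_eq ?_)
  unfold pk
  rw [ha, ← Real.rpow_neg (by norm_num), ← Real.rpow_natCast, ← Real.rpow_natCast,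
    ← Real.rpow_mul (by norm_num), ← Real.rpow_mul (by norm_num), ← Real.rpow_add (by norm_num)]
  congr 1
  ring

/-- infinitely often many common points -/
theorem num_lower {k : ℕ} (hk : k ≤ 2) : ∀ᵐ ω ∂(Measure.pi (fun _ : Fin k => perc)),
    ∀ ε : ℝ, 0 < ε → ∃ᶠ n : ℕ in atTop,
      (2 : ℝ) ^ ((1 - (k : ℝ) / 3 - ε) * n) < (num ({x | 1 ≤ x} ∩ W ω) n : ℝ) := by
  have hk' : (k : ℝ) ≤ 2 := by exact_mod_cast hk
  filter_upwards [dim_common k {x | 1 ≤ x} (fun x hx => hx)] with ω hω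
  rw [dim_all, max_eq_left (by linarith)] at hω
  intro ε hε
  by_contra hcon
  rw [Filter.not_frequently] at hcon
  set δ := min ε (1 - (k : ℝ) / 3) with hδ
  have hδ0 : 0 < δ := lt_min hε (by linarith)
  have h1 : DimS ({x | 1 ≤ x} ∩ W ω) ≤ 1 - (k : ℝ) / 3 - δ := by
    apply dim_le_of_num
    · have := min_le_right ε (1 - (k : ℝ) / 3)
      linarith
    · filter_upwards [hcon] with n hn
      push Not at hn
      refine hn.trans ?_
      apply Real.rpow_le_rpow_of_exponent_le (by norm_num)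
      apply mul_le_mul_of_nonneg_right _ (Nat.cast_nonneg n)
      have := min_le_left ε (1 - (k : ℝ) / 3)
      linarith
  rw [hω] at h1
  linarith

theorem one_point : ∃ C : ℝ, 0 < C ∧ ∀ (n : ℕ) (x : ℤ), (2 : ℤ) ^ n ≤ x →
    perc.real {ω | x ∈ V ω} ≤ C * ((2 : ℝ) ^ ((1 : ℝ) / 3 * n))⁻¹ := by
  obtain ⟨c, C, hc, hC, h⟩ := TH868.CT.cap_main
  refine ⟨C, hC, fun n x hx => ?_⟩
  have h1n : (1 : ℤ) ≤ 2 ^ n := one_le_pow₀ (by norm_num)
  have hx1 : 1 ≤ x := h1n.trans hx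
  have h1 := (h {x} (fun y hy => by rw [Set.mem_singleton_iff.1 hy]; exact hx1)).2
  have e : {ω : Conf | ∃ y ∈ ({x} : Set ℤ), ((y, 0) : ℤ × ℕ) ∈ Cm ω} = {ω | x ∈ V ω} := by
    ext ω
    simp only [Set.mem_singleton_iff, exists_eq_left, Set.mem_setOf_eq]
    rfl
  rw [e] at h1
  refine h1.trans (mul_le_mul_of_nonneg_left ?_ hC.le)
  have hxr : (2 : ℝ) ^ n ≤ (x : ℝ) := by exact_mod_cast hx
  have hpow : (2 : ℝ) ^ ((1 : ℝ) / 3 * n) ≤ (x : ℝ) ^ ((1 : ℝ) / 3) := by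
    rw [mul_comm, Real.rpow_mul (by norm_num), Real.rpow_natCast]
    exact Real.rpow_le_rpow (by positivity) hxr (by norm_num)
  unfold TH868.CT.cap
  apply Real.sSup_le
  · rintro r ⟨T, m, h2, h3, rfl⟩
    have hT : ∀ y ∈ T, y = x := fun y hy => (h2 y hy).1
    have hE : ∑ y ∈ T, ∑ z ∈ T, m y * m z * TH868.CT.kern y z = (x : ℝ) ^ ((1 : ℝ) / 3) := by
      have e1 : ∀ y ∈ T, ∀ z ∈ T, m y * m z * TH868.CT.kern y z =
          m y * m z * (x : ℝ) ^ ((1 : ℝ) / 3) := by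
        intro y hy z hz
        rw [hT y hy, hT z hz]
        unfold TH868.CT.kern
        simp
      rw [Finset.sum_congr rfl fun y hy => Finset.sum_congr rfl (e1 y hy)]
      simp only [← Finset.sum_mul, ← Finset.mul_sum]
      rw [h3]
      ring
    rw [hE, one_div]
    exact inv_anti₀ (by positivity) hpow
  · positivity

theorem W_prob {k n : ℕ} {C : ℝ} (hC : 0 < C)
    (h : ∀ (n : ℕ) (x : ℤ), (2 : ℤ) ^ n ≤ x →
      perc.real {ω | x ∈ V ω} ≤ C * ((2 : ℝ) ^ ((1 : ℝ) / 3 * n))⁻¹) {x : ℤ} (hx : (2 : ℤ) ^ n ≤ x) :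
    Measure.pi (fun _ : Fin k => perc) {ω | x ∈ W ω} ≤
      ENNReal.ofReal ((C * ((2 : ℝ) ^ ((1 : ℝ) / 3 * n))⁻¹) ^ k) := by
  have e : {ω : Fin k → Conf | x ∈ W ω} = Set.pi Set.univ (fun _ => {ω : Conf | x ∈ V ω}) := by
    ext ω
    simp [W]
  rw [e, Measure.pi_pi, Finset.prod_const, Finset.card_univ, Fintype.card_fin,
    ENNReal.ofReal_pow (by positivity)]
  apply pow_le_pow_left' 
  have h1 := ENNReal.ofReal_le_ofReal (h n x hx)
  rwa [measureReal_def, ENNReal.ofReal_toReal (measure_ne_top _ _)] at h1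

theorem num_sum {k : ℕ} (ω : Fin k → Conf) (n : ℕ) :
    ((num ({x | 1 ≤ x} ∩ W ω) n : ℕ) : ℝ≥0∞) =
      ∑ x ∈ Finset.Ico ((2 : ℤ) ^ n) (2 ^ (n + 1)),
        {ω : Fin k → Conf | x ∈ W ω}.indicator (1 : (Fin k → Conf) → ℝ≥0∞) ω := by
  classical
  unfold num
  rw [Finset.card_eq_sum_ones, Finset.sum_filter]
  push_cast
  apply Finset.sum_congr rfl
  intro x hx
  have h1n : (1 : ℤ) ≤ 2 ^ n := one_le_pow₀ (by norm_num)
  have hx1 : 1 ≤ x := h1n.trans (Finset.mem_Ico.1 hx).1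
  by_cases h : x ∈ W ω
  · rw [if_pos ⟨hx1, h⟩, Set.indicator_of_mem (show ω ∈ {ω : Fin k → Conf | x ∈ W ω} from h)]
    rfl
  · rw [if_neg (fun h2 => h h2.2),
      Set.indicator_of_notMem (show ω ∉ {ω : Fin k → Conf | x ∈ W ω} from h)]

theorem num_mean (k n : ℕ) {C : ℝ} (hC : 0 < C)
    (h : ∀ (n : ℕ) (x : ℤ), (2 : ℤ) ^ n ≤ x →
      perc.real {ω | x ∈ V ω} ≤ C * ((2 : ℝ) ^ ((1 : ℝ) / 3 * n))⁻¹) :
    ∫⁻ ω, ((num ({x | 1 ≤ x} ∩ W ω) n : ℕ) : ℝ≥0∞) ∂(Measure.pi (fun _ : Fin k => perc)) ≤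
      ENNReal.ofReal (2 ^ n * (C * ((2 : ℝ) ^ ((1 : ℝ) / 3 * n))⁻¹) ^ k) := by
  simp only [num_sum]
  rw [lintegral_finsetSum _ (fun x _ => measurable_one.indicator (W_meas x))]
  have h1 : ∀ x ∈ Finset.Ico ((2 : ℤ) ^ n) (2 ^ (n + 1)),
      ∫⁻ ω, {ω : Fin k → Conf | x ∈ W ω}.indicator (1 : (Fin k → Conf) → ℝ≥0∞) ω
        ∂(Measure.pi (fun _ : Fin k => perc)) ≤
      ENNReal.ofReal ((C * ((2 : ℝ) ^ ((1 : ℝ) / 3 * n))⁻¹) ^ k) := by
    intro x hx
    rw [lintegral_indicator_one (W_meas x)]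
    exact W_prob hC h (Finset.mem_Ico.1 hx).1
  refine (Finset.sum_le_sum h1).trans (le_of_eq ?_)
  rw [Finset.sum_const, Int.card_Ico, nsmul_eq_mul, ENNReal.ofReal_mul (by positivity)]
  congr 1
  have e : ((2 : ℤ) ^ (n + 1) - 2 ^ n).toNat = 2 ^ n := by
    have : (2 : ℤ) ^ (n + 1) - 2 ^ n = ((2 ^ n : ℕ) : ℤ) := by push_cast; ring
    rw [this, Int.toNat_natCast]
  rw [e, ENNReal.ofReal_pow (by norm_num)]
  push_cast
  norm_num

theorem num_upper (k : ℕ) : ∀ᵐ ω ∂(Measure.pi (fun _ : Fin k => perc)),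
    ∀ ε : ℝ, 0 < ε → ∀ᶠ n : ℕ in atTop,
      (num ({x | 1 ≤ x} ∩ W ω) n : ℝ) ≤ (2 : ℝ) ^ ((1 - (k : ℝ) / 3 + ε) * n) := by
  obtain ⟨C, hC, h1⟩ := one_point
  set μ := Measure.pi (fun _ : Fin k => perc) with hμ
  have key : ∀ m : ℕ, ∀ᵐ ω ∂μ, ∀ᶠ n : ℕ in atTop,
      (num ({x | 1 ≤ x} ∩ W ω) n : ℝ) ≤ (2 : ℝ) ^ ((1 - (k : ℝ) / 3 + 1 / ((m : ℝ) + 1)) * n) := by
    intro m
    set ε : ℝ := 1 / ((m : ℝ) + 1) with hε
    have hε0 : 0 < ε := by positivity
    set A : ℕ → ℝ := fun n => (2 : ℝ) ^ ((1 - (k : ℝ) / 3 + ε) * n) with hA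
    have hA0 : ∀ n, 0 < A n := fun n => by simp only [hA]; positivity
    set s : ℕ → Set (Fin k → Conf) := fun n =>
      {ω | ENNReal.ofReal (A n) ≤ ((num ({x | 1 ≤ x} ∩ W ω) n : ℕ) : ℝ≥0∞)} with hs
    have hmeas : ∀ n, Measurable (fun ω : Fin k → Conf => ((num ({x | 1 ≤ x} ∩ W ω) n : ℕ) : ℝ≥0∞)) := by
      intro n
      simp only [num_sum]
      exact Finset.measurable_sum _ (fun x _ => measurable_one.indicator (W_meas x))
    have hbound : ∀ n, μ (s n) ≤ ENNReal.ofReal (C ^ k * ((2 : ℝ) ^ (-ε)) ^ n) := by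
      intro n
      have h2 := mul_meas_ge_le_lintegral (μ := μ) (hmeas n) (ENNReal.ofReal (A n))
      have h3 := h2.trans (num_mean k n hC h1)
      have h4 : (2 : ℝ) ^ n * (C * ((2 : ℝ) ^ ((1 : ℝ) / 3 * n))⁻¹) ^ k =
          A n * (C ^ k * ((2 : ℝ) ^ (-ε)) ^ n) := by
        simp only [hA]
        rw [mul_pow, ← Real.rpow_neg (by norm_num), ← Real.rpow_natCast (2 : ℝ) n,
          ← Real.rpow_natCast ((2 : ℝ) ^ (-((1 : ℝ) / 3 * n))) k,
          ← Real.rpow_natCast ((2 : ℝ) ^ (-ε)) n,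
          ← Real.rpow_mul (by norm_num), ← Real.rpow_mul (by norm_num)]
        have e1 : (2 : ℝ) ^ (n : ℝ) * (C ^ k * (2 : ℝ) ^ (-((1 : ℝ) / 3 * n) * k)) =
            C ^ k * ((2 : ℝ) ^ (n : ℝ) * (2 : ℝ) ^ (-((1 : ℝ) / 3 * n) * k)) := by ring
        have e2 : (2 : ℝ) ^ ((1 - (k : ℝ) / 3 + ε) * n) * (C ^ k * (2 : ℝ) ^ (-ε * n)) =
            C ^ k * ((2 : ℝ) ^ ((1 - (k : ℝ) / 3 + ε) * n) * (2 : ℝ) ^ (-ε * n)) := by ring
        rw [e1, e2, ← Real.rpow_add (by norm_num), ← Real.rpow_add (by norm_num)]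
        congr 2
        ring
      rw [h4, ENNReal.ofReal_mul (hA0 n).le] at h3
      have h5 : ENNReal.ofReal (A n) ≠ 0 := by
        rw [Ne, ENNReal.ofReal_eq_zero, not_le]; exact hA0 n
      exact (ENNReal.mul_le_mul_iff_right h5 ENNReal.ofReal_ne_top).1 h3
    have hsum : ∑' n, μ (s n) ≠ ∞ := by
      have h2 : Summable (fun n : ℕ => C ^ k * ((2 : ℝ) ^ (-ε)) ^ n) :=
        (summable_geometric_of_lt_one (by positivity)
          (Real.rpow_lt_one_of_one_lt_of_neg (by norm_num) (by linarith))).mul_left _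
      exact ne_top_of_le_ne_top h2.tsum_ofReal_ne_top (ENNReal.tsum_le_tsum hbound)
    filter_upwards [ae_eventually_notMem hsum] with ω hω
    filter_upwards [hω] with n hn
    have h2 : ((num ({x | 1 ≤ x} ∩ W ω) n : ℕ) : ℝ≥0∞) < ENNReal.ofReal (A n) := not_le.1 hn
    rw [← ENNReal.ofReal_natCast] at h2
    exact (ENNReal.ofReal_lt_ofReal_iff (hA0 n)).1 h2 |>.le
  filter_upwards [ae_all_iff.2 key] with ω hω ε hε
  obtain ⟨m, hm⟩ := exists_nat_one_div_lt hε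
  filter_upwards [hω m] with n hn
  refine hn.trans ?_
  apply Real.rpow_le_rpow_of_exponent_le (by norm_num)
  apply mul_le_mul_of_nonneg_right _ (Nat.cast_nonneg n)
  linarith

end V11324.KW.R
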