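import Pool.Agent.V11324.KW.HitMain
import Pool.Agent.V11324.KW.All

/-!
The probability of a common visited boundary point in a dyadic interval.
-/

set_option autoImplicit false
set_option maxHeartbeats 400000

namespace V11324.KW

open Finset MeasureTheory ProbabilityTheory Filter Topology H389KP
open scoped ENNReal

theorem F_big {k : ℕ} (hk : k ≤ 2) : ∃ c : ℝ, 0 < c ∧ ∀ n, c ≤ F (pk k) n Set.univ := by
  have hp0 := pk_pos k
  have hp1 := pk_le k
  have hp : 1 < 2 * pk k := by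
    rw [two_pk]
    apply Real.one_lt_rpow (by norm_num)
    have : (k : ℝ) ≤ 2 := by exact_mod_cast hk
    linarith
  set p := pk k with hpd
  have hc1 : (2 * p - 1) / p ^ 2 ≤ 1 := by
    rw [div_le_iff₀ (by positivity)]
    nlinarith [sq_nonneg (p - 1)]
  refine ⟨(2 * p - 1) / p ^ 2, div_pos (by linarith) (by positivity), fun n => ?_⟩
  set c := (2 * p - 1) / p ^ 2 with hc
  have hfix : 2 * p * c - p ^ 2 * c ^ 2 = c := by
    have h1 : p ^ 2 * c = 2 * p - 1 := by rw [hc]; field_simp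
    have h2 : p ^ 2 * c ^ 2 = (2 * p - 1) * c := by rw [← h1]; ring
    rw [h2]; ring
  induction n with
  | zero => rw [F_zero_univ]; exact hc1
  | succ n ih =>
    obtain ⟨f0, f1⟩ := F_mem hp0.le hp1 n Set.univ
    rw [F_rec]
    set f := F p n Set.univ
    have h1 : 1 - (1 - p * f) ^ 2 = 2 * p * f - p ^ 2 * f ^ 2 := by ring
    rw [h1, ← hfix]
    have h2 : 0 ≤ (f - c) * (2 * p - p ^ 2 * (f + c)) := by
      apply mul_nonneg (by linarith)
      have h3 : p ^ 2 * (f + c) ≤ p ^ 2 * 2 :=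
        mul_le_mul_of_nonneg_left (by linarith) (by positivity)
      nlinarith
    nlinarith

theorem F_three (n : ℕ) : F (pk 3) n Set.univ ≤ 4 / ((n : ℝ) + 1) := by
  have hp : pk 3 = 1 / 2 := by
    have h := two_pk 3
    have h2 : (1 : ℝ) - ((3 : ℕ) : ℝ) / 3 = 0 := by norm_num
    rw [h2, Real.rpow_zero] at h
    linarith
  have h : F (pk 3) n Set.univ ≤ 4 / ((n : ℝ) + 4) := by
    induction n with
    | zero => rw [F_zero_univ]; norm_num
    | succ n ih =>
      obtain ⟨f0, f1⟩ := F_mem (pk_pos 3).le (pk_le 3) n Set.univ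
      rw [F_rec]
      rw [hp] at ih f0 f1 ⊢
      set f := F (1 / 2) n Set.univ
      rw [le_div_iff₀ (by positivity)] at ih ⊢
      push_cast
      have hn : (0 : ℝ) ≤ n := Nat.cast_nonneg n
      have h1 : 1 - (1 - 1 / 2 * f) ^ 2 = f - f ^ 2 / 4 := by ring
      rw [h1]
      set t : ℝ := (n : ℝ) + 4 with ht
      have h2 : (n : ℝ) + 1 + 4 = t + 1 := by rw [ht]; ring
      rw [h2]
      nlinarith [mul_nonneg f0 (show 0 ≤ 4 - f * t by linarith), sq_nonneg (f * t - 4)]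
  refine h.trans ?_
  apply div_le_div_of_nonneg_left (by norm_num) (by positivity)
  linarith

theorem two_pk_lt {k : ℕ} (hk : 4 ≤ k) : 2 * pk k < 1 := by
  rw [two_pk]
  apply Real.rpow_lt_one_of_one_lt_of_neg (by norm_num)
  have : (4 : ℝ) ≤ k := by exact_mod_cast hk
  linarith

theorem F_small_low {k : ℕ} (hk : 4 ≤ k) : ∃ c : ℝ, 0 < c ∧ ∀ n,
    c * (2 * pk k) ^ n ≤ F (pk k) n Set.univ := by
  have hp0 := pk_pos k
  have hp1 := pk_le k
  have h2p := two_pk_lt hk
  set p := pk k with hpd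
  set s : ℝ := p / (1 - 2 * p) with hs
  have hs0 : 0 < s := div_pos hp0 (by linarith)
  have hs1 : s * (1 - 2 * p) = p := div_mul_cancel₀ _ (ne_of_gt (by linarith))
  have hA : ∀ n, 0 < F p n Set.univ ∧ (1 + s * F p n Set.univ) * (2 * p) ^ n ≤ (1 + s) * F p n Set.univ := by
    intro n
    induction n with
    | zero => rw [F_zero_univ]; constructor <;> norm_num
    | succ n ih =>
      obtain ⟨ih0, ih⟩ := ih
      obtain ⟨f0, f1⟩ := F_mem hp0.le hp1 n Set.univ
      rw [F_rec]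
      set f := F p n Set.univ
      have h1 : 1 - (1 - p * f) ^ 2 = 2 * p * f * (1 - p * f / 2) := by ring
      rw [h1]
      have hy0 : 0 < p * f := mul_pos hp0 ih0
      have hy1 : p * f ≤ 1 / 2 := by nlinarith
      have h3 : 0 < 2 * p * f * (1 - p * f / 2) := by
        apply mul_pos (by positivity); linarith
      refine ⟨h3, ?_⟩
      -- need (1 + s g) * f ≤ (1 + s f) * (f * (1 - p f / 2))
      have h4 : (1 + s * (2 * p * f * (1 - p * f / 2))) ≤ (1 + s * f) * (1 - p * f / 2) := by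
        have e : (1 + s * f) * (1 - p * f / 2) - (1 + s * (2 * p * f * (1 - p * f / 2))) =
          f * ((s * (1 - 2 * p)) * (1 - p * f / 2) - p / 2) := by ring
        have h5 : 0 ≤ f * ((s * (1 - 2 * p)) * (1 - p * f / 2) - p / 2) := by
          apply mul_nonneg f0
          rw [hs1]
          nlinarith
        linarith
      have h6 : 0 ≤ (2 * p) ^ n := by positivity
      calc (1 + s * (2 * p * f * (1 - p * f / 2))) * (2 * p) ^ (n + 1)
          = (1 + s * (2 * p * f * (1 - p * f / 2))) * ((2 * p) ^ n * (2 * p)) := by ring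
        _ ≤ ((1 + s * f) * (1 - p * f / 2)) * ((2 * p) ^ n * (2 * p)) :=
            mul_le_mul_of_nonneg_right h4 (by positivity)
        _ = ((1 + s * f) * (2 * p) ^ n) * ((1 - p * f / 2) * (2 * p)) := by ring
        _ ≤ ((1 + s) * f) * ((1 - p * f / 2) * (2 * p)) :=
            mul_le_mul_of_nonneg_right ih (mul_nonneg (by linarith) (by positivity))
        _ = (1 + s) * (2 * p * f * (1 - p * f / 2)) := by ring
  refine ⟨1 / (1 + s), by positivity, fun n => ?_⟩
  obtain ⟨h0, h1⟩ := hA n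
  have h2 : 0 ≤ (2 * p) ^ n := by positivity
  rw [one_div, inv_mul_le_iff₀ (by positivity)]
  have h3 : 0 ≤ s * F p n Set.univ * (2 * p) ^ n := by positivity
  nlinarith

/-- the points of the dyadic interval -/
def Dy (n : ℕ) : Set ℤ := {x | (2 : ℤ) ^ n ≤ x ∧ x < 2 ^ (n + 1)}

theorem F_At_ge {S : Set ℤ} {n : ℕ} (hS : Dy n ⊆ S) (k : ℕ) :
    F (pk k) n (At S n) = F (pk k) n Set.univ := by
  apply F_congr
  intro x hx
  simp only [Set.mem_univ, iff_true]
  apply hS
  have h3 : (x : ℤ) < 2 ^ n := by exact_mod_cast hx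
  constructor
  · push_cast; omega
  · push_cast; rw [pow_succ]; omega

theorem F_At_lt {S : Set ℤ} {n j : ℕ} (hS : ∀ x ∈ S, (2 : ℤ) ^ n ≤ x) (hj : j < n) (k : ℕ) :
    F (pk k) j (At S j) = 0 := by
  rw [← F_empty (pk k) j]
  apply F_congr
  intro x hx
  simp only [Set.mem_empty_iff_false, iff_false]
  intro h
  have h1 := hS _ h
  have h3 : (x : ℤ) < 2 ^ j := by exact_mod_cast hx
  have h4 : (2 : ℤ) ^ (j + 1) ≤ 2 ^ n := pow_le_pow_right₀ (by norm_num) hj
  push_cast at h1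
  rw [pow_succ] at h4
  omega

theorem F_mono_univ (k n : ℕ) (A : Set ℕ) : F (pk k) n A ≤ F (pk k) n Set.univ := by
  induction n generalizing A with
  | zero =>
    have h1 := (F_mem (pk_pos k).le (pk_le k) 0 A).2
    rw [F_zero_univ]; exact h1
  | succ n ih =>
    have h1 := ih A
    have h2 := ih (sh n A)
    obtain ⟨a0, a1⟩ := F_mem (pk_pos k).le (pk_le k) n A
    obtain ⟨b0, b1⟩ := F_mem (pk_pos k).le (pk_le k) n (sh n A)
    obtain ⟨u0, u1⟩ := F_mem (pk_pos k).le (pk_le k) n Set.univ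
    have hp0 := pk_pos k
    have hp1 := pk_le k
    simp only [F, sh_univ]
    have h3 : pk k * F (pk k) n A ≤ pk k * F (pk k) n Set.univ := mul_le_mul_of_nonneg_left h1 hp0.le
    have h4 : pk k * F (pk k) n (sh n A) ≤ pk k * F (pk k) n Set.univ :=
      mul_le_mul_of_nonneg_left h2 hp0.le
    have h5 : pk k * F (pk k) n Set.univ ≤ 1 := mul_le_one₀ hp1 u0 u1
    have h6 : (1 - pk k * F (pk k) n Set.univ) * (1 - pk k * F (pk k) n Set.univ) ≤
        (1 - pk k * F (pk k) n A) * (1 - pk k * F (pk k) n (sh n A)) :=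
      mul_le_mul (by linarith) (by linarith) (by linarith) (by linarith)
    linarith

theorem hit_dy (k : ℕ) : ∃ c C : ℝ, 0 < c ∧ 0 < C ∧ ∀ n : ℕ,
    c * F (pk k) n Set.univ ≤ (Measure.pi (fun _ : Fin k => perc)).real (Cmn k (Dy n)) ∧
    (Measure.pi (fun _ : Fin k => perc)).real (Cmn k (Dy n)) ≤ C * F (pk k) n Set.univ := by
  obtain ⟨C1, hC1, h1⟩ := hit_TT k
  set D : ℝ := C1.toReal + 1 with hD
  have hD0 : 0 < D := by positivity
  have hCD : C1 ≤ ENNReal.ofReal D := by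
    rw [hD, ENNReal.ofReal_add ENNReal.toReal_nonneg zero_le_one, ENNReal.ofReal_toReal hC1]
    exact le_self_add
  set μ := Measure.pi (fun _ : Fin k => perc) with hμ
  have hreal : ∀ A, μ A = ENNReal.ofReal (μ.real A) := fun A => by
    rw [measureReal_def, ENNReal.ofReal_toReal (measure_ne_top _ _)]
  refine ⟨1 / D, D, by positivity, hD0, fun n => ?_⟩
  have hS : ∀ x ∈ Dy n, 1 ≤ x ∧ x < 2 ^ (n + 1) := by
    intro x hx
    have h2 : (1 : ℤ) ≤ 2 ^ n := one_le_pow₀ (by norm_num)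
    exact ⟨h2.trans hx.1, hx.2⟩
  have hT : TT k (n + 1) (Dy n) = F (pk k) n Set.univ := by
    unfold TT
    rw [Finset.sum_range_succ, Finset.sum_eq_zero, zero_add, F_At_ge le_rfl]
    · exact min_eq_right (F_mem (pk_pos k).le (pk_le k) n _).2
    · intro j hj
      exact F_At_lt (fun x hx => hx.1) (Finset.mem_range.1 hj) k
  have h3 := ((h1 (n + 1) (Dy n) hS).1).trans (mul_le_mul_left hCD _)
  have h4 := ((h1 (n + 1) (Dy n) hS).2).trans (mul_le_mul_left hCD _)
  rw [hreal, ← ENNReal.ofReal_mul hD0.le] at h3 h4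
  rw [ENNReal.ofReal_le_ofReal_iff (mul_nonneg hD0.le measureReal_nonneg), hT] at h3
  rw [ENNReal.ofReal_le_ofReal_iff (mul_nonneg hD0.le (TT_nonneg _ _ _)), hT] at h4
  refine ⟨?_, h4⟩
  rw [one_div, inv_mul_le_iff₀ hD0]
  exact h3

theorem pow_two_pk (k n : ℕ) : (2 * pk k) ^ n = (2 : ℝ) ^ (-(((k : ℝ) / 3 - 1) * n)) := by
  rw [two_pk, ← Real.rpow_natCast, ← Real.rpow_mul (by norm_num)]
  congr 1
  ring

theorem tail {k : ℕ} (hk : 4 ≤ k) : ∃ C : ℝ, 0 < C ∧ ∀ n : ℕ,
    (Measure.pi (fun _ : Fin k => perc)).real (Cmn k {x | (2 : ℤ) ^ n ≤ x}) ≤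
      C * (2 * pk k) ^ n := by
  obtain ⟨c, C, -, hC, h⟩ := hit_dy k
  have hp0 := pk_pos k
  have hr := two_pk_lt hk
  set r := 2 * pk k with hrd
  have hr0 : 0 < r := by positivity
  have h1r : 0 < 1 - r := by linarith
  set μ := Measure.pi (fun _ : Fin k => perc) with hμ
  refine ⟨C / (1 - r), by positivity, fun n => ?_⟩
  have hsub : Cmn k {x | (2 : ℤ) ^ n ≤ x} ⊆ ⋃ j : ℕ, Cmn k (Dy (n + j)) := by
    rintro ω ⟨x, hx, hxV⟩
    have hx' : (2 : ℤ) ^ n ≤ x := hx
    have h1 : (1 : ℤ) ≤ 2 ^ n := one_le_pow₀ (by norm_num)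
    have h2 : x < 2 ^ x.toNat := by
      have h6 : x.toNat < 2 ^ x.toNat := Nat.lt_two_pow_self
      have h7 : (x.toNat : ℤ) < ((2 ^ x.toNat : ℕ) : ℤ) := by exact_mod_cast h6
      push_cast at h7
      omega
    obtain ⟨-, h3, h4⟩ := log_piece (h1.trans hx') h2
    have h5 : n ≤ Nat.log 2 x.toNat := by
      by_contra hcon
      push Not at hcon
      have h6 : (2 : ℤ) ^ (Nat.log 2 x.toNat + 1) ≤ 2 ^ n := pow_le_pow_right₀ (by norm_num) hcon
      omega
    rw [Set.mem_iUnion]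
    refine ⟨Nat.log 2 x.toNat - n, x, ?_, hxV⟩
    rw [Nat.add_sub_cancel' h5]
    exact ⟨h3, h4⟩
  have hsum : Summable (fun j : ℕ => C * r ^ n * r ^ j) :=
    (summable_geometric_of_lt_one hr0.le hr).mul_left _
  have h2 : μ (Cmn k {x | (2 : ℤ) ^ n ≤ x}) ≤ ENNReal.ofReal (C / (1 - r) * r ^ n) := by
    calc μ (Cmn k {x | (2 : ℤ) ^ n ≤ x}) ≤ μ (⋃ j : ℕ, Cmn k (Dy (n + j))) := measure_mono hsub
      _ ≤ ∑' j : ℕ, μ (Cmn k (Dy (n + j))) := measure_iUnion_le _
      _ ≤ ∑' j : ℕ, ENNReal.ofReal (C * r ^ n * r ^ j) := by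
          apply ENNReal.tsum_le_tsum
          intro j
          have h3 := (h (n + j)).2
          have h4 : F (pk k) (n + j) Set.univ ≤ r ^ (n + j) := F_small (n + j)
          have h5 := mul_le_mul_of_nonneg_left h4 hC.le
          have h6 : μ (Cmn k (Dy (n + j))) = ENNReal.ofReal (μ.real (Cmn k (Dy (n + j)))) := by
            rw [measureReal_def, ENNReal.ofReal_toReal (measure_ne_top _ _)]
          rw [h6]
          apply ENNReal.ofReal_le_ofReal
          rw [pow_add] at h5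
          linarith
      _ = ENNReal.ofReal (∑' j : ℕ, C * r ^ n * r ^ j) :=
          (ENNReal.ofReal_tsum_of_nonneg (fun j => by positivity) hsum).symm
      _ = ENNReal.ofReal (C / (1 - r) * r ^ n) := by
          rw [tsum_mul_left, tsum_geometric_of_lt_one hr0.le hr]
          congr 1
          field_simp
  rw [measureReal_def]
  have h3 := ENNReal.toReal_mono ENNReal.ofReal_ne_top h2
  rwa [ENNReal.toReal_ofReal (by positivity)] at h3

/-- All estimates for dyadic intervals. -/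
theorem dyadic (k : ℕ) :
    (k ≤ 2 → ∃ c : ℝ, 0 < c ∧ ∀ n : ℕ,
      c ≤ (Measure.pi (fun _ : Fin k => perc)).real (Cmn k (Dy n))) ∧
    (k = 3 → ∃ c C : ℝ, 0 < c ∧ 0 < C ∧ ∀ n : ℕ,
      c / ((n : ℝ) + 1) ≤ (Measure.pi (fun _ : Fin k => perc)).real (Cmn k (Dy n)) ∧
      (Measure.pi (fun _ : Fin k => perc)).real (Cmn k (Dy n)) ≤ C / ((n : ℝ) + 1)) ∧
    (4 ≤ k → ∃ c C : ℝ, 0 < c ∧ 0 < C ∧ ∀ n : ℕ,
      c * (2 : ℝ) ^ (-(((k : ℝ) / 3 - 1) * n)) ≤
        (Measure.pi (fun _ : Fin k => perc)).real (Cmn k (Dy n)) ∧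
      (Measure.pi (fun _ : Fin k => perc)).real (Cmn k {x | (2 : ℤ) ^ n ≤ x}) ≤
        C * (2 : ℝ) ^ (-(((k : ℝ) / 3 - 1) * n))) := by
  obtain ⟨c, C, hc, hC, h⟩ := hit_dy k
  refine ⟨fun hk => ?_, fun hk => ?_, fun hk => ?_⟩
  · obtain ⟨c', hc', h'⟩ := F_big hk
    refine ⟨c * c', by positivity, fun n => ?_⟩
    exact (mul_le_mul_of_nonneg_left (h' n) hc.le).trans (h n).1
  · refine ⟨c, C * 4, hc, by positivity, fun n => ⟨?_, ?_⟩⟩
    · have h1 := mul_le_mul_of_nonneg_left (F_large (le_of_eq hk) n) hc.le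
      rw [← mul_div_assoc, mul_one] at h1
      exact h1.trans (h n).1
    · have h1 : F (pk k) n Set.univ ≤ 4 / ((n : ℝ) + 1) := by
        subst hk
        exact F_three n
      have h2 := mul_le_mul_of_nonneg_left h1 hC.le
      rw [← mul_div_assoc] at h2
      exact (h n).2.trans h2
  · obtain ⟨c', hc', h'⟩ := F_small_low hk
    obtain ⟨C', hC', h''⟩ := tail hk
    refine ⟨c * c', C', by positivity, hC', fun n => ?_⟩
    rw [← pow_two_pk]
    refine ⟨?_, h'' n⟩
    rw [mul_assoc]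
    exact (mul_le_mul_of_nonneg_left (h' n) hc.le).trans (h n).1

end V11324.KW
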