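import Pool.Agent.V11324.KW.CapR
import Pool.Agent.V11324.KW.HitDy

/-!
The discrete dimension of the common boundary points of independent exploration paths.
-/

set_option autoImplicit false
set_option maxHeartbeats 400000

namespace V11324.KW.R

open V11324.KW (F At Ix wt st wt_nonneg wt_sum F_comp F_one F_mem F_congr F_empty Q mem_Q Q_meas
  meas_Ix V V_meas ser_conv ser_div int01 sh sh_univ F_zero_univ F_rec meas_inf At_pos instMx)
open Finset MeasureTheory ProbabilityTheory Filter Topology H389KP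
open scoped NNReal

/-- the law of the percolation in one piece -/
noncomputable def muk (k : ℝ≥0) (n : ℕ) : Measure (Ix n) :=
  ∑ i : Ix n, ENNReal.ofReal (wt (pk k) n i) • Measure.dirac i

instance muk_prob (k : ℝ≥0) (n : ℕ) : IsProbabilityMeasure (muk k n) := by
  constructor
  unfold muk
  rw [Measure.finsetSum_apply]
  simp only [Measure.smul_apply, measure_univ, smul_eq_mul, mul_one]
  rw [← ENNReal.ofReal_sum_of_nonneg (fun i _ => wt_nonneg (pk_pos k).le (pk_le k) n i), wt_sum]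
  simp

theorem muk_int (k : ℝ≥0) (n : ℕ) (f : Ix n → ℝ) :
    ∫ i, f i ∂(muk k n) = ∑ i : Ix n, wt (pk k) n i * f i := by
  unfold muk
  rw [integral_finset_sum_measure]
  · apply Finset.sum_congr rfl
    intro i _
    rw [integral_smul_measure, integral_dirac,
      ENNReal.toReal_ofReal (wt_nonneg (pk_pos k).le (pk_le k) n i), smul_eq_mul]
  · intro i _
    apply Integrable.smul_measure _ ENNReal.ofReal_ne_top
    exact integrable_dirac (by simp)

/-- the law of the percolation -/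
noncomputable def nu (k : ℝ≥0) : Measure (∀ n, Ix n) := Measure.infinitePi (fun n => muk k n)

instance nu_prob (k : ℝ≥0) : IsProbabilityMeasure (nu k) := by unfold nu; infer_instance

theorem swapQ (k j : ℝ≥0) (S : Set ℤ) : ∀ᵐ q ∂(nu k),
    (Summable (fun n => F (pk j) n (At (S ∩ Q q) n)) ↔
      Summable (fun n => F (pk (k + j)) n (At S n))) := by
  set X : ∀ n, (∀ n, Ix n) → ℝ := fun n q => F (pk j) n (At S n ∩ st n (q n)) with hX
  have e1 : ∀ q n, F (pk j) n (At (S ∩ Q q) n) = X n q := by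
    intro q n
    simp only [hX]
    apply F_congr
    intro x hx
    constructor
    · rintro ⟨h1, h2⟩
      exact ⟨h1, (mem_Q hx).1 h2⟩
    · rintro ⟨h1, h2⟩
      exact ⟨h1, (mem_Q hx).2 h2⟩
  have hm : ∀ n, Measurable (X n) := fun n =>
    (meas_Ix (fun i => F (pk j) n (At S n ∩ st n i))).comp (measurable_pi_apply n)
  have h01 : ∀ n q, 0 ≤ X n q ∧ X n q ≤ 1 := fun n q => F_mem (pk_pos j).le (pk_le j) n _
  have hind : iIndepFun X (nu k) := by
    unfold nu
    exact iIndepFun_infinitePi (X := fun n i => F (pk j) n (At S n ∩ st n i)) (fun n => meas_Ix _)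
  have hint : ∀ n, ∫ q, X n q ∂(nu k) = F (pk (k + j)) n (At S n) := by
    intro n
    have h1 : ∫ q, X n q ∂(nu k) = ∫ i, F (pk j) n (At S n ∩ st n i) ∂(muk k n) := by
      have h2 := measurePreserving_eval_infinitePi (fun n => muk k n) n
      rw [← h2.map_eq, integral_map h2.measurable.aemeasurable (meas_Ix _).aestronglyMeasurable]
      rfl
    rw [h1, muk_int, F_comp, pk_add]
  have hEq : (fun n => ∫ q, X n q ∂(nu k)) = fun n => F (pk (k + j)) n (At S n) := funext hint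
  simp only [e1]
  by_cases hs : Summable (fun n => F (pk (k + j)) n (At S n))
  · filter_upwards [ser_conv hm h01 (hEq ▸ hs)] with q hq
    exact ⟨fun _ => hs, fun _ => hq⟩
  · filter_upwards [ser_div hm h01 hind (hEq ▸ hs)] with q hq
    exact ⟨fun h => absurd h hq, fun h => absurd h hs⟩

/-- the exponent `k / 3` -/
noncomputable def th (k : ℕ) : ℝ≥0 := (k : ℝ≥0) / 3

theorem pk_th (k : ℕ) : V11324.KW.pk k = pk (th k) := by
  unfold V11324.KW.pk pk th
  push_cast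
  rfl

theorem fin_iff {S : Set ℤ} (hS : ∀ x ∈ S, 1 ≤ x) :
    Summable (fun n => F (pk 0) n (At S n)) ↔ S.Finite := by
  have h := V11324.KW.fin_iff hS
  have e : V11324.KW.pk 0 = pk 0 := by rw [V11324.KW.pk_zero, pk_zero]
  rw [e] at h
  exact h

/-- the commonly visited points -/
def W {k : ℕ} (ω : Fin k → Conf) : Set ℤ := {x | ∀ i, x ∈ V (ω i)}

theorem W_meas {k : ℕ} (x : ℤ) : MeasurableSet {ω : Fin k → Conf | x ∈ W ω} := by
  have e : {ω : Fin k → Conf | x ∈ W ω} = ⋂ i : Fin k, (fun ω : Fin k → Conf => ω i) ⁻¹' {ω | x ∈ V ω} := by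
    ext ω
    simp [W]
  rw [e]
  exact MeasurableSet.iInter fun i => measurable_pi_apply i (V_meas x)

theorem crit (k : ℕ) (j : ℝ≥0) (S : Set ℤ) (hS : ∀ x ∈ S, 1 ≤ x) :
    ∀ᵐ ω ∂(Measure.pi (fun _ : Fin k => perc)),
      (Summable (fun n => F (pk j) n (At (S ∩ W ω) n)) ↔
        Summable (fun n => F (pk (j + th k)) n (At S n))) := by
  have h1 : ∀ᵐ q ∂(nu j), ∀ᵐ ω ∂(Measure.pi (fun _ : Fin k => perc)),
      ({x : ℤ | x ∈ S ∧ x ∈ Q q ∧ x ∈ W ω}.Infinite ↔
        ¬ Summable (fun n => F (pk (j + th k)) n (At S n))) := by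
    filter_upwards [swapQ j (th k) S] with q hq
    filter_upwards [V11324.KW.main k (S ∩ Q q) (fun x hx => hS x hx.1)] with ω hω
    rw [pk_th, hq] at hω
    rw [← hω]
    have e : {x : ℤ | x ∈ S ∧ x ∈ Q q ∧ x ∈ W ω} = {x : ℤ | x ∈ S ∩ Q q ∧ ∀ i, x ∈ V (ω i)} := by
      ext x
      exact ⟨fun h => ⟨⟨h.1, h.2.1⟩, h.2.2⟩, fun h => ⟨h.1.1, h.1.2, h.2⟩⟩
    rw [e]
  have hmeas : MeasurableSet {z : (∀ n, Ix n) × (Fin k → Conf) |
      {x : ℤ | x ∈ S ∧ x ∈ Q z.1 ∧ x ∈ W z.2}.Infinite ↔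
        ¬ Summable (fun n => F (pk (j + th k)) n (At S n))} := by
    have h2 : MeasurableSet {z : (∀ n, Ix n) × (Fin k → Conf) |
        {x : ℤ | x ∈ S ∧ x ∈ Q z.1 ∧ x ∈ W z.2}.Infinite} := by
      apply meas_inf (fun x : ℤ => {z : (∀ n, Ix n) × (Fin k → Conf) | x ∈ S ∧ x ∈ Q z.1 ∧ x ∈ W z.2})
      intro x
      by_cases hx : x ∈ S
      · have e : {z : (∀ n, Ix n) × (Fin k → Conf) | x ∈ S ∧ x ∈ Q z.1 ∧ x ∈ W z.2} =
            Prod.fst ⁻¹' {q | x ∈ Q q} ∩ Prod.snd ⁻¹' {ω | x ∈ W ω} := by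
          ext z
          exact ⟨fun h => h.2, fun h => ⟨hx, h⟩⟩
        rw [e]
        exact (measurable_fst (Q_meas x)).inter (measurable_snd (W_meas x))
      · have e : {z : (∀ n, Ix n) × (Fin k → Conf) | x ∈ S ∧ x ∈ Q z.1 ∧ x ∈ W z.2} = ∅ := by
          ext z
          exact ⟨fun h => hx h.1, fun h => absurd h (Set.notMem_empty z)⟩
        rw [e]
        exact MeasurableSet.empty
    by_cases hD : Summable (fun n => F (pk (j + th k)) n (At S n))
    · have e : {z : (∀ n, Ix n) × (Fin k → Conf) | {x : ℤ | x ∈ S ∧ x ∈ Q z.1 ∧ x ∈ W z.2}.Infinite ↔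
          ¬ Summable (fun n => F (pk (j + th k)) n (At S n))} =
          {z : (∀ n, Ix n) × (Fin k → Conf) | {x : ℤ | x ∈ S ∧ x ∈ Q z.1 ∧ x ∈ W z.2}.Infinite}ᶜ := by
        ext z
        exact ⟨fun h h3 => (h.1 h3) hD, fun h => ⟨fun h3 => absurd h3 h, fun h3 => absurd hD h3⟩⟩
      rw [e]; exact h2.compl
    · have e : {z : (∀ n, Ix n) × (Fin k → Conf) | {x : ℤ | x ∈ S ∧ x ∈ Q z.1 ∧ x ∈ W z.2}.Infinite ↔
          ¬ Summable (fun n => F (pk (j + th k)) n (At S n))} =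
          {z : (∀ n, Ix n) × (Fin k → Conf) | {x : ℤ | x ∈ S ∧ x ∈ Q z.1 ∧ x ∈ W z.2}.Infinite} := by
        ext z
        exact ⟨fun h => h.2 hD, fun h => ⟨fun _ => hD, fun _ => h⟩⟩
      rw [e]; exact h2
  have h3 := (Measure.ae_ae_comm (μ := nu j) (ν := Measure.pi (fun _ : Fin k => perc))
    (p := fun q ω => {x : ℤ | x ∈ S ∧ x ∈ Q q ∧ x ∈ W ω}.Infinite ↔
      ¬ Summable (fun n => F (pk (j + th k)) n (At S n))) hmeas).1 h1
  filter_upwards [h3] with ω hω
  obtain ⟨q, hq1, hq2⟩ := (hω.and (swapQ j 0 (S ∩ W ω))).exists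
  rw [fin_iff (S := S ∩ W ω ∩ Q q) (fun x hx => hS x hx.1.1), add_zero] at hq2
  rw [← hq2]
  have e : {x : ℤ | x ∈ S ∧ x ∈ Q q ∧ x ∈ W ω} = S ∩ W ω ∩ Q q := by
    ext x
    simp only [Set.mem_inter_iff]
    exact ⟨fun h => ⟨⟨h.1, h.2.2⟩, h.2.1⟩, fun h => ⟨h.1.1, h.2, h.1.2⟩⟩
  rw [e] at hq1
  constructor
  · intro h5
    by_contra h6
    exact (hq1.2 h6) h5
  · intro h5
    by_contra h6
    exact (hq1.1 h6) h5

theorem F_mono_p {p p' : ℝ} (h0 : 0 ≤ p) (h : p ≤ p') (h1 : p' ≤ 1) (n : ℕ) (A : Set ℕ) :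
    F p n A ≤ F p' n A := by
  induction n generalizing A with
  | zero => simp only [F]; exact le_rfl
  | succ n ih =>
    have i1 := ih A
    have i2 := ih (sh n A)
    obtain ⟨a0, a1⟩ := F_mem h0 (h.trans h1) n A
    obtain ⟨b0, b1⟩ := F_mem h0 (h.trans h1) n (sh n A)
    obtain ⟨c0, c1⟩ := F_mem (h0.trans h) h1 n A
    obtain ⟨d0, d1⟩ := F_mem (h0.trans h) h1 n (sh n A)
    simp only [F]
    have h3 : p * F p n A ≤ p' * F p' n A := mul_le_mul h i1 a0 (h0.trans h)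
    have h4 : p * F p n (sh n A) ≤ p' * F p' n (sh n A) := mul_le_mul h i2 b0 (h0.trans h)
    have h5 : p' * F p' n A ≤ 1 := mul_le_one₀ h1 c0 c1
    have h6 : p' * F p' n (sh n A) ≤ 1 := mul_le_one₀ h1 d0 d1
    have h7 : (1 - p' * F p' n A) * (1 - p' * F p' n (sh n A)) ≤
        (1 - p * F p n A) * (1 - p * F p n (sh n A)) :=
      mul_le_mul (by linarith) (by linarith) (by linarith) (by linarith)
    linarith

theorem pk_anti {a b : ℝ≥0} (h : a ≤ b) : pk b ≤ pk a := by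
  unfold pk
  apply inv_anti₀ (by positivity)
  exact Real.rpow_le_rpow_of_exponent_le (by norm_num) (by exact_mod_cast h)

/-- the capacity for a real exponent -/
noncomputable def capr (a : ℝ) (S : Set ℤ) : ℝ :=
  sSup {r | ∃ (T : Finset ℤ) (m : ℤ → ℝ), (∀ x ∈ T, x ∈ S ∧ 0 ≤ m x) ∧ ∑ x ∈ T, m x = 1 ∧
    r = 1 / ∑ x ∈ T, ∑ y ∈ T, m x * m y *
      (((max x y : ℤ) : ℝ) / (((|x - y| : ℤ) : ℝ) + 1)) ^ a}

/-- the exponents with a convergent series -/
def GG (S : Set ℤ) : Set ℝ := {a | 0 < a ∧ Summable (fun n => capr a (TH868.CT.pc S n))}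

theorem mem_GG {S : Set ℤ} {a : ℝ≥0} (ha : 0 < a) :
    (a : ℝ) ∈ GG S ↔ Summable (fun n => F (pk a) n (At S n)) := by
  have h := summable_iff ha S
  constructor
  · rintro ⟨-, h2⟩
    exact h.1 h2
  · intro h2
    exact ⟨by exact_mod_cast ha, h.2 h2⟩

theorem GG_up {S : Set ℤ} {a b : ℝ} (ha : a ∈ GG S) (hab : a ≤ b) : b ∈ GG S := by
  have ha0 : 0 < a := ha.1
  lift a to ℝ≥0 using ha0.le
  lift b to ℝ≥0 using ha0.le.trans hab
  have ha1 : 0 < a := by exact_mod_cast ha0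
  have hab1 : a ≤ b := by exact_mod_cast hab
  rw [mem_GG ha1] at ha
  rw [mem_GG (ha1.trans_le hab1)]
  exact Summable.of_nonneg_of_le (fun n => (F_mem (pk_pos b).le (pk_le b) n _).1)
    (fun n => F_mono_p (pk_pos b).le (pk_anti hab1) (pk_le a) n _) ha

theorem F_small' (a : ℝ≥0) (n : ℕ) (A : Set ℕ) : F (pk a) n A ≤ (2 * pk a) ^ n := by
  induction n generalizing A with
  | zero => simpa using (F_mem (pk_pos a).le (pk_le a) 0 A).2
  | succ n ih =>
    have i1 := ih A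
    have i2 := ih (sh n A)
    obtain ⟨a0, a1⟩ := F_mem (pk_pos a).le (pk_le a) n A
    obtain ⟨b0, b1⟩ := F_mem (pk_pos a).le (pk_le a) n (sh n A)
    have hp := pk_pos a
    simp only [F]
    have h1 := mul_le_mul_of_nonneg_left i1 hp.le
    have h2 := mul_le_mul_of_nonneg_left i2 hp.le
    have h3 : 0 ≤ pk a * F (pk a) n A * (pk a * F (pk a) n (sh n A)) := by positivity
    have h4 : (2 * pk a) ^ (n + 1) = pk a * (2 * pk a) ^ n + pk a * (2 * pk a) ^ n := by ring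
    rw [h4]
    nlinarith

theorem GG_two (S : Set ℤ) {a : ℝ} (ha : 1 < a) : a ∈ GG S := by
  lift a to ℝ≥0 using (by linarith)
  have ha1 : 1 < a := by exact_mod_cast ha
  rw [mem_GG (zero_lt_one.trans ha1)]
  have hr : 2 * pk a < 1 := by
    unfold pk
    have h1 : (2 : ℝ) ^ (1 : ℝ) < 2 ^ (a : ℝ) := Real.rpow_lt_rpow_of_exponent_lt (by norm_num) ha
    rw [Real.rpow_one] at h1
    rw [← div_eq_mul_inv, div_lt_one (by positivity)]
    exact h1
  exact Summable.of_nonneg_of_le (fun n => (F_mem (pk_pos a).le (pk_le a) n _).1)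
    (fun n => F_small' a n _) (summable_geometric_of_lt_one (by have := pk_pos a; positivity) hr)

/-- the dimension -/
noncomputable def DimS (S : Set ℤ) : ℝ := sInf (GG S)

theorem GG_ne (S : Set ℤ) : (GG S).Nonempty := ⟨2, GG_two S (by norm_num)⟩

theorem GG_bdd (S : Set ℤ) : BddBelow (GG S) := ⟨0, fun _ h => h.1.le⟩

theorem dim_nonneg (S : Set ℤ) : 0 ≤ DimS S := le_csInf (GG_ne S) fun _ h => h.1.le

theorem dim_shift {G H : Set ℝ} {t : ℝ} (ht : 0 ≤ t) (hG : G.Nonempty) (hGb : BddBelow G)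
    (hGu : ∀ a b, a ∈ G → a ≤ b → b ∈ G) (hH : H.Nonempty) (hH0 : ∀ a ∈ H, 0 < a)
    (hHu : ∀ a b, a ∈ H → a ≤ b → b ∈ H)
    (h : ∀ a : ℚ, 0 < (a : ℝ) → ((a : ℝ) ∈ H ↔ (a : ℝ) + t ∈ G)) :
    sInf H = max (sInf G - t) 0 := by
  have hHb : BddBelow H := ⟨0, fun a ha => (hH0 a ha).le⟩
  apply le_antisymm
  · apply le_of_forall_pos_lt_add
    intro ε hε
    obtain ⟨a, ha1, ha2⟩ := exists_rat_btwn (show max (sInf G - t) 0 < max (sInf G - t) 0 + ε by linarith)
    have ha0 : 0 < (a : ℝ) := lt_of_le_of_lt (le_max_right _ _) ha1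
    have h1 : sInf G < a + t := by
      have := lt_of_le_of_lt (le_max_left (sInf G - t) 0) ha1
      linarith
    obtain ⟨g, hg1, hg2⟩ := exists_lt_of_csInf_lt hG h1
    have h2 : (a : ℝ) ∈ H := (h a ha0).2 (hGu _ _ hg1 hg2.le)
    exact lt_of_le_of_lt (csInf_le hHb h2) ha2
  · apply max_le
    · apply le_csInf hH
      intro b hb
      apply le_of_forall_pos_le_add
      intro ε hε
      obtain ⟨a, ha1, ha2⟩ := exists_rat_btwn (show b < b + ε by linarith)
      have ha0 : 0 < (a : ℝ) := (hH0 b hb).trans ha1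
      have h2 := (h a ha0).1 (hHu _ _ hb ha1.le)
      have h3 := csInf_le hGb h2
      linarith
    · exact le_csInf hH fun a ha => (hH0 a ha).le

theorem dim_common (k : ℕ) (S : Set ℤ) (hS : ∀ x ∈ S, 1 ≤ x) :
    ∀ᵐ ω ∂(Measure.pi (fun _ : Fin k => perc)),
      DimS (S ∩ W ω) = max (DimS S - (k : ℝ) / 3) 0 := by
  have h1 : ∀ᵐ ω ∂(Measure.pi (fun _ : Fin k => perc)), ∀ a : ℚ, 0 < (a : ℝ) →
      ((a : ℝ) ∈ GG (S ∩ W ω) ↔ (a : ℝ) + (k : ℝ) / 3 ∈ GG S) := by
    rw [ae_all_iff]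
    intro a
    by_cases ha : 0 < (a : ℝ)
    · set j : ℝ≥0 := ⟨(a : ℝ), ha.le⟩ with hj
      have hj0 : 0 < j := NNReal.coe_pos.1 ha
      filter_upwards [crit k j S hS] with ω hω _
      have h2 : (a : ℝ) = (j : ℝ) := rfl
      have h3 : (a : ℝ) + (k : ℝ) / 3 = ((j + th k : ℝ≥0) : ℝ) := by
        rw [h2]
        unfold th
        push_cast
        rfl
      rw [h3, h2, mem_GG hj0, mem_GG (add_pos_of_pos_of_nonneg hj0 zero_le)]
      exact hω
    · exact ae_of_all _ fun ω h => absurd h ha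
  filter_upwards [h1] with ω hω
  exact dim_shift (by positivity) (GG_ne S) (GG_bdd S) (fun a b h h' => GG_up h h') (GG_ne _)
    (fun a h => h.1) (fun a b h h' => GG_up h h') hω

theorem dim_all : DimS {x : ℤ | 1 ≤ x} = 1 := by
  apply le_antisymm
  · apply le_of_forall_pos_le_add
    intro ε hε
    exact csInf_le (GG_bdd _) (GG_two _ (by linarith))
  · apply le_csInf (GG_ne _)
    intro a ha
    by_contra hlt
    push Not at hlt
    have h1 : (1 : ℝ) ∈ GG {x : ℤ | 1 ≤ x} := GG_up ha hlt.le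
    have h2 : (1 : ℝ) = ((th 3 : ℝ≥0) : ℝ) := by unfold th; push_cast; norm_num
    have h3 : 0 < th 3 := by unfold th; positivity
    rw [h2, mem_GG h3, ← pk_th] at h1
    have h4 : Summable (fun n : ℕ => 1 / ((n : ℝ) + 1)) := by
      apply Summable.of_nonneg_of_le (fun n => by positivity) _ h1
      intro n
      rw [At_pos]
      exact V11324.KW.F_large le_rfl n
    exact Real.not_summable_one_div_natCast ((summable_nat_add_iff 1).1 (by simpa using h4))

end V11324.KW.R
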