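import Pool.Agent.V11324.KW.Tree

/-!
Energies and flows on the binary tree: `mass ^ 2 ≤ F * energy`, and a flow with small energy.
-/

set_option autoImplicit false

namespace V11324.KW

open Finset

/-- total mass on `[0, 2 ^ n)` -/
noncomputable def ms (n : ℕ) (m : ℕ → ℝ) : ℝ := ∑ x ∈ range (2 ^ n), m x

/-- shifted weight -/
def sm (n : ℕ) (m : ℕ → ℝ) : ℕ → ℝ := fun x => m (2 ^ n + x)

theorem ms_succ (n : ℕ) (m : ℕ → ℝ) : ms (n + 1) m = ms n m + ms n (sm n m) := by
  unfold ms sm
  rw [pow_succ, mul_two, Finset.sum_range_add]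

/-- tree energy -/
noncomputable def En (p : ℝ) : ℕ → (ℕ → ℝ) → ℝ
  | 0, m => m 0 ^ 2
  | n + 1, m => (En p n m + En p n (sm n m)) / p + 2 * (ms n m * ms n (sm n m))

theorem ms_congr {n : ℕ} {m m' : ℕ → ℝ} (h : ∀ x, x < 2 ^ n → m x = m' x) : ms n m = ms n m' :=
  Finset.sum_congr rfl (fun x hx => h x (Finset.mem_range.mp hx))

theorem En_congr {p : ℝ} : ∀ (n : ℕ) (m m' : ℕ → ℝ), (∀ x, x < 2 ^ n → m x = m' x) →
    En p n m = En p n m'
  | 0, m, m', h => by
    simp only [En]
    rw [h 0 (by norm_num)]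
  | n + 1, m, m', h => by
    have h1 : ∀ x, x < 2 ^ n → m x = m' x := fun x hx => h x (by rw [pow_succ]; omega)
    have h2 : ∀ x, x < 2 ^ n → sm n m x = sm n m' x := fun x hx =>
      h (2 ^ n + x) (by rw [pow_succ]; omega)
    simp only [En]
    rw [En_congr n m m' h1, En_congr n (sm n m) (sm n m') h2, ms_congr h1, ms_congr h2]

theorem ms_nonneg {n : ℕ} {m : ℕ → ℝ} (h : ∀ x, 0 ≤ m x) : 0 ≤ ms n m :=
  Finset.sum_nonneg (fun x _ => h x)

theorem ms_smul (n : ℕ) (m : ℕ → ℝ) (l : ℝ) : ms n (fun x => l * m x) = l * ms n m := by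
  unfold ms; rw [Finset.mul_sum]

theorem En_smul {p : ℝ} : ∀ (n : ℕ) (m : ℕ → ℝ) (l : ℝ), En p n (fun x => l * m x) = l ^ 2 * En p n m
  | 0, m, l => by simp only [En]; ring
  | n + 1, m, l => by
    have h : sm n (fun x => l * m x) = fun x => l * sm n m x := rfl
    simp only [En]
    rw [h, En_smul n m l, En_smul n (sm n m) l, ms_smul, ms_smul]
    ring

theorem En_nonneg {p : ℝ} (hp : 0 < p) : ∀ (n : ℕ) (m : ℕ → ℝ), (∀ x, 0 ≤ m x) → 0 ≤ En p n m
  | 0, m, _ => by simp only [En]; positivity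
  | n + 1, m, h => by
    simp only [En]
    have h1 := En_nonneg hp n m h
    have h2 := En_nonneg hp n (sm n m) (fun x => h _)
    have h3 := ms_nonneg (n := n) h
    have h4 := ms_nonneg (n := n) (m := sm n m) (fun x => h _)
    positivity

/-- the algebraic step of the second moment bound -/
theorem step_low {a b e f x y : ℝ} (ha0 : 0 ≤ a) (ha1 : a ≤ 1) (hb0 : 0 ≤ b) (hb1 : b ≤ 1)
    (he : 0 ≤ e) (hf : 0 ≤ f) (hx : 0 ≤ x) (hy : 0 ≤ y) (h1 : x ^ 2 ≤ a * e) (h2 : y ^ 2 ≤ b * f) :
    (x + y) ^ 2 ≤ (a + b - a * b) * (e + f + 2 * (x * y)) := by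
  set P := b * (1 - a) * e with hP
  set R := a * (1 - b) * f with hR
  have hP0 : 0 ≤ P := by
    have : 0 ≤ 1 - a := by linarith
    positivity
  have hR0 : 0 ≤ R := by
    have : 0 ≤ 1 - b := by linarith
    positivity
  have h3 : ((1 - a) * (1 - b) * (x * y)) ^ 2 ≤ P * R := by
    have h4 : x ^ 2 * y ^ 2 ≤ (a * e) * (b * f) := mul_le_mul h1 h2 (by positivity) (by positivity)
    have h5 : 0 ≤ (1 - a) * (1 - b) := mul_nonneg (by linarith) (by linarith)
    have h6 : (1 - a) * (1 - b) ≤ 1 := mul_le_one₀ (by linarith) (by linarith) (by linarith)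
    have h7 : ((1 - a) * (1 - b)) ^ 2 ≤ (1 - a) * (1 - b) := by nlinarith
    calc ((1 - a) * (1 - b) * (x * y)) ^ 2 = ((1 - a) * (1 - b)) ^ 2 * (x ^ 2 * y ^ 2) := by ring
      _ ≤ ((1 - a) * (1 - b)) * ((a * e) * (b * f)) :=
          mul_le_mul h7 h4 (by positivity) h5
      _ = P * R := by rw [hP, hR]; ring
  have h8 : 2 * ((1 - a) * (1 - b) * (x * y)) ≤ P + R := by
    have h9 : (2 * ((1 - a) * (1 - b) * (x * y))) ^ 2 ≤ (P + R) ^ 2 := by
      nlinarith [sq_nonneg (P - R)]
    exact abs_le_of_sq_le_sq' h9 (by positivity) |>.2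
  have e1 : (a + b - a * b) * (e + f + 2 * (x * y)) - (x + y) ^ 2 =
      (a * e - x ^ 2) + (b * f - y ^ 2) + (P + R - 2 * ((1 - a) * (1 - b) * (x * y))) := by
    rw [hP, hR]; ring
  linarith

theorem low {p : ℝ} (hp0 : 0 < p) (hp1 : p ≤ 1) : ∀ (n : ℕ) (A : Set ℕ) (m : ℕ → ℝ),
    (∀ x, 0 ≤ m x) → (∀ x, x < 2 ^ n → m x ≠ 0 → x ∈ A) → ms n m ^ 2 ≤ F p n A * En p n m
  | 0, A, m, h0, hA => by
    simp only [F, En, ms]
    rw [pow_zero, Finset.sum_range_one]
    by_cases hm : m 0 = 0
    · rw [hm]; simp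
    · rw [if_pos (hA 0 (by norm_num) hm)]
      simp
  | n + 1, A, m, h0, hA => by
    have ih1 := low hp0 hp1 n A m h0 (fun x hx => hA x (by rw [pow_succ]; omega))
    have ih2 := low hp0 hp1 n (sh n A) (sm n m) (fun x => h0 _) (fun x hx hm => by
      show x + 2 ^ n ∈ A
      rw [add_comm]
      exact hA _ (by rw [pow_succ]; omega) hm)
    obtain ⟨a0, a1⟩ := F_mem hp0.le hp1 n A
    obtain ⟨b0, b1⟩ := F_mem hp0.le hp1 n (sh n A)
    have E1 := En_nonneg hp0 n m h0
    have E2 := En_nonneg hp0 n (sm n m) (fun x => h0 _)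
    have h := step_low (a := p * F p n A) (b := p * F p n (sh n A)) (e := En p n m / p)
      (f := En p n (sm n m) / p) (x := ms n m) (y := ms n (sm n m)) (by positivity)
      (mul_le_one₀ hp1 a0 a1) (by positivity) (mul_le_one₀ hp1 b0 b1) (by positivity)
      (by positivity) (ms_nonneg h0) (ms_nonneg (fun x => h0 _))
      (by
        have : p * F p n A * (En p n m / p) = F p n A * En p n m := by field_simp
        rw [this]; exact ih1)
      (by
        have : p * F p n (sh n A) * (En p n (sm n m) / p) = F p n (sh n A) * En p n (sm n m) := by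
          field_simp
        rw [this]; exact ih2)
    rw [ms_succ]
    simp only [F, En]
    refine h.trans (le_of_eq ?_)
    ring

/-! ### Flows -/

open Classical in
/-- the conductance from above the root -/
noncomputable def gg (p : ℝ) : ℕ → Set ℕ → ℝ
  | 0, A => if 0 ∈ A then p / (1 - p) else 0
  | n + 1, A => p * (gg p n A + gg p n (sh n A)) / (1 + (1 - p) * (gg p n A + gg p n (sh n A)))

theorem gg_nonneg {p : ℝ} (hp0 : 0 < p) (hp1 : p < 1) : ∀ (n : ℕ) (A : Set ℕ), 0 ≤ gg p n A
  | 0, A => by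
    simp only [gg]
    have : 0 < 1 - p := by linarith
    split_ifs
    · positivity
    · exact le_rfl
  | n + 1, A => by
    have h1 := gg_nonneg hp0 hp1 n A
    have h2 := gg_nonneg hp0 hp1 n (sh n A)
    have : 0 < 1 - p := by linarith
    simp only [gg]
    positivity

theorem flow {p : ℝ} (hp0 : 0 < p) (hp1 : p < 1) : ∀ (n : ℕ) (A : Set ℕ), ∃ m : ℕ → ℝ,
    (∀ x, 0 ≤ m x) ∧ (∀ x, x < 2 ^ n → m x ≠ 0 → x ∈ A) ∧ ms n m = gg p n A ∧
    En p n m ≤ p * (gg p n A ^ 2 + gg p n A)
  | 0, A => by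
    have h1 : 0 < 1 - p := by linarith
    by_cases hA : 0 ∈ A
    · refine ⟨fun _ => p / (1 - p), fun _ => by positivity, fun x hx _ => ?_, ?_, ?_⟩
      · have : x = 0 := by
          rw [pow_zero] at hx; omega
        rw [this]; exact hA
      · simp only [ms, gg]
        rw [if_pos hA]; simp
      · simp only [En, gg]
        rw [if_pos hA]
        apply le_of_eq
        field_simp
        ring
    · refine ⟨fun _ => 0, fun _ => le_rfl, fun x hx h => absurd rfl h, ?_, ?_⟩
      · simp only [ms, gg]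
        rw [if_neg hA]; simp
      · simp only [En, gg]
        rw [if_neg hA]; simp
  | n + 1, A => by
    obtain ⟨m, a1, a2, a3, a4⟩ := flow hp0 hp1 n A
    obtain ⟨m', b1, b2, b3, b4⟩ := flow hp0 hp1 n (sh n A)
    have h1 : 0 < 1 - p := by linarith
    have g1 := gg_nonneg hp0 hp1 n A
    have g2 := gg_nonneg hp0 hp1 n (sh n A)
    set g := gg p n A with hg
    set g' := gg p n (sh n A) with hg'
    set G := g + g' with hG
    have hG0 : 0 ≤ G := by positivity
    set l := p / (1 + (1 - p) * G) with hl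
    have hl0 : 0 < l := by positivity
    have hgg : gg p (n + 1) A = l * G := by
      simp only [gg]
      rw [← hg, ← hg', ← hG, hl]; ring
    set M : ℕ → ℝ := fun x => if x < 2 ^ n then l * m x else l * m' (x - 2 ^ n) with hM
    have c1 : ∀ x, x < 2 ^ n → M x = (fun x => l * m x) x := by
      intro x hx
      simp only [hM]
      rw [if_pos hx]
    have c2 : ∀ x, x < 2 ^ n → sm n M x = (fun x => l * m' x) x := by
      intro x _
      simp only [sm, hM]
      rw [if_neg (by omega), Nat.add_sub_cancel_left]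
    refine ⟨M, ?_, ?_, ?_, ?_⟩
    · intro x
      simp only [hM]
      split_ifs
      · exact mul_nonneg hl0.le (a1 x)
      · exact mul_nonneg hl0.le (b1 _)
    · intro x hx hm
      by_cases hx2 : x < 2 ^ n
      · apply a2 x hx2
        intro h0
        apply hm
        simp only [hM]
        rw [if_pos hx2, h0, mul_zero]
      · have h3 : x - 2 ^ n ∈ sh n A := by
          apply b2 _ (by rw [pow_succ] at hx; omega)
          intro h0
          apply hm
          simp only [hM]
          rw [if_neg hx2, h0, mul_zero]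
        have h4 : x - 2 ^ n + 2 ^ n ∈ A := h3
        rwa [Nat.sub_add_cancel (by omega)] at h4
    · rw [ms_succ, ms_congr c1, ms_congr c2, ms_smul, ms_smul, a3, b3, hgg]
      ring
    · have e1 : En p (n + 1) M = (l ^ 2 * En p n m + l ^ 2 * En p n m') / p +
          2 * ((l * g) * (l * g')) := by
        simp only [En]
        rw [En_congr n M _ c1, En_congr n (sm n M) _ c2, ms_congr c1, ms_congr c2, En_smul, En_smul,
          ms_smul, ms_smul, a3, b3]
      rw [e1, hgg]
      have h5 : (l ^ 2 * En p n m + l ^ 2 * En p n m') / p ≤ l ^ 2 * (g ^ 2 + g + (g' ^ 2 + g')) := by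
        rw [div_le_iff₀ hp0]
        have := mul_le_mul_of_nonneg_left (add_le_add a4 b4) (sq_nonneg l)
        nlinarith [this]
      have h6 : l * (1 + (1 - p) * G) = p := by
        rw [hl]; field_simp
      have h7 : l ^ 2 * (G ^ 2 + G) = p * ((l * G) ^ 2 + l * G) := by
        have : p * ((l * G) ^ 2 + l * G) = l ^ 2 * (p * G ^ 2) + (l * (1 + (1 - p) * G)) * (l * G) := by
          rw [h6]; ring
        rw [this]; ring
      rw [← h7]
      have h8 : l ^ 2 * (g ^ 2 + g + (g' ^ 2 + g')) + 2 * ((l * g) * (l * g')) = l ^ 2 * (G ^ 2 + G) := by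
        rw [hG]; ring
      linarith

/-- the analytic inequality -/
theorem exp_ineq {p G : ℝ} (hp0 : 0 < p) (hp1 : p < 1) (hG : 0 ≤ G) :
    Real.exp (-(2 * (p * G / (1 + (1 - p) * G)))) ≤ 1 - p * (1 - Real.exp (-(2 * G))) := by
  have hq : 0 < 1 - p := by linarith
  set f : ℝ → ℝ := fun t => (1 - p + p * Real.exp (-(2 * t))) *
    Real.exp (2 * (p * t / (1 + (1 - p) * t))) with hf
  have hd : ∀ t : ℝ, 0 ≤ t → HasDerivAt f
      (p * (Real.exp (-(2 * t)) * (-(2 * 1))) * Real.exp (2 * (p * t / (1 + (1 - p) * t))) +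
        (1 - p + p * Real.exp (-(2 * t))) * (Real.exp (2 * (p * t / (1 + (1 - p) * t))) *
          (2 * ((p * 1 * (1 + (1 - p) * t) - p * t * ((1 - p) * 1)) / (1 + (1 - p) * t) ^ 2)))) t := by
    intro t ht
    have hD : 1 + (1 - p) * t ≠ 0 := by positivity
    have h1 : HasDerivAt (fun t : ℝ => Real.exp (-(2 * t))) (Real.exp (-(2 * t)) * (-(2 * 1))) t :=
      (((hasDerivAt_id t).const_mul 2).neg).exp
    have h2 : HasDerivAt (fun t : ℝ => 1 - p + p * Real.exp (-(2 * t)))
        (p * (Real.exp (-(2 * t)) * (-(2 * 1)))) t := (h1.const_mul p).const_add (1 - p)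
    have h3 : HasDerivAt (fun t : ℝ => 1 + (1 - p) * t) ((1 - p) * 1) t :=
      ((hasDerivAt_id t).const_mul (1 - p)).const_add 1
    have h4 : HasDerivAt (fun t : ℝ => p * t) (p * 1) t := (hasDerivAt_id t).const_mul p
    have h5 := ((h4.div h3 hD).const_mul 2).exp
    exact h2.mul h5
  have hmono : MonotoneOn f (Set.Ici 0) := by
    apply monotoneOn_of_deriv_nonneg (convex_Ici 0)
    · intro t ht
      exact (hd t ht).continuousAt.continuousWithinAt
    · intro t ht
      rw [interior_Ici] at ht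
      exact (hd t ht.le).differentiableAt.differentiableWithinAt
    · intro t ht
      rw [interior_Ici] at ht
      have ht0 : 0 ≤ t := ht.le
      rw [(hd t ht0).deriv]
      set E := Real.exp (2 * (p * t / (1 + (1 - p) * t))) with hE
      have hE0 : 0 < E := Real.exp_pos _
      set u := Real.exp (-(2 * t)) with hu
      have hu0 : 0 < u := Real.exp_pos _
      have hD : 0 < 1 + (1 - p) * t := by positivity
      have h6 : 1 + 2 * t + 2 * t ^ 2 ≤ Real.exp (2 * t) := by
        have := Real.quadratic_le_exp_of_nonneg (x := 2 * t) (by positivity)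
        nlinarith
      have h7 : u * Real.exp (2 * t) = 1 := by
        rw [hu, ← Real.exp_add]; simp
      -- `u * D^2 ≤ 1 - p + p u`
      have h8 : u * (1 + (1 - p) * t) ^ 2 ≤ 1 - p + p * u := by
        have h9 : (1 + (1 - p) * t) ^ 2 ≤ (1 - p) * Real.exp (2 * t) + p := by
          have h10 := mul_le_mul_of_nonneg_left h6 hq.le
          have h11 : (1 - p) * ((1 - p) * t ^ 2) ≤ (1 - p) * (2 * t ^ 2) := by
            apply mul_le_mul_of_nonneg_left _ hq.le
            nlinarith [sq_nonneg t]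
          nlinarith
        have h12 := mul_le_mul_of_nonneg_left h9 hu0.le
        have h13 : u * ((1 - p) * Real.exp (2 * t) + p) = 1 - p + p * u := by
          calc u * ((1 - p) * Real.exp (2 * t) + p) = (1 - p) * (u * Real.exp (2 * t)) + p * u := by
                ring
            _ = _ := by rw [h7]; ring
        linarith
      have h14 : p * (u * (-(2 * 1))) * E + (1 - p + p * u) * (E *
          (2 * ((p * 1 * (1 + (1 - p) * t) - p * t * ((1 - p) * 1)) / (1 + (1 - p) * t) ^ 2))) =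
          2 * p * E * ((1 - p + p * u) / (1 + (1 - p) * t) ^ 2 - u) := by
        field_simp
        ring
      rw [h14]
      apply mul_nonneg (by positivity)
      rw [sub_nonneg, le_div_iff₀ (by positivity)]
      exact h8
  have h0 : f 0 = 1 := by
    simp [hf]
  have h1 : f 0 ≤ f G := hmono (Set.mem_Ici.mpr le_rfl) (Set.mem_Ici.mpr hG) hG
  rw [h0] at h1
  have h2 : f G = (1 - p * (1 - Real.exp (-(2 * G)))) *
    Real.exp (2 * (p * G / (1 + (1 - p) * G))) := by
    simp only [hf]; ring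
  rw [h2] at h1
  rw [Real.exp_neg, inv_le_iff_one_le_mul₀ (Real.exp_pos _)]
  linarith

theorem up {p : ℝ} (hp0 : 0 < p) (hp1 : p < 1) : ∀ (n : ℕ) (A : Set ℕ),
    Real.exp (-(2 * gg p n A)) ≤ 1 - p * F p n A
  | 0, A => by
    have hq : 0 < 1 - p := by linarith
    simp only [gg, F]
    by_cases hA : 0 ∈ A
    · rw [if_pos hA, if_pos hA, Real.exp_neg]
      have h1 : 2 * (p / (1 - p)) + 1 ≤ Real.exp (2 * (p / (1 - p))) := Real.add_one_le_exp _
      have h2 : 1 / (1 - p) ≤ 2 * (p / (1 - p)) + 1 := by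
        rw [div_le_iff₀ hq]
        have : (2 * (p / (1 - p)) + 1) * (1 - p) = 2 * p + (1 - p) := by field_simp
        rw [this]; linarith
      have h3 := inv_anti₀ (by positivity) (h2.trans h1)
      refine h3.trans (le_of_eq ?_)
      rw [one_div, inv_inv]; ring
    · rw [if_neg hA, if_neg hA]
      simp
  | n + 1, A => by
    have h1 := up hp0 hp1 n A
    have h2 := up hp0 hp1 n (sh n A)
    have g1 := gg_nonneg hp0 hp1 n A
    have g2 := gg_nonneg hp0 hp1 n (sh n A)
    have h3 := exp_ineq hp0 hp1 (add_nonneg g1 g2)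
    simp only [gg, F]
    refine h3.trans ?_
    have h4 : Real.exp (-(2 * (gg p n A + gg p n (sh n A)))) =
        Real.exp (-(2 * gg p n A)) * Real.exp (-(2 * gg p n (sh n A))) := by
      rw [← Real.exp_add]; ring_nf
    have h5 : Real.exp (-(2 * gg p n A)) * Real.exp (-(2 * gg p n (sh n A))) ≤
        (1 - p * F p n A) * (1 - p * F p n (sh n A)) :=
      mul_le_mul h1 h2 (Real.exp_pos _).le ((Real.exp_pos _).le.trans h1)
    rw [← h4] at h5
    nlinarith

/-- the hitting probability in terms of the flow -/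
theorem F_le_gg {p : ℝ} (hp0 : 0 < p) (hp1 : p < 1) (n : ℕ) (A : Set ℕ) :
    p * F p n A * (1 + gg p n A) ≤ 4 * gg p n A := by
  have h := up hp0 hp1 n A
  have hg := gg_nonneg hp0 hp1 n A
  set g := gg p n A
  obtain ⟨f0, f1⟩ := F_mem hp0.le hp1.le n A
  have h1 : -(2 * g) + 1 ≤ Real.exp (-(2 * g)) := Real.add_one_le_exp _
  have h2 : p * F p n A ≤ 2 * g := by linarith
  have h3 : p * F p n A ≤ 1 := by nlinarith
  have h4 : 0 ≤ p * F p n A := by positivity
  rcases le_total g 1 with h5 | h5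
  · nlinarith
  · nlinarith

end V11324.KW
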