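import Pool.Agent.V11324.KW.Main

/-!
The probability that independent exploration paths have a common visited boundary point in a set.
-/

set_option autoImplicit false
set_option maxHeartbeats 400000

namespace V11324.KW

open Finset MeasureTheory ProbabilityTheory Filter Topology H389KP

section expmin

variable {Ω : Type*} [MeasurableSpace Ω] {P : Measure Ω} [IsProbabilityMeasure P]

theorem min_quad (y : ℝ) : y - y ^ 2 / 4 ≤ min 1 y := by
  apply le_min
  · nlinarith [sq_nonneg (y / 2 - 1)]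
  · nlinarith [sq_nonneg y]

theorem exp_min {X : ℕ → Ω → ℝ} (hm : ∀ n, Measurable (X n))
    (h01 : ∀ n ω, 0 ≤ X n ω ∧ X n ω ≤ 1) (hind : iIndepFun X P) (N : ℕ) :
    min 1 (∑ n ∈ range N, ∫ ω, X n ω ∂P) ≤ 2 * ∫ ω, min 1 (∑ n ∈ range N, X n ω) ∂P := by
  set Y : Ω → ℝ := fun ω => ∑ n ∈ range N, X n ω with hY
  set m : ℝ := ∑ n ∈ range N, ∫ ω, X n ω ∂P with hmdef
  have hmY : Measurable Y := Finset.measurable_sum _ (fun i _ => hm i)
  have hY0 : ∀ ω, 0 ≤ Y ω := fun ω => Finset.sum_nonneg fun i _ => (h01 i ω).1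
  have hYN : ∀ ω, Y ω ≤ N := fun ω => by
    have := Finset.sum_le_sum (fun i (_ : i ∈ range N) => (h01 i ω).2)
    simpa using this
  have hYi : Integrable Y P := Integrable.of_bound hmY.aestronglyMeasurable N
    (ae_of_all _ fun ω => by rw [Real.norm_of_nonneg (hY0 ω)]; exact hYN ω)
  have hY2i : Integrable (fun ω => Y ω ^ 2) P :=
    Integrable.of_bound (hmY.pow_const 2).aestronglyMeasurable ((N : ℝ) ^ 2)
    (ae_of_all _ fun ω => by
      rw [Real.norm_of_nonneg (by positivity)]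
      exact pow_le_pow_left₀ (hY0 ω) (hYN ω) 2)
  have hEY : ∫ ω, Y ω ∂P = m := by
    rw [hmdef, hY]
    exact integral_finset_sum _ (fun i _ => int01 (hm i) (h01 i))
  have hX2 : ∀ n, MemLp (X n) 2 P := fun n =>
    MemLp.of_bound (hm n).aestronglyMeasurable 1
      (ae_of_all _ fun ω => by rw [Real.norm_of_nonneg (h01 n ω).1]; exact (h01 n ω).2)
  have hvar : Var[Y; P] ≤ m := by
    have e : Y = ∑ n ∈ range N, X n := by
      ext ω
      simp [hY]
    rw [e, IndepFun.variance_sum (fun i _ => hX2 i)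
      (fun i _ j _ hij => hind.indepFun hij)]
    apply Finset.sum_le_sum
    intro i _
    rw [variance_eq_sub (hX2 i)]
    have h2 : ∫ ω, (X i ^ 2) ω ∂P ≤ ∫ ω, X i ω ∂P := by
      apply integral_mono _ (int01 (hm i) (h01 i))
      · intro ω
        have := h01 i ω
        simp only [Pi.pow_apply]
        nlinarith
      · exact Integrable.of_bound ((hm i).pow_const 2).aestronglyMeasurable 1
          (ae_of_all _ fun ω => by
            have := h01 i ω
            simp only [Pi.pow_apply]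
            rw [Real.norm_of_nonneg (by positivity)]
            exact pow_le_one₀ this.1 this.2)
    nlinarith [sq_nonneg (∫ ω, X i ω ∂P)]
  have hm0 : 0 ≤ m := by rw [← hEY]; exact integral_nonneg hY0
  have hsq : ∫ ω, Y ω ^ 2 ∂P ≤ m + m ^ 2 := by
    have hYm : MemLp Y 2 P := MemLp.of_bound hmY.aestronglyMeasurable N
      (ae_of_all _ fun ω => by rw [Real.norm_of_nonneg (hY0 ω)]; exact hYN ω)
    have h1 := variance_eq_sub hYm
    rw [hEY] at h1
    have h2 : ∫ ω, (Y ^ 2) ω ∂P = ∫ ω, Y ω ^ 2 ∂P := rfl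
    rw [h2] at h1
    linarith
  have hmin : Integrable (fun ω => min 1 (Y ω)) P :=
    Integrable.of_bound (measurable_const.min hmY).aestronglyMeasurable 1
      (ae_of_all _ fun ω => by
        rw [Real.norm_of_nonneg (le_min zero_le_one (hY0 ω))]; exact min_le_left _ _)
  rcases le_or_gt m 1 with h1 | h1
  · have h2 : ∫ ω, (Y ω - Y ω ^ 2 / 4) ∂P ≤ ∫ ω, min 1 (Y ω) ∂P :=
      integral_mono (hYi.sub (hY2i.div_const 4)) hmin (fun ω => min_quad _)
    rw [integral_sub hYi (hY2i.div_const 4), integral_div, hEY] at h2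
    have h3 : min 1 m = m := min_eq_right h1
    rw [h3]
    nlinarith
  · have h2 : ∫ ω, (Y ω / m - (Y ω / m) ^ 2 / 4) ∂P ≤ ∫ ω, min 1 (Y ω) ∂P := by
      apply integral_mono _ hmin
      · intro ω
        refine (min_quad _).trans ?_
        apply min_le_min_left
        exact div_le_self (hY0 ω) h1.le
      · have : (fun ω => Y ω / m - (Y ω / m) ^ 2 / 4) =
            fun ω => Y ω / m - Y ω ^ 2 / (m ^ 2 * 4) := by
          ext ω; rw [div_pow, div_div]
        rw [this]
        exact (hYi.div_const m).sub (hY2i.div_const _)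
    have h3 : ∫ ω, (Y ω / m - (Y ω / m) ^ 2 / 4) ∂P =
        m / m - (∫ ω, Y ω ^ 2 ∂P) / (m ^ 2 * 4) := by
      have : (fun ω => Y ω / m - (Y ω / m) ^ 2 / 4) =
            fun ω => Y ω / m - Y ω ^ 2 / (m ^ 2 * 4) := by
          ext ω; rw [div_pow, div_div]
      rw [this, integral_sub (hYi.div_const m) (hY2i.div_const _), integral_div, integral_div, hEY]
    rw [h3, div_self (by linarith)] at h2
    have h4 : (∫ ω, Y ω ^ 2 ∂P) / (m ^ 2 * 4) ≤ 1 / 2 := by
      rw [div_le_iff₀ (by positivity)]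
      nlinarith
    have h5 : min 1 m ≤ 1 := min_le_left _ _
    linarith

theorem min_exp {X : ℕ → Ω → ℝ} (hm : ∀ n, Measurable (X n))
    (h01 : ∀ n ω, 0 ≤ X n ω ∧ X n ω ≤ 1) (N : ℕ) :
    ∫ ω, min 1 (∑ n ∈ range N, X n ω) ∂P ≤ min 1 (∑ n ∈ range N, ∫ ω, X n ω ∂P) := by
  have hmY : Measurable (fun ω => ∑ n ∈ range N, X n ω) := Finset.measurable_sum _ (fun i _ => hm i)
  have hmin : Integrable (fun ω => min 1 (∑ n ∈ range N, X n ω)) P :=
    Integrable.of_bound (measurable_const.min hmY).aestronglyMeasurable 1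
      (ae_of_all _ fun ω => by
        rw [Real.norm_of_nonneg (le_min zero_le_one
          (Finset.sum_nonneg fun i _ => (h01 i ω).1))]; exact min_le_left _ _)
  apply le_min
  · have := integral_mono hmin (integrable_const (1 : ℝ)) (fun ω => min_le_left _ _)
    simpa using this
  · rw [← integral_finset_sum _ (fun i _ => int01 (hm i) (h01 i))]
    exact integral_mono hmin (integrable_finset_sum _ (fun i _ => int01 (hm i) (h01 i)))
      (fun ω => min_le_right _ _)

end expmin

/-- the comparison quantity -/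
noncomputable def TT (k N : ℕ) (S : Set ℤ) : ℝ := min 1 (∑ n ∈ range N, F (pk k) n (At S n))

theorem TT_nonneg (k N : ℕ) (S : Set ℤ) : 0 ≤ TT k N S :=
  le_min zero_le_one (Finset.sum_nonneg fun n _ => (F_mem (pk_pos k).le (pk_le k) n _).1)

theorem TT_le_one (k N : ℕ) (S : Set ℤ) : TT k N S ≤ 1 := min_le_left _ _

open Classical in
theorem TT_zero {N : ℕ} {S : Set ℤ} (hS : ∀ x ∈ S, 1 ≤ x ∧ x < 2 ^ N) :
    TT 0 N S = if S.Nonempty then 1 else 0 := by
  classical
  unfold TT
  rw [pk_zero]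
  simp only [F_one]
  split_ifs with h
  · obtain ⟨z, hz⟩ := h
    obtain ⟨hz1, hz2⟩ := hS z hz
    apply min_eq_left
    have hpos : z.toNat ≠ 0 := by omega
    set n := Nat.log 2 z.toNat with hn
    have h4 : 2 ^ n ≤ z.toNat := Nat.pow_log_le_self 2 hpos
    have h5 : z.toNat < 2 ^ (n + 1) := Nat.lt_pow_succ_log_self (by norm_num) _
    have h8 : n < N := by
      by_contra hcon
      push Not at hcon
      have h6 : 2 ^ N ≤ 2 ^ n := Nat.pow_le_pow_right (by norm_num) hcon
      have h7 : ((2 ^ N : ℕ) : ℤ) ≤ (z.toNat : ℤ) := by exact_mod_cast h6.trans h4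
      push_cast at h7
      omega
    have h10 := Finset.single_le_sum (f := fun n => F 1 n (At S n))
      (fun i _ => (F_mem zero_le_one le_rfl i (At S i)).1) (Finset.mem_range.2 h8)
    simp only [F_one] at h10
    rw [if_pos] at h10
    · exact h10
    · refine ⟨z.toNat - 2 ^ n, by rw [pow_succ] at h5; omega, ?_⟩
      show ((2 ^ n + (z.toNat - 2 ^ n) : ℕ) : ℤ) ∈ S
      rw [Nat.add_sub_cancel' h4, Int.toNat_of_nonneg (by omega)]
      exact hz
  · rw [Finset.sum_eq_zero]
    · norm_num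
    · intro n _
      rw [if_neg]
      rintro ⟨x, _, hx⟩
      exact h ⟨_, hx⟩

/-- the percolation and one level -/
theorem TT_Q (k j N : ℕ) (S : Set ℤ) :
    TT (k + j) N S ≤ 2 * ∫ q, TT j N (S ∩ Q q) ∂(nu k) ∧
    ∫ q, TT j N (S ∩ Q q) ∂(nu k) ≤ TT (k + j) N S ∧ Measurable (fun q => TT j N (S ∩ Q q)) := by
  set X : ∀ n, (∀ n, Ix n) → ℝ := fun n q => F (pk j) n (At S n ∩ st n (q n)) with hX
  have e1 : ∀ q n, F (pk j) n (At (S ∩ Q q) n) = X n q := by
    intro q n
    simp only [hX]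
    apply F_congr
    intro x hx
    constructor
    · rintro ⟨h1, h2⟩
      exact ⟨h1, (mem_Q hx).1 h2⟩
    · rintro ⟨h1, h2⟩
      exact ⟨h1, (mem_Q hx).2 h2⟩
  have hm : ∀ n, Measurable (X n) := fun n =>
    (meas_Ix (fun i => F (pk j) n (At S n ∩ st n i))).comp (measurable_pi_apply n)
  have h01 : ∀ n q, 0 ≤ X n q ∧ X n q ≤ 1 := fun n q => F_mem (pk_pos j).le (pk_le j) n _
  have hind : iIndepFun X (nu k) := by
    unfold nu
    exact iIndepFun_infinitePi (X := fun n i => F (pk j) n (At S n ∩ st n i)) (fun n => meas_Ix _)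
  have hint : ∀ n, ∫ q, X n q ∂(nu k) = F (pk (k + j)) n (At S n) := by
    intro n
    have h1 : ∫ q, X n q ∂(nu k) = ∫ i, F (pk j) n (At S n ∩ st n i) ∂(muk k n) := by
      have h2 := measurePreserving_eval_infinitePi (fun n => muk k n) n
      rw [← h2.map_eq, integral_map h2.measurable.aemeasurable (meas_Ix _).aestronglyMeasurable]
      rfl
    rw [h1, muk_int, F_comp, pk_add]
  have e2 : (fun q => TT j N (S ∩ Q q)) = fun q => min 1 (∑ n ∈ range N, X n q) := by
    ext q
    unfold TT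
    simp only [e1]
  rw [e2]
  have h1 := exp_min hm h01 hind N
  have h2 := min_exp (P := nu k) hm h01 N
  simp only [hint] at h1 h2
  exact ⟨h1, h2, measurable_const.min (Finset.measurable_sum _ (fun i _ => hm i))⟩

/-- the hitting probability of the percolation -/
theorem hitQ (k N : ℕ) (S : Set ℤ) (hS : ∀ x ∈ S, 1 ≤ x ∧ x < 2 ^ N) :
    ENNReal.ofReal (TT k N S) ≤ 2 * nu k {q | ∃ x ∈ S, x ∈ Q q} ∧
    nu k {q | ∃ x ∈ S, x ∈ Q q} ≤ ENNReal.ofReal (TT k N S) := by
  classical
  have hmeas : MeasurableSet {q : ∀ n, Ix n | ∃ x ∈ S, x ∈ Q q} := by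
    have e : {q : ∀ n, Ix n | ∃ x ∈ S, x ∈ Q q} = ⋃ x : ℤ, ⋃ _ : x ∈ S, {q | x ∈ Q q} := by
      ext q
      simp
    rw [e]
    exact MeasurableSet.iUnion fun x => MeasurableSet.iUnion fun _ => Q_meas x
  have e : ∀ q : ∀ n, Ix n, TT 0 N (S ∩ Q q) = {q : ∀ n, Ix n | ∃ x ∈ S, x ∈ Q q}.indicator 1 q := by
    intro q
    rw [TT_zero (fun x hx => hS x hx.1)]
    by_cases h : (S ∩ Q q).Nonempty
    · rw [if_pos h, Set.indicator_of_mem]
      · rfl
      · obtain ⟨x, h1, h2⟩ := h
        exact ⟨x, h1, h2⟩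
    · rw [if_neg h, Set.indicator_of_notMem]
      rintro ⟨x, h1, h2⟩
      exact h ⟨x, h1, h2⟩
  obtain ⟨h1, h2, -⟩ := TT_Q k 0 N S
  simp only [e, add_zero] at h1 h2
  rw [integral_indicator_one hmeas] at h1 h2
  constructor
  · refine (ENNReal.ofReal_le_ofReal h1).trans ?_
    rw [ENNReal.ofReal_mul (by norm_num), measureReal_def,
      ENNReal.ofReal_toReal (measure_ne_top _ _)]
    norm_num
  · have := ENNReal.ofReal_le_ofReal h2
    rwa [measureReal_def, ENNReal.ofReal_toReal (measure_ne_top _ _)] at this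

end V11324.KW
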