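import Pool.Agent.V11324.KW.Hit

/-!
Comparison of the capacity of a set with the percolation of its dyadic pieces.
-/

set_option autoImplicit false
set_option maxHeartbeats 400000

namespace V11324.KW

open Finset MeasureTheory ProbabilityTheory Filter Topology H389KP

theorem ker_ge_one (k : ℕ) {x y : ℤ} (hx : 1 ≤ x) (hy : 1 ≤ y) : 1 ≤ kernk k x y := by
  unfold kernk
  apply Real.one_le_rpow _ (by positivity)
  have h0 : (0 : ℤ) ≤ |x - y| := abs_nonneg _
  have h1 : |x - y| + 1 ≤ max x y := by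
    rcases le_total x y with h | h
    · rw [abs_of_nonpos (by omega), max_eq_right h]; omega
    · rw [abs_of_nonneg (by omega), max_eq_left h]; omega
  have h2 : (((|x - y| : ℤ) : ℝ) + 1) ≤ ((max x y : ℤ) : ℝ) := by exact_mod_cast h1
  have h3 : (0 : ℝ) < ((|x - y| : ℤ) : ℝ) + 1 := by
    have : (0 : ℝ) ≤ ((|x - y| : ℤ) : ℝ) := by exact_mod_cast h0
    linarith
  rw [le_div_iff₀ h3, one_mul]
  exact h2

theorem kernk_symm (k : ℕ) (x y : ℤ) : kernk k x y = kernk k y x := by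
  unfold kernk
  rw [max_comm, abs_sub_comm]

theorem ker_far (k : ℕ) {x y : ℤ} (hx : 1 ≤ x) (h : 2 * x ≤ y) :
    kernk k x y ≤ (2 : ℝ) ^ ((k : ℝ) / 3) := by
  unfold kernk
  have h1 : max x y = y := max_eq_right (by omega)
  have h2 : |x - y| = y - x := by rw [abs_of_nonpos (by omega)]; ring
  rw [h1, h2]
  have h3 : (1 : ℝ) ≤ x := by exact_mod_cast hx
  have h4 : 2 * (x : ℝ) ≤ y := by exact_mod_cast h
  apply Real.rpow_le_rpow _ _ (by positivity)
  · push_cast
    apply div_nonneg <;> linarith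
  · push_cast
    rw [div_le_iff₀ (by linarith)]
    linarith

/-- the energy -/
noncomputable def Ee (k : ℕ) (T : Finset ℤ) (m : ℤ → ℝ) : ℝ :=
  ∑ x ∈ T, ∑ y ∈ T, m x * m y * kernk k x y

theorem Ee_ge {k : ℕ} {T : Finset ℤ} {m : ℤ → ℝ} (hT : ∀ x ∈ T, 1 ≤ x ∧ 0 ≤ m x) :
    (∑ x ∈ T, m x) ^ 2 ≤ Ee k T m := by
  unfold Ee
  rw [sq, Finset.sum_mul_sum]
  apply Finset.sum_le_sum
  intro x hx
  apply Finset.sum_le_sum
  intro y hy
  have h1 := ker_ge_one k (hT x hx).1 (hT y hy).1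
  have h2 := mul_nonneg (hT x hx).2 (hT y hy).2
  nlinarith

theorem Ee_scale (k : ℕ) (T : Finset ℤ) (m : ℤ → ℝ) (c : ℝ) :
    Ee k T (fun x => m x / c) = Ee k T m / c ^ 2 := by
  unfold Ee
  rw [Finset.sum_div]
  apply Finset.sum_congr rfl
  intro x _
  rw [Finset.sum_div]
  apply Finset.sum_congr rfl
  intro y _
  ring

theorem capk_bdd {k : ℕ} {S : Set ℤ} (hS : ∀ x ∈ S, 1 ≤ x) :
    BddAbove {r | ∃ (T : Finset ℤ) (m : ℤ → ℝ), (∀ x ∈ T, x ∈ S ∧ 0 ≤ m x) ∧ ∑ x ∈ T, m x = 1 ∧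
      r = 1 / ∑ x ∈ T, ∑ y ∈ T, m x * m y * kernk k x y} := by
  refine ⟨1, ?_⟩
  rintro r ⟨T, m, h1, h2, rfl⟩
  have h3 := Ee_ge (k := k) (T := T) (m := m) (fun x hx => ⟨hS x (h1 x hx).1, (h1 x hx).2⟩)
  rw [h2] at h3
  unfold Ee at h3
  rw [div_le_iff₀ (by linarith)]
  linarith

theorem capk_ge {k : ℕ} {S : Set ℤ} (hS : ∀ x ∈ S, 1 ≤ x) {T : Finset ℤ} {m : ℤ → ℝ}
    (h1 : ∀ x ∈ T, x ∈ S ∧ 0 ≤ m x) {B : ℝ} (hM : 0 < ∑ x ∈ T, m x) (hB : Ee k T m ≤ B) :
    (∑ x ∈ T, m x) ^ 2 / B ≤ capk k S := by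
  set M := ∑ x ∈ T, m x with hMd
  have hE : M ^ 2 ≤ Ee k T m := Ee_ge (fun x hx => ⟨hS x (h1 x hx).1, (h1 x hx).2⟩)
  have hM2 : 0 < M ^ 2 := by positivity
  have h2 : 1 / Ee k T (fun x => m x / M) ≤ capk k S := by
    apply le_csSup (capk_bdd hS)
    refine ⟨T, fun x => m x / M, fun x hx => ⟨(h1 x hx).1, div_nonneg (h1 x hx).2 hM.le⟩, ?_, rfl⟩
    rw [← Finset.sum_div, ← hMd]
    exact div_self hM.ne'
  rw [Ee_scale, one_div_div] at h2
  refine le_trans ?_ h2
  apply div_le_div_of_nonneg_left hM2.le (by linarith) hB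

theorem capk_nonneg' {k : ℕ} {S : Set ℤ} (hS : ∀ x ∈ S, 1 ≤ x) : 0 ≤ capk k S := by
  apply Real.sSup_nonneg
  rintro r ⟨T, m, h1, h2, rfl⟩
  have h3 := Ee_ge (k := k) (T := T) (m := m) (fun x hx => ⟨hS x (h1 x hx).1, (h1 x hx).2⟩)
  unfold Ee at h3
  apply div_nonneg zero_le_one
  exact le_trans (sq_nonneg _) h3

theorem piece_cs {k n : ℕ} {S : Set ℤ} {T : Finset ℤ} {m : ℤ → ℝ}
    (h1 : ∀ x ∈ T, x ∈ TH868.CT.pc S n ∧ 0 ≤ m x) :
    (∑ x ∈ T, m x) ^ 2 ≤ F (pk k) n (At S n) * Ee k T m := by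
  set M := ∑ x ∈ T, m x with hMd
  have hM0 : 0 ≤ M := Finset.sum_nonneg fun x hx => (h1 x hx).2
  have hE : M ^ 2 ≤ Ee k T m := Ee_ge (fun x hx => ⟨TH868.CT.pc_pos x (h1 x hx).1, (h1 x hx).2⟩)
  rcases hM0.eq_or_lt with h0 | h0
  · rw [← h0]
    have := (F_mem (pk_pos k).le (pk_le k) n (At S n)).1
    rw [← h0] at hE
    have h2 : 0 ≤ Ee k T m := by nlinarith
    have := mul_nonneg this h2
    nlinarith
  · have h2 := elem k (S := S) (n := n) (T := T) (m := fun x => m x / M)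
      (fun x hx => ⟨(h1 x hx).1, div_nonneg (h1 x hx).2 hM0⟩)
      (by rw [← Finset.sum_div]; exact div_self h0.ne')
    have h3 : (1 : ℝ) / Ee k T (fun x => m x / M) ≤ F (pk k) n (At S n) := h2
    rw [Ee_scale, one_div_div, div_le_iff₀ (by nlinarith)] at h3
    exact h3

theorem log_piece {N : ℕ} {z : ℤ} (h1 : 1 ≤ z) (h2 : z < 2 ^ N) :
    Nat.log 2 z.toNat < N ∧ (2 : ℤ) ^ (Nat.log 2 z.toNat) ≤ z ∧
      z < 2 ^ (Nat.log 2 z.toNat + 1) := by
  have hpos : z.toNat ≠ 0 := by omega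
  have hz : ((z.toNat : ℕ) : ℤ) = z := Int.toNat_of_nonneg (by omega)
  set n := Nat.log 2 z.toNat with hn
  have h4 : 2 ^ n ≤ z.toNat := Nat.pow_log_le_self 2 hpos
  have h5 : z.toNat < 2 ^ (n + 1) := Nat.lt_pow_succ_log_self (by norm_num) _
  have h6 : (2 : ℤ) ^ n ≤ z := by
    have : ((2 ^ n : ℕ) : ℤ) ≤ (z.toNat : ℤ) := by exact_mod_cast h4
    rw [hz] at this
    exact_mod_cast this
  have h7 : z < 2 ^ (n + 1) := by
    have : (z.toNat : ℤ) < ((2 ^ (n + 1) : ℕ) : ℤ) := by exact_mod_cast h5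
    rw [hz] at this
    exact_mod_cast this
  refine ⟨?_, h6, h7⟩
  by_contra hcon
  push Not at hcon
  have h8 : (2 : ℤ) ^ N ≤ 2 ^ n := pow_le_pow_right₀ (by norm_num) hcon
  omega

theorem capk_le_TT (k N : ℕ) {S : Set ℤ} (hS : ∀ x ∈ S, 1 ≤ x ∧ x < 2 ^ N) :
    capk k S ≤ TT k N S := by
  classical
  apply Real.sSup_le _ (TT_nonneg k N S)
  rintro r ⟨T, m, h1, h2, rfl⟩
  have hT1 : ∀ x ∈ T, 1 ≤ x ∧ 0 ≤ m x := fun x hx => ⟨(hS x (h1 x hx).1).1, (h1 x hx).2⟩
  have hE1 : 1 ≤ Ee k T m := by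
    have := Ee_ge (k := k) hT1
    rw [h2] at this
    linarith
  change 1 / Ee k T m ≤ TT k N S
  set E := Ee k T m with hE
  apply le_min
  · rw [div_le_iff₀ (by linarith)]; linarith
  · set g : ℤ → ℕ := fun z => Nat.log 2 z.toNat with hg
    have hmaps : ∀ x ∈ T, g x ∈ range N := fun x hx =>
      Finset.mem_range.2 (log_piece (hS x (h1 x hx).1).1 (hS x (h1 x hx).1).2).1
    set Tn : ℕ → Finset ℤ := fun n => T.filter (fun x => g x = n) with hTn
    have hM : ∑ n ∈ range N, ∑ x ∈ Tn n, m x = 1 := by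
      rw [← h2]
      exact Finset.sum_fiberwise_of_maps_to hmaps m
    have hEn : ∑ n ∈ range N, Ee k (Tn n) m ≤ E := by
      rw [hE]
      unfold Ee
      rw [← Finset.sum_fiberwise_of_maps_to hmaps (fun x => ∑ y ∈ T, m x * m y * kernk k x y)]
      apply Finset.sum_le_sum
      intro n _
      apply Finset.sum_le_sum
      intro x hx
      apply Finset.sum_le_sum_of_subset_of_nonneg (Finset.filter_subset _ _)
      intro y hy _
      have hx' := (Finset.mem_filter.1 hx).1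
      have h3 := ker_ge_one k (hT1 x hx').1 (hT1 y hy).1
      exact mul_nonneg (mul_nonneg (hT1 x hx').2 (hT1 y hy).2) (by linarith)
    have hcs : ∀ n, 2 * ∑ x ∈ Tn n, m x ≤ E * F (pk k) n (At S n) + Ee k (Tn n) m / E := by
      intro n
      have h3 : ∀ x ∈ Tn n, x ∈ TH868.CT.pc S n ∧ 0 ≤ m x := by
        intro x hx
        obtain ⟨hx1, hx2⟩ := Finset.mem_filter.1 hx
        obtain ⟨-, h4, h5⟩ := log_piece (hS x (h1 x hx1).1).1 (hS x (h1 x hx1).1).2
        have h6 : Nat.log 2 x.toNat = n := hx2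
        rw [h6] at h4 h5
        exact ⟨⟨(h1 x hx1).1, h4, h5⟩, (h1 x hx1).2⟩
      have h4 := piece_cs (k := k) h3
      have h5 := (F_mem (pk_pos k).le (pk_le k) n (At S n)).1
      set M := ∑ x ∈ Tn n, m x with hMd
      set f := F (pk k) n (At S n) with hf
      have hM0 : 0 ≤ M := Finset.sum_nonneg fun x hx => (h3 x hx).2
      have h6 : 0 ≤ Ee k (Tn n) m := le_trans (sq_nonneg _)
        (Ee_ge (k := k) (fun x hx => ⟨TH868.CT.pc_pos x (h3 x hx).1, (h3 x hx).2⟩))
      have hEpos : 0 < E := by linarith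
      set e := Ee k (Tn n) m / E with he
      have h7 : Ee k (Tn n) m = e * E := by rw [he]; field_simp
      have h8 : 0 ≤ e := div_nonneg h6 hEpos.le
      rw [h7] at h4
      have h9 : 0 ≤ E * f := mul_nonneg hEpos.le h5
      have h10 : (2 * M) ^ 2 ≤ (E * f + e) ^ 2 := by
        nlinarith [sq_nonneg (E * f - e)]
      exact (sq_le_sq₀ (by positivity) (by positivity)).1 h10
    have hsum := Finset.sum_le_sum (fun n (_ : n ∈ range N) => hcs n)
    rw [← Finset.mul_sum, hM, Finset.sum_add_distrib, ← Finset.mul_sum, ← Finset.sum_div] at hsum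
    have h3 : (∑ n ∈ range N, Ee k (Tn n) m) / E ≤ 1 := by
      rw [div_le_iff₀ (by linarith), one_mul]; exact hEn
    rw [div_le_iff₀ (by linarith)]
    linarith

theorem piece_opt {k : ℕ} (hk : 1 ≤ k) : ∃ C : ℝ, 0 < C ∧ ∀ (n : ℕ) (S : Set ℤ),
    ∃ (T : Finset ℤ) (m : ℤ → ℝ), (∀ x ∈ T, x ∈ TH868.CT.pc S n) ∧ (∀ x, 0 ≤ m x) ∧
      (∀ x, x ∉ T → m x = 0) ∧ ∑ x ∈ T, m x = F (pk k) n (At S n) ∧
      Ee k T m ≤ C * F (pk k) n (At S n) := by
  classical
  obtain ⟨C, hC, h⟩ := le_capk hk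
  refine ⟨2 * C, by positivity, fun n S => ?_⟩
  have hF0 := (F_mem (pk_pos k).le (pk_le k) n (At S n)).1
  have hF := h n S
  set f := F (pk k) n (At S n) with hf
  rcases hF0.eq_or_lt with h0 | h0
  · refine ⟨∅, fun _ => 0, by simp, fun _ => le_rfl, fun _ _ => rfl, ?_, ?_⟩
    · rw [← h0]; simp
    · rw [← h0]; simp [Ee]
  · have h1 : f / (2 * C) < capk k (TH868.CT.pc S n) := by
      rw [div_lt_iff₀ (by positivity)]
      nlinarith
    unfold capk at h1
    have hne : {r | ∃ (T : Finset ℤ) (m : ℤ → ℝ), (∀ x ∈ T, x ∈ TH868.CT.pc S n ∧ 0 ≤ m x) ∧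
        ∑ x ∈ T, m x = 1 ∧ r = 1 / ∑ x ∈ T, ∑ y ∈ T, m x * m y * kernk k x y}.Nonempty := by
      by_contra hcon
      rw [Set.not_nonempty_iff_eq_empty] at hcon
      rw [hcon, Real.sSup_empty] at h1
      have : 0 ≤ f / (2 * C) := by positivity
      linarith
    obtain ⟨r, ⟨T, m, h2, h3, rfl⟩, h4⟩ := exists_lt_of_lt_csSup hne h1
    change f / (2 * C) < 1 / Ee k T m at h4
    have hE1 : 1 ≤ Ee k T m := by
      have := Ee_ge (k := k) (T := T) (m := m) (fun x hx => ⟨TH868.CT.pc_pos x (h2 x hx).1, (h2 x hx).2⟩)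
      rw [h3] at this
      linarith
    rw [div_lt_div_iff₀ (by positivity) (by linarith), one_mul] at h4
    set m' : ℤ → ℝ := fun x => if x ∈ T then m x * f else 0 with hm'
    have e1 : ∀ x ∈ T, m' x = m x / (1 / f) := by
      intro x hx
      simp only [hm']
      rw [if_pos hx, div_div_eq_mul_div, div_one]
    have e2 : Ee k T m' = Ee k T (fun x => m x / (1 / f)) := by
      unfold Ee
      apply Finset.sum_congr rfl
      intro x hx
      apply Finset.sum_congr rfl
      intro y hy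
      rw [e1 x hx, e1 y hy]
    refine ⟨T, m', fun x hx => (h2 x hx).1, ?_, ?_, ?_, ?_⟩
    · intro x
      simp only [hm']
      split_ifs with hx
      · exact mul_nonneg (h2 x hx).2 hF0
      · exact le_rfl
    · intro x hx
      simp only [hm']
      rw [if_neg hx]
    · rw [Finset.sum_congr rfl e1, ← Finset.sum_div, h3, one_div_one_div]
    · rw [e2, Ee_scale, div_pow, one_pow, div_div_eq_mul_div, div_one]
      nlinarith

open Classical in
theorem parity {N : ℕ} (f : ℕ → ℝ) (hf : ∀ n, 0 ≤ f n) : ∃ r : ℕ,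
    ∑ n ∈ range N, f n ≤ 2 * ∑ n ∈ (range N).filter (fun n => n % 2 = r), f n := by
  have h : ∑ n ∈ range N, f n = ∑ n ∈ (range N).filter (fun n => n % 2 = 0), f n +
      ∑ n ∈ (range N).filter (fun n => n % 2 = 1), f n := by
    have h1 := Finset.sum_filter_add_sum_filter_not (range N) (fun n => n % 2 = 0) f
    rw [← h1]
    congr 2
    ext n
    simp only [Finset.mem_filter]
    constructor
    · rintro ⟨h2, h3⟩
      exact ⟨h2, by omega⟩
    · rintro ⟨h2, h3⟩
      exact ⟨h2, by omega⟩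
  rcases le_total (∑ n ∈ (range N).filter (fun n => n % 2 = 0), f n)
    (∑ n ∈ (range N).filter (fun n => n % 2 = 1), f n) with h1 | h1
  · exact ⟨1, by linarith⟩
  · exact ⟨0, by linarith⟩

theorem TT_le_capk {k : ℕ} (hk : 1 ≤ k) : ∃ C : ℝ, 0 < C ∧ ∀ (N : ℕ) (S : Set ℤ),
    (∀ x ∈ S, 1 ≤ x) → TT k N S ≤ C * capk k S := by
  classical
  obtain ⟨C, hC, h⟩ := piece_opt hk
  set a : ℝ := (2 : ℝ) ^ ((k : ℝ) / 3) with ha
  have ha0 : 0 < a := by positivity
  refine ⟨2 * (C + a), by positivity, fun N S hS => ?_⟩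
  choose T m hT hm0 hm1 hms hme using fun n => h n S
  have hF0 : ∀ n, 0 ≤ F (pk k) n (At S n) := fun n => (F_mem (pk_pos k).le (pk_le k) n _).1
  obtain ⟨r, hr⟩ := parity (N := N) (fun n => F (pk k) n (At S n)) hF0
  set I := (range N).filter (fun n => n % 2 = r) with hI
  set Z := ∑ n ∈ I, F (pk k) n (At S n) with hZ
  have hZ0 : 0 ≤ Z := Finset.sum_nonneg fun n _ => hF0 n
  have hcap0 := capk_nonneg' (k := k) hS
  rcases hZ0.eq_or_lt with h0 | h0
  · rw [← h0] at hr
    have : TT k N S ≤ 0 := (min_le_right _ _).trans (by linarith)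
    refine this.trans ?_
    positivity
  · set U : Finset ℤ := I.biUnion T with hU
    set w : ℤ → ℝ := fun x => ∑ n ∈ I, m n x with hw
    have hTU : ∀ n ∈ I, T n ⊆ U := fun n hn => Finset.subset_biUnion_of_mem T hn
    have hsub : ∀ n ∈ I, ∀ g : ℤ → ℝ, ∑ x ∈ U, m n x * g x = ∑ x ∈ T n, m n x * g x := by
      intro n hn g
      symm
      apply Finset.sum_subset (hTU n hn)
      intro x _ hx
      rw [hm1 n x hx, zero_mul]
    have hsum : ∑ x ∈ U, w x = Z := by
      simp only [hw]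
      rw [Finset.sum_comm, hZ]
      apply Finset.sum_congr rfl
      intro n hn
      rw [← hms n]
      have := hsub n hn (fun _ => 1)
      simpa using this
    have hUS : ∀ x ∈ U, x ∈ S ∧ 0 ≤ w x := by
      intro x hx
      obtain ⟨n, _, hxn⟩ := Finset.mem_biUnion.1 hx
      exact ⟨(hT n x hxn).1, Finset.sum_nonneg fun i _ => hm0 i x⟩
    have hen : Ee k U w = ∑ i ∈ I, ∑ j ∈ I, ∑ x ∈ T i, ∑ y ∈ T j, m i x * m j y * kernk k x y := by
      unfold Ee
      simp only [hw]
      have e1 : ∀ x y : ℤ, (∑ i ∈ I, m i x) * (∑ j ∈ I, m j y) * kernk k x y =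
          ∑ i ∈ I, ∑ j ∈ I, m i x * m j y * kernk k x y := by
        intro x y
        rw [Finset.sum_mul_sum, Finset.sum_mul]
        apply Finset.sum_congr rfl
        intro i _
        rw [Finset.sum_mul]
      simp only [e1]
      calc ∑ x ∈ U, ∑ y ∈ U, ∑ i ∈ I, ∑ j ∈ I, m i x * m j y * kernk k x y
          = ∑ x ∈ U, ∑ i ∈ I, ∑ y ∈ U, ∑ j ∈ I, m i x * m j y * kernk k x y :=
            Finset.sum_congr rfl fun x _ => Finset.sum_comm
        _ = ∑ i ∈ I, ∑ x ∈ U, ∑ y ∈ U, ∑ j ∈ I, m i x * m j y * kernk k x y := Finset.sum_comm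
        _ = ∑ i ∈ I, ∑ x ∈ U, ∑ j ∈ I, ∑ y ∈ U, m i x * m j y * kernk k x y :=
            Finset.sum_congr rfl fun i _ => Finset.sum_congr rfl fun x _ => Finset.sum_comm
        _ = ∑ i ∈ I, ∑ j ∈ I, ∑ x ∈ U, ∑ y ∈ U, m i x * m j y * kernk k x y :=
            Finset.sum_congr rfl fun i _ => Finset.sum_comm
        _ = ∑ i ∈ I, ∑ j ∈ I, ∑ x ∈ T i, ∑ y ∈ T j, m i x * m j y * kernk k x y := by
            apply Finset.sum_congr rfl
            intro i hi
            apply Finset.sum_congr rfl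
            intro j hj
            have e2 : ∀ x, ∑ y ∈ U, m i x * m j y * kernk k x y =
                m i x * ∑ y ∈ T j, m j y * kernk k x y := by
              intro x
              rw [← hsub j hj (fun y => kernk k x y), Finset.mul_sum]
              apply Finset.sum_congr rfl
              intro y _
              ring
            simp only [e2]
            rw [hsub i hi (fun x => ∑ y ∈ T j, m j y * kernk k x y)]
            apply Finset.sum_congr rfl
            intro x _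
            rw [Finset.mul_sum]
            apply Finset.sum_congr rfl
            intro y _
            ring
    have hcross : ∀ i ∈ I, ∀ j ∈ I, ∑ x ∈ T i, ∑ y ∈ T j, m i x * m j y * kernk k x y ≤
        (if i = j then C * F (pk k) i (At S i) else 0) +
          a * (F (pk k) i (At S i) * F (pk k) j (At S j)) := by
      intro i hi j hj
      by_cases hij : i = j
      · subst hij
        rw [if_pos rfl]
        have h3 := hme i
        unfold Ee at h3
        have := mul_nonneg ha0.le (mul_nonneg (hF0 i) (hF0 i))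
        linarith
      · rw [if_neg hij, zero_add, ← hms i, ← hms j, Finset.sum_mul_sum, Finset.mul_sum]
        apply Finset.sum_le_sum
        intro x hx
        rw [Finset.mul_sum]
        apply Finset.sum_le_sum
        intro y hy
        have hker : kernk k x y ≤ a := by
          obtain ⟨-, hx1, hx2⟩ := hT i x hx
          obtain ⟨-, hy1, hy2⟩ := hT j y hy
          have hi2 := (Finset.mem_filter.1 hi).2
          have hj2 := (Finset.mem_filter.1 hj).2
          have hxp := TH868.CT.pc_pos x (hT i x hx)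
          have hyp := TH868.CT.pc_pos y (hT j y hy)
          rcases lt_or_gt_of_ne hij with hlt | hlt
          · apply ker_far k hxp
            have h4 : (2 : ℤ) ^ (i + 2) ≤ 2 ^ j := pow_le_pow_right₀ (by norm_num) (by omega)
            have h5 : (2 : ℤ) ^ (i + 2) = 2 * 2 ^ (i + 1) := by ring
            omega
          · rw [kernk_symm]
            apply ker_far k hyp
            have h4 : (2 : ℤ) ^ (j + 2) ≤ 2 ^ i := pow_le_pow_right₀ (by norm_num) (by omega)
            have h5 : (2 : ℤ) ^ (j + 2) = 2 * 2 ^ (j + 1) := by ring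
            omega
        have h3 := mul_le_mul_of_nonneg_left hker (mul_nonneg (hm0 i x) (hm0 j y))
        linarith
    have hEle : Ee k U w ≤ C * Z + a * Z ^ 2 := by
      rw [hen]
      have h3 := Finset.sum_le_sum (fun i (hi : i ∈ I) =>
        Finset.sum_le_sum (fun j (hj : j ∈ I) => hcross i hi j hj))
      refine h3.trans (le_of_eq ?_)
      simp only [Finset.sum_add_distrib]
      congr 1
      · rw [hZ, Finset.mul_sum]
        apply Finset.sum_congr rfl
        intro i hi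
        rw [Finset.sum_ite_eq, if_pos hi]
      · rw [sq, hZ, Finset.sum_mul_sum, Finset.mul_sum]
        apply Finset.sum_congr rfl
        intro i _
        rw [Finset.mul_sum]
    have hfin := capk_ge (k := k) hS hUS (B := C * Z + a * Z ^ 2) (by rw [hsum]; exact h0) hEle
    rw [hsum] at hfin
    have h4 : Z ^ 2 / (C * Z + a * Z ^ 2) = Z / (C + a * Z) := by
      rw [sq, show C * Z + a * (Z * Z) = Z * (C + a * Z) by ring, mul_div_mul_left _ _ h0.ne']
    rw [h4] at hfin
    have h5 : TT k N S ≤ 2 * min 1 Z := by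
      rw [mul_min_of_nonneg _ _ (by norm_num : (0 : ℝ) ≤ 2)]
      apply min_le_min
      · norm_num
      · exact hr
    have h6 : min 1 Z ≤ (C + a) * (Z / (C + a * Z)) := by
      have hpos : 0 < C + a * Z := by positivity
      rw [← mul_div_assoc, le_div_iff₀ hpos]
      rcases le_total 1 Z with h7 | h7
      · rw [min_eq_left h7]
        nlinarith
      · rw [min_eq_right h7]
        nlinarith [mul_nonneg ha0.le h0.le]
    calc TT k N S ≤ 2 * min 1 Z := h5
      _ ≤ 2 * ((C + a) * (Z / (C + a * Z))) := by linarith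
      _ ≤ 2 * ((C + a) * capk k S) := by
          have := mul_le_mul_of_nonneg_left hfin (show 0 ≤ C + a by positivity)
          linarith
      _ = 2 * (C + a) * capk k S := by ring

end V11324.KW
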