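import Pool.Agent.V11324.KW.HitCap

/-!
The probability that independent exploration paths have a common visited boundary point in a set is
comparable with a capacity.
-/

set_option autoImplicit false
set_option maxHeartbeats 400000

namespace V11324.KW

open Finset MeasureTheory ProbabilityTheory Filter Topology H389KP
open scoped ENNReal

/-- the event -/
def Cmn (k : ℕ) (S : Set ℤ) : Set (Fin k → Conf) := {ω | ∃ x ∈ S, ∀ i, x ∈ V (ω i)}

theorem Cmn_meas (k : ℕ) (S : Set ℤ) : MeasurableSet (Cmn k S) := by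
  have e : Cmn k S = ⋃ x : ℤ, ⋃ _ : x ∈ S, ⋂ i : Fin k, (fun ω : Fin k → Conf => ω i) ⁻¹' {ω | x ∈ V ω} := by
    ext ω
    simp [Cmn]
  rw [e]
  exact MeasurableSet.iUnion fun x => MeasurableSet.iUnion fun _ => MeasurableSet.iInter fun i =>
    measurable_pi_apply i (V_meas x)

theorem hit_one : ∃ C : ℝ≥0∞, C ≠ ⊤ ∧ ∀ (N : ℕ) (S : Set ℤ), (∀ x ∈ S, 1 ≤ x ∧ x < 2 ^ N) →
    ENNReal.ofReal (TT 1 N S) ≤ C * perc {ω | ∃ x ∈ S, x ∈ V ω} ∧
    perc {ω | ∃ x ∈ S, x ∈ V ω} ≤ C * ENNReal.ofReal (TT 1 N S) := by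
  obtain ⟨c, C, hc, hC, h⟩ := TH868.CT.cap_main
  obtain ⟨C', hC', h'⟩ := TT_le_capk (k := 1) le_rfl
  refine ⟨ENNReal.ofReal (C' / c + C), ENNReal.ofReal_ne_top, fun N S hS => ?_⟩
  obtain ⟨h1, h2⟩ := h S (fun x hx => (hS x hx).1)
  have h3 := h' N S (fun x hx => (hS x hx).1)
  have h4 := capk_le_TT 1 N hS
  rw [capk_one] at h3 h4
  have hT0 := TT_nonneg 1 N S
  have hP : perc {ω | ∃ x ∈ S, x ∈ V ω} =
      ENNReal.ofReal (perc.real {ω | ∃ x ∈ S, ((x, 0) : ℤ × ℕ) ∈ Cm ω}) := by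
    rw [measureReal_def, ENNReal.ofReal_toReal (measure_ne_top _ _)]
    rfl
  have hp0 : 0 ≤ perc.real {ω | ∃ x ∈ S, ((x, 0) : ℤ × ℕ) ∈ Cm ω} := measureReal_nonneg
  rw [hP]
  set p := perc.real {ω | ∃ x ∈ S, ((x, 0) : ℤ × ℕ) ∈ Cm ω} with hp
  rw [← ENNReal.ofReal_mul (by positivity), ← ENNReal.ofReal_mul (by positivity)]
  constructor
  · apply ENNReal.ofReal_le_ofReal
    have h5 : TH868.CT.cap S ≤ p / c := by
      rw [le_div_iff₀ hc]; linarith
    have h6 : C' * TH868.CT.cap S ≤ C' * (p / c) := mul_le_mul_of_nonneg_left h5 hC'.le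
    have h7 : C' * (p / c) = C' / c * p := by ring
    have h8 : 0 ≤ C * p := mul_nonneg hC.le hp0
    linarith
  · apply ENNReal.ofReal_le_ofReal
    have h5 : C * TH868.CT.cap S ≤ C * TT 1 N S := mul_le_mul_of_nonneg_left h4 hC.le
    have h6 : 0 ≤ C' / c * TT 1 N S := by positivity
    linarith

theorem fubini (k : ℕ) (S : Set ℤ) :
    ∫⁻ q, perc {ω | ∃ x ∈ S ∩ Q q, x ∈ V ω} ∂(nu k) =
      ∫⁻ ω, nu k {q | ∃ x ∈ S ∩ V ω, x ∈ Q q} ∂perc := by
  set E : Set ((∀ n, Ix n) × Conf) := {z | ∃ x ∈ S, x ∈ Q z.1 ∧ x ∈ V z.2} with hE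
  have hmeas : MeasurableSet E := by
    have e : E = ⋃ x : ℤ, ⋃ _ : x ∈ S, (Prod.fst ⁻¹' {q | x ∈ Q q} ∩ Prod.snd ⁻¹' {ω | x ∈ V ω}) := by
      ext z
      simp only [hE, Set.mem_setOf_eq, Set.mem_iUnion, Set.mem_inter_iff, Set.mem_preimage,
        Set.mem_iInter, exists_prop]
    rw [e]
    exact MeasurableSet.iUnion fun x => MeasurableSet.iUnion fun _ =>
      (measurable_fst (Q_meas x)).inter (measurable_snd (V_meas x))
  have h1 := Measure.prod_apply (μ := nu k) (ν := perc) hmeas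
  have h2 := Measure.prod_apply_symm (μ := nu k) (ν := perc) hmeas
  have e1 : ∀ q : ∀ n, Ix n, Prod.mk q ⁻¹' E = {ω | ∃ x ∈ S ∩ Q q, x ∈ V ω} := by
    intro q
    ext ω
    constructor
    · rintro ⟨x, h3, h4, h5⟩
      exact ⟨x, ⟨h3, h4⟩, h5⟩
    · rintro ⟨x, ⟨h3, h4⟩, h5⟩
      exact ⟨x, h3, h4, h5⟩
  have e2 : ∀ ω : Conf, (fun q => (q, ω)) ⁻¹' E = {q | ∃ x ∈ S ∩ V ω, x ∈ Q q} := by
    intro ω
    ext q
    constructor
    · rintro ⟨x, h3, h4, h5⟩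
      exact ⟨x, ⟨h3, h5⟩, h4⟩
    · rintro ⟨x, ⟨h3, h4⟩, h5⟩
      exact ⟨x, h3, h5, h4⟩
  simp only [e1] at h1
  simp only [e2] at h2
  rw [← h1, ← h2]

theorem step_eq (k : ℕ) (S : Set ℤ) :
    Measure.pi (fun _ : Fin (k + 1) => perc) (Cmn (k + 1) S) =
      ∫⁻ ω, Measure.pi (fun _ : Fin k => perc) (Cmn k (S ∩ V ω)) ∂perc := by
  have h7 := (measurePreserving_piFinSuccAbove (fun _ : Fin (k + 1) => perc) 0)
  set E : Set (Conf × (Fin k → Conf)) := {z | ∃ x ∈ S, x ∈ V z.1 ∧ ∀ i, x ∈ V (z.2 i)} with hE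
  have hmeas : MeasurableSet E := by
    have e : E = ⋃ x : ℤ, ⋃ _ : x ∈ S, (Prod.fst ⁻¹' {ω | x ∈ V ω} ∩
        ⋂ i : Fin k, (fun z : Conf × (Fin k → Conf) => z.2 i) ⁻¹' {ω | x ∈ V ω}) := by
      ext z
      simp only [hE, Set.mem_setOf_eq, Set.mem_iUnion, Set.mem_inter_iff, Set.mem_preimage,
        Set.mem_iInter, exists_prop]
    rw [e]
    exact MeasurableSet.iUnion fun x => MeasurableSet.iUnion fun _ =>
      (measurable_fst (V_meas x)).inter (MeasurableSet.iInter fun i =>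
        ((measurable_pi_apply i).comp measurable_snd) (V_meas x))
  have h8 := h7.measure_preimage hmeas.nullMeasurableSet
  have e : (MeasurableEquiv.piFinSuccAbove (fun _ : Fin (k + 1) => Conf) 0) ⁻¹' E = Cmn (k + 1) S := by
    ext ω
    constructor
    · rintro ⟨x, h9, h10, h11⟩
      refine ⟨x, h9, fun i => ?_⟩
      refine Fin.cases h10 (fun j => ?_) i
      exact h11 j
    · rintro ⟨x, h9, h10⟩
      exact ⟨x, h9, h10 0, fun i => h10 _⟩
  rw [e] at h8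
  rw [h8, Measure.prod_apply hmeas]
  apply lintegral_congr
  intro ω
  congr 1
  ext ω'
  constructor
  · rintro ⟨x, h9, h10, h11⟩
    exact ⟨x, ⟨h9, h10⟩, h11⟩
  · rintro ⟨x, ⟨h9, h10⟩, h11⟩
    exact ⟨x, h9, h10, h11⟩

theorem hit_TT (k : ℕ) : ∃ C : ℝ≥0∞, C ≠ ⊤ ∧ ∀ (N : ℕ) (S : Set ℤ), (∀ x ∈ S, 1 ≤ x ∧ x < 2 ^ N) →
    ENNReal.ofReal (TT k N S) ≤ C * Measure.pi (fun _ : Fin k => perc) (Cmn k S) ∧
    Measure.pi (fun _ : Fin k => perc) (Cmn k S) ≤ C * ENNReal.ofReal (TT k N S) := by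
  classical
  induction k with
  | zero =>
    refine ⟨1, ENNReal.one_ne_top, fun N S hS => ?_⟩
    rw [TT_zero hS, one_mul, one_mul]
    by_cases h : S.Nonempty
    · have e : Cmn 0 S = Set.univ := by
        ext ω
        obtain ⟨x, hx⟩ := h
        simp only [Set.mem_univ, iff_true]
        exact ⟨x, hx, fun i => i.elim0⟩
      rw [if_pos h, e, measure_univ]
      simp
    · have e : Cmn 0 S = ∅ := by
        ext ω
        simp only [Set.mem_empty_iff_false, iff_false]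
        rintro ⟨x, hx, -⟩
        exact h ⟨x, hx⟩
      rw [if_neg h, e]
      simp
  | succ k ih =>
    obtain ⟨C1, hC1, ih⟩ := ih
    obtain ⟨C2, hC2, h1⟩ := hit_one
    refine ⟨C1 * 2 * C2 * 2, ?_, fun N S hS => ?_⟩
    · exact ENNReal.mul_ne_top (ENNReal.mul_ne_top (ENNReal.mul_ne_top hC1 (by norm_num)) hC2)
        (by norm_num)
    obtain ⟨hq1, hq2, hqm⟩ := TT_Q k 1 N S
    have hqi : ENNReal.ofReal (∫ q, TT 1 N (S ∩ Q q) ∂(nu k)) =
        ∫⁻ q, ENNReal.ofReal (TT 1 N (S ∩ Q q)) ∂(nu k) :=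
      ofReal_integral_eq_lintegral_ofReal
        (int01 hqm (fun q => ⟨TT_nonneg 1 N _, TT_le_one 1 N _⟩))
        (ae_of_all _ fun q => TT_nonneg 1 N _)
    have hSV : ∀ ω, ∀ x ∈ S ∩ V ω, 1 ≤ x ∧ x < 2 ^ N := fun ω x hx => hS x hx.1
    have hSQ : ∀ q : ∀ n, Ix n, ∀ x ∈ S ∩ Q q, 1 ≤ x ∧ x < 2 ^ N := fun q x hx => hS x hx.1
    rw [step_eq]
    constructor
    · calc ENNReal.ofReal (TT (k + 1) N S)
          ≤ ENNReal.ofReal (2 * ∫ q, TT 1 N (S ∩ Q q) ∂(nu k)) := ENNReal.ofReal_le_ofReal hq1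
        _ = 2 * ∫⁻ q, ENNReal.ofReal (TT 1 N (S ∩ Q q)) ∂(nu k) := by
            rw [ENNReal.ofReal_mul (by norm_num), hqi]; norm_num
        _ ≤ 2 * ∫⁻ q, C2 * perc {ω | ∃ x ∈ S ∩ Q q, x ∈ V ω} ∂(nu k) := by
            gcongr with q
            exact (h1 N _ (hSQ q)).1
        _ = 2 * (C2 * ∫⁻ ω, nu k {q | ∃ x ∈ S ∩ V ω, x ∈ Q q} ∂perc) := by
            rw [lintegral_const_mul' _ _ hC2, fubini]
        _ ≤ 2 * (C2 * ∫⁻ ω, ENNReal.ofReal (TT k N (S ∩ V ω)) ∂perc) := by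
            gcongr with ω
            exact (hitQ k N _ (hSV ω)).2
        _ ≤ 2 * (C2 * ∫⁻ ω, C1 * Measure.pi (fun _ : Fin k => perc) (Cmn k (S ∩ V ω)) ∂perc) := by
            gcongr with ω
            exact (ih N _ (hSV ω)).1
        _ = C1 * 2 * C2 * ∫⁻ ω, Measure.pi (fun _ : Fin k => perc) (Cmn k (S ∩ V ω)) ∂perc := by
            rw [lintegral_const_mul' _ _ hC1]; ring
        _ ≤ C1 * 2 * C2 * 2 * ∫⁻ ω, Measure.pi (fun _ : Fin k => perc) (Cmn k (S ∩ V ω)) ∂perc := 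
            mul_le_mul' (le_mul_of_one_le_right zero_le (by norm_num)) le_rfl
    · calc ∫⁻ ω, Measure.pi (fun _ : Fin k => perc) (Cmn k (S ∩ V ω)) ∂perc
          ≤ ∫⁻ ω, C1 * ENNReal.ofReal (TT k N (S ∩ V ω)) ∂perc := by
            gcongr with ω
            exact (ih N _ (hSV ω)).2
        _ ≤ ∫⁻ ω, C1 * (2 * nu k {q | ∃ x ∈ S ∩ V ω, x ∈ Q q}) ∂perc := by
            gcongr with ω
            exact (hitQ k N _ (hSV ω)).1
        _ = C1 * (2 * ∫⁻ q, perc {ω | ∃ x ∈ S ∩ Q q, x ∈ V ω} ∂(nu k)) := by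
            rw [lintegral_const_mul' _ _ hC1, lintegral_const_mul' _ _ (by norm_num), fubini]
        _ ≤ C1 * (2 * ∫⁻ q, C2 * ENNReal.ofReal (TT 1 N (S ∩ Q q)) ∂(nu k)) := by
            gcongr with q
            exact (h1 N _ (hSQ q)).2
        _ = C1 * (2 * (C2 * ENNReal.ofReal (∫ q, TT 1 N (S ∩ Q q) ∂(nu k)))) := by
            rw [lintegral_const_mul' _ _ hC2, hqi]
        _ ≤ C1 * (2 * (C2 * ENNReal.ofReal (TT (k + 1) N S))) := by
            gcongr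
        _ = C1 * 2 * C2 * ENNReal.ofReal (TT (k + 1) N S) := by ring
        _ ≤ C1 * 2 * C2 * 2 * ENNReal.ofReal (TT (k + 1) N S) := 
            mul_le_mul' (le_mul_of_one_le_right zero_le (by norm_num)) le_rfl

/-- The probability of a common visited point is comparable with the capacity. -/
theorem hits {k : ℕ} (hk : 1 ≤ k) : ∃ c C : ℝ, 0 < c ∧ 0 < C ∧ ∀ S : Set ℤ, (∀ x ∈ S, 1 ≤ x) →
    c * capk k S ≤ (Measure.pi (fun _ : Fin k => perc)).real (Cmn k S) ∧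
    (Measure.pi (fun _ : Fin k => perc)).real (Cmn k S) ≤ C * capk k S := by
  obtain ⟨C1, hC1, h1⟩ := hit_TT k
  obtain ⟨C2, hC2, h2⟩ := TT_le_capk hk
  set D : ℝ := C1.toReal + 1 with hD
  have hD0 : 0 < D := by positivity
  have hCD : C1 ≤ ENNReal.ofReal D := by
    rw [hD, ENNReal.ofReal_add ENNReal.toReal_nonneg zero_le_one, ENNReal.ofReal_toReal hC1]
    exact le_self_add
  set μ := Measure.pi (fun _ : Fin k => perc) with hμ
  have hreal : ∀ A, μ A = ENNReal.ofReal (μ.real A) := fun A => by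
    rw [measureReal_def, ENNReal.ofReal_toReal (measure_ne_top _ _)]
  have hlo : ∀ (N : ℕ) (S : Set ℤ), (∀ x ∈ S, 1 ≤ x ∧ x < 2 ^ N) →
      capk k S ≤ D * μ.real (Cmn k S) := by
    intro N S hS
    have h3 := ((h1 N S hS).1).trans (mul_le_mul_left hCD _)
    rw [hreal, ← ENNReal.ofReal_mul hD0.le,
      ENNReal.ofReal_le_ofReal_iff (mul_nonneg hD0.le measureReal_nonneg)] at h3
    exact (capk_le_TT k N hS).trans h3
  have hup : ∀ (N : ℕ) (S : Set ℤ), (∀ x ∈ S, 1 ≤ x ∧ x < 2 ^ N) →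
      μ.real (Cmn k S) ≤ D * C2 * capk k S := by
    intro N S hS
    have h3 := ((h1 N S hS).2).trans (mul_le_mul_left hCD _)
    rw [hreal, ← ENNReal.ofReal_mul hD0.le,
      ENNReal.ofReal_le_ofReal_iff (mul_nonneg hD0.le (TT_nonneg _ _ _))] at h3
    have h4 := h2 N S (fun x hx => (hS x hx).1)
    have h5 := mul_le_mul_of_nonneg_left h4 hD0.le
    linarith
  refine ⟨1 / D, D * C2, by positivity, by positivity, fun S hS => ⟨?_, ?_⟩⟩
  · rw [one_div, inv_mul_le_iff₀ hD0]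
    apply Real.sSup_le
    · rintro r ⟨T, m, h3, h4, rfl⟩
      obtain ⟨N, hN⟩ : ∃ N : ℕ, ∀ x ∈ T, x < 2 ^ N := by
        obtain ⟨M, hM⟩ := T.bddAbove
        refine ⟨M.toNat, fun x hx => ?_⟩
        have h5 : x ≤ M := hM hx
        have h6 : M.toNat < 2 ^ M.toNat := Nat.lt_two_pow_self
        have h7 : (M.toNat : ℤ) < ((2 ^ M.toNat : ℕ) : ℤ) := by exact_mod_cast h6
        push_cast at h7
        omega
      have hTS : ∀ x ∈ ((T : Set ℤ)), 1 ≤ x ∧ x < 2 ^ N := fun x hx =>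
        ⟨hS x (h3 x hx).1, hN x hx⟩
      have h5 := hlo N (T : Set ℤ) hTS
      have h6 : 1 / ∑ x ∈ T, ∑ y ∈ T, m x * m y * kernk k x y ≤ capk k (T : Set ℤ) := by
        apply le_csSup (capk_bdd (fun x hx => (hTS x hx).1))
        exact ⟨T, m, fun x hx => ⟨hx, (h3 x hx).2⟩, h4, rfl⟩
      have h7 : μ.real (Cmn k (T : Set ℤ)) ≤ μ.real (Cmn k S) := by
        apply measureReal_mono _ (measure_ne_top _ _)
        rintro ω ⟨x, hx, h8⟩
        exact ⟨x, (h3 x hx).1, h8⟩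
      have h8 := mul_le_mul_of_nonneg_left h7 hD0.le
      linarith
    · exact mul_nonneg hD0.le measureReal_nonneg
  · set A : ℕ → Set ℤ := fun N => S ∩ {x | x < 2 ^ N} with hA
    have hmono : Monotone (fun N => Cmn k (A N)) := by
      intro N N' hNN
      rintro ω ⟨x, ⟨hx1, hx2⟩, hx3⟩
      refine ⟨x, ⟨hx1, ?_⟩, hx3⟩
      have h3 : x < 2 ^ N := hx2
      have h4 : (2 : ℤ) ^ N ≤ 2 ^ N' := pow_le_pow_right₀ (by norm_num) hNN
      exact lt_of_lt_of_le h3 h4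
    have hun : ⋃ N, Cmn k (A N) = Cmn k S := by
      ext ω
      simp only [Set.mem_iUnion]
      constructor
      · rintro ⟨N, x, ⟨hx1, _⟩, hx3⟩
        exact ⟨x, hx1, hx3⟩
      · rintro ⟨x, hx1, hx3⟩
        refine ⟨x.toNat, x, ⟨hx1, ?_⟩, hx3⟩
        have h6 : x.toNat < 2 ^ x.toNat := Nat.lt_two_pow_self
        have h7 : (x.toNat : ℤ) < ((2 ^ x.toNat : ℕ) : ℤ) := by exact_mod_cast h6
        push_cast at h7
        have h8 := hS x hx1
        show x < 2 ^ x.toNat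
        omega
    have htend := tendsto_measure_iUnion_atTop (μ := μ) hmono
    rw [hun] at htend
    have htend2 : Tendsto (fun N => μ.real (Cmn k (A N))) atTop (𝓝 (μ.real (Cmn k S))) :=
      (ENNReal.tendsto_toReal (measure_ne_top μ _)).comp htend
    refine le_of_tendsto htend2 (Eventually.of_forall fun N => ?_)
    have h3 := hup N (A N) (fun x hx => ⟨hS x hx.1, hx.2⟩)
    refine h3.trans ?_
    apply mul_le_mul_of_nonneg_left _ (by positivity)
    apply Real.sSup_le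
    · rintro r ⟨T, m, h4, h5, rfl⟩
      apply le_csSup (capk_bdd hS)
      exact ⟨T, m, fun x hx => ⟨(h4 x hx).1.1, (h4 x hx).2⟩, h5, rfl⟩
    · exact capk_nonneg' hS

end V11324.KW
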