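import Mathlib

/-!
Series of independent random variables with values in `[0, 1]`.
-/

set_option autoImplicit false

namespace V11324.KW

open Finset MeasureTheory ProbabilityTheory Filter Topology

theorem exp_le_half {x : ℝ} (h0 : 0 ≤ x) (h1 : x ≤ 1) : Real.exp (-x) ≤ 1 - x / 2 := by
  have h2 : 1 + x + x ^ 2 / 2 ≤ Real.exp x := by
    have := Real.quadratic_le_exp_of_nonneg h0
    linarith
  have h3 : 1 ≤ (1 - x / 2) * Real.exp x := by
    have h4 := mul_le_mul_of_nonneg_left h2 (show 0 ≤ 1 - x / 2 by linarith)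
    have h5 : (1 - x / 2) * (1 + x + x ^ 2 / 2) = 1 + x / 2 - x ^ 3 / 4 := by ring
    have h6 : x ^ 3 ≤ x := by
      have h7 : x ^ 2 ≤ 1 := pow_le_one₀ h0 h1
      calc x ^ 3 = x * x ^ 2 := by ring
        _ ≤ x * 1 := mul_le_mul_of_nonneg_left h7 h0
        _ = x := mul_one x
    nlinarith
  rw [Real.exp_neg, inv_le_iff_one_le_mul₀ (Real.exp_pos _)]
  exact h3

variable {Ω : Type*} [MeasurableSpace Ω] {P : Measure Ω} [IsProbabilityMeasure P]

theorem int01 {X : Ω → ℝ} (hm : Measurable X) (h01 : ∀ ω, 0 ≤ X ω ∧ X ω ≤ 1) : Integrable X P :=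
  Integrable.of_bound hm.aestronglyMeasurable 1
    (ae_of_all _ fun ω => by rw [Real.norm_of_nonneg (h01 ω).1]; exact (h01 ω).2)

theorem ser_conv {X : ℕ → Ω → ℝ} (hm : ∀ n, Measurable (X n))
    (h01 : ∀ n ω, 0 ≤ X n ω ∧ X n ω ≤ 1) (hs : Summable (fun n => ∫ ω, X n ω ∂P)) :
    ∀ᵐ ω ∂P, Summable (fun n => X n ω) := by
  have h1 : ∫⁻ ω, ∑' n, ENNReal.ofReal (X n ω) ∂P ≠ ⊤ := by
    rw [lintegral_tsum (fun n => (hm n).ennreal_ofReal.aemeasurable)]
    have h2 : ∀ n, ∫⁻ ω, ENNReal.ofReal (X n ω) ∂P = ENNReal.ofReal (∫ ω, X n ω ∂P) := fun n =>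
      (ofReal_integral_eq_lintegral_ofReal (int01 (hm n) (h01 n))
        (ae_of_all _ fun ω => (h01 n ω).1)).symm
    simp only [h2]
    exact hs.tsum_ofReal_ne_top
  have h3 := ae_lt_top (Measurable.ennreal_tsum (fun n => (hm n).ennreal_ofReal)) h1
  filter_upwards [h3] with ω hω
  have h4 := ENNReal.summable_toReal hω.ne
  refine h4.congr (fun n => ?_)
  exact ENNReal.toReal_ofReal (h01 n ω).1

theorem ser_div {X : ℕ → Ω → ℝ} (hm : ∀ n, Measurable (X n))
    (h01 : ∀ n ω, 0 ≤ X n ω ∧ X n ω ≤ 1) (hind : iIndepFun X P)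
    (hs : ¬ Summable (fun n => ∫ ω, X n ω ∂P)) :
    ∀ᵐ ω ∂P, ¬ Summable (fun n => X n ω) := by
  have hE0 : ∀ n, 0 ≤ ∫ ω, X n ω ∂P := fun n => integral_nonneg (fun ω => (h01 n ω).1)
  rw [not_summable_iff_tendsto_nat_atTop_of_nonneg hE0] at hs
  set f : ℕ → Ω → ℝ := fun n ω => Real.exp (-∑ i ∈ range n, X i ω) with hf
  have hfm : ∀ n, Measurable (f n) := fun n =>
    (Real.measurable_exp.comp (Finset.measurable_sum _ (fun i _ => hm i)).neg)
  have hf01 : ∀ n ω, 0 ≤ f n ω ∧ f n ω ≤ 1 := by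
    intro n ω
    refine ⟨(Real.exp_pos _).le, ?_⟩
    apply Real.exp_le_one_iff.mpr
    have : 0 ≤ ∑ i ∈ range n, X i ω := Finset.sum_nonneg (fun i _ => (h01 i ω).1)
    linarith
  have hint : ∀ n, ∫ ω, f n ω ∂P ≤ Real.exp (-(∑ i ∈ range n, ∫ ω, X i ω ∂P) / 2) := by
    intro n
    have h1 := hind.mgf_sum (t := -1) hm (range n)
    have h2 : mgf (∑ i ∈ range n, X i) P (-1) = ∫ ω, f n ω ∂P := by
      unfold mgf
      apply integral_congr_ae
      refine ae_of_all _ fun ω => ?_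
      simp only [hf, Finset.sum_apply]
      ring_nf
    rw [← h2, h1]
    have h3 : ∀ i ∈ range n, mgf (X i) P (-1) ≤ Real.exp (-(∫ ω, X i ω ∂P) / 2) := by
      intro i _
      have h4 : mgf (X i) P (-1) ≤ 1 - (∫ ω, X i ω ∂P) / 2 := by
        have h5 : (1 : ℝ) - (∫ ω, X i ω ∂P) / 2 = ∫ ω, (1 - X i ω / 2) ∂P := by
          rw [integral_sub (integrable_const _) ((int01 (hm i) (h01 i)).div_const 2),
            integral_div]
          simp
        rw [h5]
        unfold mgf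
        apply integral_mono
        · apply int01 (Real.measurable_exp.comp ((hm i).const_mul (-1)))
          intro ω
          refine ⟨(Real.exp_pos _).le, ?_⟩
          apply Real.exp_le_one_iff.mpr
          have := (h01 i ω).1
          linarith
        · exact (integrable_const _).sub ((int01 (hm i) (h01 i)).div_const 2)
        · intro ω
          have := exp_le_half (h01 i ω).1 (h01 i ω).2
          show Real.exp (-1 * X i ω) ≤ 1 - X i ω / 2
          rwa [neg_one_mul]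
      refine h4.trans ?_
      have := Real.add_one_le_exp (-(∫ ω, X i ω ∂P) / 2)
      linarith
    refine (Finset.prod_le_prod (fun i _ => mgf_nonneg) h3).trans (le_of_eq ?_)
    rw [← Real.exp_sum]
    congr 1
    rw [← Finset.sum_div, Finset.sum_neg_distrib]
  have hlim : Tendsto (fun n => ∫ ω, f n ω ∂P) atTop (𝓝 0) := by
    have h1 : Tendsto (fun n => Real.exp (-(∑ i ∈ range n, ∫ ω, X i ω ∂P) / 2)) atTop (𝓝 0) := by
      apply Real.tendsto_exp_atBot.comp
      have : Tendsto (fun n => (∑ i ∈ range n, ∫ ω, X i ω ∂P) / 2) atTop atTop :=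
        hs.atTop_div_const (by norm_num)
      have h2 := tendsto_neg_atTop_atBot.comp this
      refine h2.congr (fun n => ?_)
      simp only [Function.comp_apply]
      ring
    exact squeeze_zero (fun n => integral_nonneg (fun ω => (hf01 n ω).1)) hint h1
  have key : ∀ M : ℕ, ∀ᵐ ω ∂P, ∃ n, f n ω < 1 / ((M : ℝ) + 1) := by
    intro M
    set ε : ℝ := 1 / ((M : ℝ) + 1) with hε
    have hε0 : 0 < ε := by positivity
    rw [ae_iff]
    have h1 : ∀ n, P.real {ω | ¬ ∃ n, f n ω < ε} ≤ (∫ ω, f n ω ∂P) / ε := by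
      intro n
      have h2 := mul_meas_ge_le_integral_of_nonneg (μ := P) (f := f n)
        (ae_of_all _ fun ω => (hf01 n ω).1) (int01 (hfm n) (hf01 n)) ε
      rw [le_div_iff₀ hε0]
      have h3 : P.real {ω | ¬ ∃ n, f n ω < ε} ≤ P.real {ω | ε ≤ f n ω} := by
        apply measureReal_mono _ (measure_ne_top _ _)
        intro ω hω
        simp only [Set.mem_setOf_eq, not_exists, not_lt] at hω
        exact hω n
      nlinarith
    have h4 : P.real {ω | ¬ ∃ n, f n ω < ε} ≤ 0 := by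
      have h5 : Tendsto (fun n => (∫ ω, f n ω ∂P) / ε) atTop (𝓝 (0 / ε)) := hlim.div_const ε
      rw [zero_div] at h5
      exact ge_of_tendsto' h5 h1
    have h6 : P.real {ω | ¬ ∃ n, f n ω < ε} = 0 := le_antisymm h4 measureReal_nonneg
    rw [measureReal_def, ENNReal.toReal_eq_zero_iff] at h6
    exact h6.resolve_right (measure_ne_top _ _)
  filter_upwards [ae_all_iff.mpr key] with ω hω hsum
  obtain ⟨M, hM⟩ := exists_nat_gt (Real.exp (∑' i, X i ω))
  obtain ⟨n, hn⟩ := hω M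
  have h1 : ∑ i ∈ range n, X i ω ≤ ∑' i, X i ω :=
    hsum.sum_le_tsum _ (fun i _ => (h01 i ω).1)
  have h2 : Real.exp (-∑' i, X i ω) ≤ f n ω := by
    simp only [hf]
    exact Real.exp_le_exp.mpr (by linarith)
  have h3 : 1 / ((M : ℝ) + 1) ≤ Real.exp (-∑' i, X i ω) := by
    rw [Real.exp_neg, ← one_div]
    apply one_div_le_one_div_of_le (Real.exp_pos _)
    linarith
  linarith

end V11324.KW
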