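import Pool.Agent.V11324.KW.Flow

/-!
Comparison of the tree energy with the energy of the kernel `(2 ^ n / (|x - y| + 1)) ^ a`.
-/

set_option autoImplicit false

namespace V11324.KW

open Finset

/-- the kernel as a function of the distance -/
noncomputable def kd (a : ℝ) (n : ℕ) (t : ℝ) : ℝ := ((2 : ℝ) ^ n / (t + 1)) ^ a

theorem kd_succ {a : ℝ} (n : ℕ) {t : ℝ} (ht : 0 ≤ t) : kd a (n + 1) t = 2 ^ a * kd a n t := by
  unfold kd
  rw [← Real.mul_rpow (by norm_num) (by positivity), pow_succ]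
  congr 1
  ring

theorem kd_nonneg {a : ℝ} (n : ℕ) {t : ℝ} (ht : 0 ≤ t) : 0 ≤ kd a n t := by
  unfold kd; positivity

theorem kd_ge_one {a : ℝ} (ha : 0 ≤ a) {n : ℕ} {t : ℝ} (ht : 0 ≤ t) (h : t + 1 ≤ 2 ^ n) :
    1 ≤ kd a n t := by
  unfold kd
  apply Real.one_le_rpow _ ha
  rw [le_div_iff₀ (by positivity)]
  linarith

/-- energy -/
noncomputable def EK (a : ℝ) (n : ℕ) (m : ℕ → ℝ) : ℝ :=
  ∑ x ∈ range (2 ^ n), ∑ y ∈ range (2 ^ n), m x * m y * kd a n |(x : ℝ) - y|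

/-- cross energy of two neighbouring intervals -/
noncomputable def Xc (a : ℝ) (n : ℕ) (m v : ℕ → ℝ) : ℝ :=
  ∑ x ∈ range (2 ^ n), ∑ y ∈ range (2 ^ n), m x * v y * kd a (n + 1) ((2 : ℝ) ^ n + y - x)

theorem sum_split (n : ℕ) (f : ℕ → ℕ → ℝ) :
    ∑ x ∈ range (2 ^ (n + 1)), ∑ y ∈ range (2 ^ (n + 1)), f x y =
      (∑ x ∈ range (2 ^ n), ∑ y ∈ range (2 ^ n), f x y +
        ∑ x ∈ range (2 ^ n), ∑ y ∈ range (2 ^ n), f x (2 ^ n + y)) +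
      (∑ x ∈ range (2 ^ n), ∑ y ∈ range (2 ^ n), f (2 ^ n + x) y +
        ∑ x ∈ range (2 ^ n), ∑ y ∈ range (2 ^ n), f (2 ^ n + x) (2 ^ n + y)) := by
  rw [pow_succ, mul_two, Finset.sum_range_add]
  simp only [Finset.sum_range_add, Finset.sum_add_distrib]

theorem cast_lt {n x : ℕ} (h : x ∈ range (2 ^ n)) : (x : ℝ) + 1 ≤ 2 ^ n := by
  have := Finset.mem_range.mp h
  exact_mod_cast this

theorem EK_succ (a : ℝ) (n : ℕ) (m : ℕ → ℝ) :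
    EK a (n + 1) m = 2 ^ a * (EK a n m + EK a n (sm n m)) + 2 * Xc a n m (sm n m) := by
  unfold EK
  rw [sum_split]
  have e1 : ∑ x ∈ range (2 ^ n), ∑ y ∈ range (2 ^ n), m x * m y * kd a (n + 1) |(x : ℝ) - y| =
      2 ^ a * ∑ x ∈ range (2 ^ n), ∑ y ∈ range (2 ^ n), m x * m y * kd a n |(x : ℝ) - y| := by
    rw [Finset.mul_sum]
    apply Finset.sum_congr rfl
    intro x _
    rw [Finset.mul_sum]
    apply Finset.sum_congr rfl
    intro y _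
    rw [kd_succ n (abs_nonneg _)]; ring
  have e2 : ∑ x ∈ range (2 ^ n), ∑ y ∈ range (2 ^ n), m (2 ^ n + x) * m (2 ^ n + y) *
      kd a (n + 1) |((2 ^ n + x : ℕ) : ℝ) - ((2 ^ n + y : ℕ) : ℝ)| =
      2 ^ a * ∑ x ∈ range (2 ^ n), ∑ y ∈ range (2 ^ n), sm n m x * sm n m y *
        kd a n |(x : ℝ) - y| := by
    rw [Finset.mul_sum]
    apply Finset.sum_congr rfl
    intro x _
    rw [Finset.mul_sum]
    apply Finset.sum_congr rfl
    intro y _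
    rw [kd_succ n (abs_nonneg _)]
    push_cast
    rw [add_sub_add_left_eq_sub]
    unfold sm
    ring
  have e3 : ∑ x ∈ range (2 ^ n), ∑ y ∈ range (2 ^ n), m x * m (2 ^ n + y) *
      kd a (n + 1) |(x : ℝ) - ((2 ^ n + y : ℕ) : ℝ)| = Xc a n m (sm n m) := by
    unfold Xc sm
    apply Finset.sum_congr rfl
    intro x hx
    apply Finset.sum_congr rfl
    intro y _
    have hx1 := cast_lt hx
    have hy0 : (0 : ℝ) ≤ y := Nat.cast_nonneg y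
    push_cast
    rw [abs_of_nonpos (by linarith)]
    congr 2
    ring
  have e4 : ∑ x ∈ range (2 ^ n), ∑ y ∈ range (2 ^ n), m (2 ^ n + x) * m y *
      kd a (n + 1) |((2 ^ n + x : ℕ) : ℝ) - y| = Xc a n m (sm n m) := by
    unfold Xc sm
    rw [Finset.sum_comm]
    apply Finset.sum_congr rfl
    intro x hx
    apply Finset.sum_congr rfl
    intro y _
    have hx1 := cast_lt hx
    have hy0 : (0 : ℝ) ≤ y := Nat.cast_nonneg y
    push_cast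
    rw [abs_of_nonneg (by linarith)]
    rw [mul_comm (m (2 ^ n + y)) (m x)]
  rw [e1, e2, e3, e4]
  ring

theorem Xc_ge {a : ℝ} (ha : 0 ≤ a) (n : ℕ) {m v : ℕ → ℝ} (hm : ∀ x, 0 ≤ m x) (hv : ∀ x, 0 ≤ v x) :
    ms n m * ms n v ≤ Xc a n m v := by
  unfold ms Xc
  rw [Finset.sum_mul_sum]
  apply Finset.sum_le_sum
  intro x hx
  apply Finset.sum_le_sum
  intro y hy
  have hx1 := cast_lt hx
  have hy1 := cast_lt hy
  have hx0 : (0 : ℝ) ≤ x := Nat.cast_nonneg x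
  have hy0 : (0 : ℝ) ≤ y := Nat.cast_nonneg y
  have h := kd_ge_one ha (n := n + 1) (t := (2 : ℝ) ^ n + y - x) (by linarith)
    (by rw [pow_succ]; linarith)
  nlinarith [mul_nonneg (hm x) (hv y)]

theorem En_le_EK {a : ℝ} (ha : 0 ≤ a) : ∀ (n : ℕ) (m : ℕ → ℝ), (∀ x, 0 ≤ m x) →
    En (2 ^ a)⁻¹ n m ≤ EK a n m
  | 0, m, _ => by
    apply le_of_eq
    unfold EK kd
    simp [En, pow_two]
  | n + 1, m, hm => by
    have h1 := En_le_EK ha n m hm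
    have h2 := En_le_EK ha n (sm n m) (fun x => hm _)
    have h3 := Xc_ge ha n (m := m) (v := sm n m) hm (fun x => hm _)
    have hr : (0 : ℝ) < 2 ^ a := by positivity
    rw [EK_succ]
    simp only [En]
    rw [div_inv_eq_mul]
    nlinarith [mul_le_mul_of_nonneg_right (add_le_add h1 h2) hr.le]

/-- energies of the right ends -/
noncomputable def Rg (r : ℝ) : ℕ → (ℕ → ℝ) → ℝ
  | 0, m => m 0 ^ 2
  | n + 1, m => r * Rg r n (sm n m) + ms (n + 1) m ^ 2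

/-- energies of the left ends -/
noncomputable def Lf (r : ℝ) : ℕ → (ℕ → ℝ) → ℝ
  | 0, m => m 0 ^ 2
  | n + 1, m => r * Lf r n m + ms (n + 1) m ^ 2

theorem Xc_succ {a : ℝ} (ha : 0 ≤ a) (n : ℕ) {m v : ℕ → ℝ} (hm : ∀ x, 0 ≤ m x)
    (hv : ∀ x, 0 ≤ v x) :
    Xc a (n + 1) m v ≤ 2 ^ a * Xc a n (sm n m) v + (2 ^ a) ^ 2 * (ms (n + 1) m * ms (n + 1) v) := by
  have hr : (0 : ℝ) < 2 ^ a := by positivity
  have hker : ∀ t : ℝ, (2 : ℝ) ^ n ≤ t + 1 → kd a (n + 1 + 1) t ≤ (2 ^ a) ^ 2 := by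
    intro t ht
    have hp : (0 : ℝ) < 2 ^ n := by positivity
    unfold kd
    have h1 : (2 : ℝ) ^ (n + 1 + 1) / (t + 1) ≤ 2 * 2 := by
      rw [div_le_iff₀ (by linarith), pow_succ, pow_succ]
      nlinarith
    calc ((2 : ℝ) ^ (n + 1 + 1) / (t + 1)) ^ a ≤ ((2 : ℝ) * 2) ^ a :=
          Real.rpow_le_rpow (div_nonneg (by positivity) (by linarith)) h1 ha
      _ = (2 ^ a) ^ 2 := by rw [Real.mul_rpow (by norm_num) (by norm_num)]; ring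
  unfold Xc
  rw [sum_split]
  have c1 : ∀ (f g : ℕ → ℝ) (w : ℕ → ℕ → ℝ), (∀ x, 0 ≤ f x) → (∀ x, 0 ≤ g x) →
      (∀ x ∈ range (2 ^ n), ∀ y ∈ range (2 ^ n), (2 : ℝ) ^ n ≤ w x y + 1) →
      ∑ x ∈ range (2 ^ n), ∑ y ∈ range (2 ^ n), f x * g y * kd a (n + 1 + 1) (w x y) ≤
        (2 ^ a) ^ 2 * (ms n f * ms n g) := by
    intro f g w hf hg hw
    unfold ms
    rw [Finset.sum_mul_sum, Finset.mul_sum]
    apply Finset.sum_le_sum
    intro x hx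
    rw [Finset.mul_sum]
    apply Finset.sum_le_sum
    intro y hy
    have h := hker _ (hw x hx y hy)
    have h2 := mul_le_mul_of_nonneg_left h (mul_nonneg (hf x) (hg y))
    linarith
  have d1 := c1 m v (fun x y => (2 : ℝ) ^ (n + 1) + y - x) hm hv (fun x hx y _ => by
    have hx1 := cast_lt hx
    have hy0 : (0 : ℝ) ≤ y := Nat.cast_nonneg y
    show (2 : ℝ) ^ n ≤ (2 : ℝ) ^ (n + 1) + y - x + 1
    rw [pow_succ]; linarith)
  have d2 := c1 m (sm n v) (fun x y => (2 : ℝ) ^ (n + 1) + ((2 ^ n + y : ℕ) : ℝ) - x) hm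
    (fun x => hv _) (fun x hx y _ => by
      have hx1 := cast_lt hx
      have hy0 : (0 : ℝ) ≤ y := Nat.cast_nonneg y
      show (2 : ℝ) ^ n ≤ (2 : ℝ) ^ (n + 1) + ((2 ^ n + y : ℕ) : ℝ) - x + 1
      push_cast
      rw [pow_succ]; linarith)
  have d3 := c1 (sm n m) (sm n v) (fun x y => (2 : ℝ) ^ (n + 1) + ((2 ^ n + y : ℕ) : ℝ) -
      ((2 ^ n + x : ℕ) : ℝ)) (fun x => hm _)
    (fun x => hv _) (fun x hx y _ => by
      have hx1 := cast_lt hx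
      have hy0 : (0 : ℝ) ≤ y := Nat.cast_nonneg y
      show (2 : ℝ) ^ n ≤ (2 : ℝ) ^ (n + 1) + ((2 ^ n + y : ℕ) : ℝ) - ((2 ^ n + x : ℕ) : ℝ) + 1
      push_cast
      rw [pow_succ]; linarith)
  have d4 : ∑ x ∈ range (2 ^ n), ∑ y ∈ range (2 ^ n), m (2 ^ n + x) * v y *
      kd a (n + 1 + 1) ((2 : ℝ) ^ (n + 1) + y - ((2 ^ n + x : ℕ) : ℝ)) =
      2 ^ a * ∑ x ∈ range (2 ^ n), ∑ y ∈ range (2 ^ n), sm n m x * v y *
        kd a (n + 1) ((2 : ℝ) ^ n + y - x) := by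
    rw [Finset.mul_sum]
    apply Finset.sum_congr rfl
    intro x hx
    rw [Finset.mul_sum]
    apply Finset.sum_congr rfl
    intro y _
    have hx1 := cast_lt hx
    have hy0 : (0 : ℝ) ≤ y := Nat.cast_nonneg y
    have e : (2 : ℝ) ^ (n + 1) + y - ((2 ^ n + x : ℕ) : ℝ) = (2 : ℝ) ^ n + y - x := by
      push_cast; rw [pow_succ]; ring
    rw [e, kd_succ (n + 1) (by linarith)]
    unfold sm
    ring
  have m1 := ms_nonneg (n := n) hm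
  have m2 := ms_nonneg (n := n) hv
  have m3 := ms_nonneg (n := n) (m := sm n m) (fun x => hm _)
  have m4 := ms_nonneg (n := n) (m := sm n v) (fun x => hv _)
  rw [ms_succ n m, ms_succ n v]
  have h9 : 0 ≤ (2 ^ a) ^ 2 * (ms n (sm n m) * ms n v) := by positivity
  have d1' : ∑ x ∈ range (2 ^ n), ∑ y ∈ range (2 ^ n),
      m x * v y * kd a (n + 1 + 1) ((2 : ℝ) ^ (n + 1) + y - x) ≤ (2 ^ a) ^ 2 * (ms n m * ms n v) := d1
  have d2' : ∑ x ∈ range (2 ^ n), ∑ y ∈ range (2 ^ n), m x * v (2 ^ n + y) *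
      kd a (n + 1 + 1) ((2 : ℝ) ^ (n + 1) + ((2 ^ n + y : ℕ) : ℝ) - x) ≤
      (2 ^ a) ^ 2 * (ms n m * ms n (sm n v)) := d2
  have d3' : ∑ x ∈ range (2 ^ n), ∑ y ∈ range (2 ^ n), m (2 ^ n + x) * v (2 ^ n + y) *
      kd a (n + 1 + 1) ((2 : ℝ) ^ (n + 1) + ((2 ^ n + y : ℕ) : ℝ) - ((2 ^ n + x : ℕ) : ℝ)) ≤
      (2 ^ a) ^ 2 * (ms n (sm n m) * ms n (sm n v)) := d3
  rw [d4]
  nlinarith

theorem Xc_le {a : ℝ} (ha : 0 ≤ a) : ∀ (n : ℕ) (m v : ℕ → ℝ), (∀ x, 0 ≤ m x) → (∀ x, 0 ≤ v x) →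
    Xc a n m v ≤ (2 ^ a) ^ 2 / 2 * (Rg (2 ^ a) n m + Lf (2 ^ a) n v)
  | 0, m, v, _, _ => by
    have hr : (1 : ℝ) ≤ 2 ^ a := Real.one_le_rpow (by norm_num) ha
    have h1 : Xc a 0 m v = m 0 * v 0 := by
      unfold Xc kd
      norm_num
    rw [h1]
    simp only [Rg, Lf]
    have h2 : (1 : ℝ) ≤ (2 ^ a) ^ 2 := one_le_pow₀ hr
    nlinarith [sq_nonneg (m 0 - v 0), sq_nonneg (m 0), sq_nonneg (v 0)]
  | n + 1, m, v, hm, hv => by
    have hr : (0 : ℝ) < 2 ^ a := by positivity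
    have h1 := Xc_succ ha n hm hv
    have h2 := Xc_le ha n (sm n m) v (fun x => hm _) hv
    have h3 := mul_le_mul_of_nonneg_left h2 hr.le
    simp only [Rg, Lf]
    have h4 : ms (n + 1) m * ms (n + 1) v ≤ (ms (n + 1) m ^ 2 + ms (n + 1) v ^ 2) / 2 := by
      nlinarith [sq_nonneg (ms (n + 1) m - ms (n + 1) v)]
    have h5 := mul_le_mul_of_nonneg_left h4 (sq_nonneg ((2 : ℝ) ^ a))
    calc Xc a (n + 1) m v ≤ 2 ^ a * Xc a n (sm n m) v +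
          (2 ^ a) ^ 2 * (ms (n + 1) m * ms (n + 1) v) := h1
      _ ≤ 2 ^ a * ((2 ^ a) ^ 2 / 2 * (Rg (2 ^ a) n (sm n m) + Lf (2 ^ a) n v)) +
          (2 ^ a) ^ 2 * ((ms (n + 1) m ^ 2 + ms (n + 1) v ^ 2) / 2) := add_le_add h3 h5
      _ = _ := by ring

/-- an energy between the two -/
noncomputable def Ep (r : ℝ) : ℕ → (ℕ → ℝ) → ℝ
  | 0, m => m 0 ^ 2
  | n + 1, m => r * (Ep r n m + Ep r n (sm n m)) + ms (n + 1) m ^ 2

theorem EK_le_Ep {a : ℝ} (ha : 0 ≤ a) : ∀ (n : ℕ) (m : ℕ → ℝ), (∀ x, 0 ≤ m x) →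
    EK a n m ≤ (1 + 2 * 2 ^ a) * Ep (2 ^ a) n m - 2 ^ a * (Lf (2 ^ a) n m + Rg (2 ^ a) n m)
  | 0, m, _ => by
    have h1 : EK a 0 m = m 0 ^ 2 := by
      unfold EK kd
      simp [pow_two]
    rw [h1]
    simp only [Ep, Lf, Rg]
    apply le_of_eq
    ring
  | n + 1, m, hm => by
    have hr : (0 : ℝ) < 2 ^ a := by positivity
    have h1 := EK_le_Ep ha n m hm
    have h2 := EK_le_Ep ha n (sm n m) (fun x => hm _)
    have h3 := Xc_le ha n m (sm n m) hm (fun x => hm _)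
    rw [EK_succ]
    simp only [Ep, Lf, Rg]
    have h4 := mul_le_mul_of_nonneg_left (add_le_add h1 h2) hr.le
    have h5 := sq_nonneg (ms (n + 1) m)
    have h6 : 2 ^ a * (EK a n m + EK a n (sm n m)) + 2 * Xc a n m (sm n m) ≤
        2 ^ a * ((1 + 2 * 2 ^ a) * Ep (2 ^ a) n m - 2 ^ a * (Lf (2 ^ a) n m + Rg (2 ^ a) n m) +
          ((1 + 2 * 2 ^ a) * Ep (2 ^ a) n (sm n m) -
            2 ^ a * (Lf (2 ^ a) n (sm n m) + Rg (2 ^ a) n (sm n m)))) +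
        2 * ((2 ^ a) ^ 2 / 2 * (Rg (2 ^ a) n m + Lf (2 ^ a) n (sm n m))) := by
      linarith
    refine h6.trans ?_
    have h7 : (1 + 2 * (2:ℝ) ^ a) * (2 ^ a * (Ep (2 ^ a) n m + Ep (2 ^ a) n (sm n m)) +
        ms (n + 1) m ^ 2) - 2 ^ a * (2 ^ a * Lf (2 ^ a) n m + ms (n + 1) m ^ 2 +
          (2 ^ a * Rg (2 ^ a) n (sm n m) + ms (n + 1) m ^ 2)) -
        (2 ^ a * ((1 + 2 * 2 ^ a) * Ep (2 ^ a) n m - 2 ^ a * (Lf (2 ^ a) n m + Rg (2 ^ a) n m) +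
          ((1 + 2 * 2 ^ a) * Ep (2 ^ a) n (sm n m) -
            2 ^ a * (Lf (2 ^ a) n (sm n m) + Rg (2 ^ a) n (sm n m)))) +
        2 * ((2 ^ a) ^ 2 / 2 * (Rg (2 ^ a) n m + Lf (2 ^ a) n (sm n m)))) =
        ms (n + 1) m ^ 2 := by ring
    linarith

theorem Ep_le {a : ℝ} (ha : 0 < a) : ∀ (n : ℕ) (m : ℕ → ℝ),
    (2 ^ a - 1) * Ep (2 ^ a) n m ≤ 2 ^ a * En (2 ^ a)⁻¹ n m - ms n m ^ 2
  | 0, m => by
    have h1 : ms 0 m = m 0 := by simp [ms]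
    rw [h1]
    simp only [Ep, En]
    apply le_of_eq
    ring
  | n + 1, m => by
    have hr : (0 : ℝ) < 2 ^ a := by positivity
    have h1 := Ep_le ha n m
    have h2 := Ep_le ha n (sm n m)
    have h3 := mul_le_mul_of_nonneg_left (add_le_add h1 h2) hr.le
    simp only [Ep, En]
    rw [ms_succ, div_inv_eq_mul]
    nlinarith

theorem Rg_nonneg {r : ℝ} (hr : 0 ≤ r) : ∀ (n : ℕ) (m : ℕ → ℝ), 0 ≤ Rg r n m
  | 0, m => by simp only [Rg]; positivity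
  | n + 1, m => by
    have := Rg_nonneg hr n (sm n m)
    simp only [Rg]; positivity

theorem Lf_nonneg {r : ℝ} (hr : 0 ≤ r) : ∀ (n : ℕ) (m : ℕ → ℝ), 0 ≤ Lf r n m
  | 0, m => by simp only [Lf]; positivity
  | n + 1, m => by
    have := Lf_nonneg hr n m
    simp only [Lf]; positivity

/-- the energy of the kernel is at most a constant times the tree energy -/
theorem EK_le_En {a : ℝ} (ha : 0 < a) (n : ℕ) (m : ℕ → ℝ) (hm : ∀ x, 0 ≤ m x) :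
    (2 ^ a - 1) * EK a n m ≤ (1 + 2 * 2 ^ a) * 2 ^ a * En (2 ^ a)⁻¹ n m := by
  have hr : (0 : ℝ) < 2 ^ a := by positivity
  have hr1 : (1 : ℝ) ≤ 2 ^ a := Real.one_le_rpow (by norm_num) ha.le
  have h1 := EK_le_Ep ha.le n m hm
  have h2 := Ep_le ha n m
  have h3 := Rg_nonneg hr.le n m
  have h4 := Lf_nonneg hr.le n m
  have h5 : EK a n m ≤ (1 + 2 * 2 ^ a) * Ep (2 ^ a) n m := by
    have : 0 ≤ 2 ^ a * (Lf (2 ^ a) n m + Rg (2 ^ a) n m) := by positivity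
    linarith
  have h6 := mul_le_mul_of_nonneg_left h5 (sub_nonneg.mpr hr1)
  have h7 : (1 + 2 * (2:ℝ) ^ a) * ((2 ^ a - 1) * Ep (2 ^ a) n m) ≤
      (1 + 2 * 2 ^ a) * (2 ^ a * En (2 ^ a)⁻¹ n m) := by
    apply mul_le_mul_of_nonneg_left _ (by positivity)
    nlinarith [sq_nonneg (ms n m)]
  nlinarith

end V11324.KW
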