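import Pool.Agent.V11324.KW.Cap
import Pool.Agent.V11324.KW.Ind

/-!
Wiener's test for the common boundary points of independent exploration paths.
-/

set_option autoImplicit false

namespace V11324.KW

open Finset MeasureTheory ProbabilityTheory Filter Topology H389KP

instance instMx (n : ℕ) : MeasurableSpace (Ix n) := ⊤

theorem meas_Ix {n : ℕ} {β : Type*} [MeasurableSpace β] (f : Ix n → β) : Measurable f :=
  fun _ _ => trivial

/-- the law of the percolation in one piece -/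
noncomputable def muk (k n : ℕ) : Measure (Ix n) :=
  ∑ i : Ix n, ENNReal.ofReal (wt (pk k) n i) • Measure.dirac i

instance muk_prob (k n : ℕ) : IsProbabilityMeasure (muk k n) := by
  constructor
  unfold muk
  rw [Measure.finsetSum_apply]
  simp only [Measure.smul_apply, measure_univ, smul_eq_mul, mul_one]
  rw [← ENNReal.ofReal_sum_of_nonneg (fun i _ => wt_nonneg (pk_pos k).le (pk_le k) n i), wt_sum]
  simp

theorem muk_int (k n : ℕ) (f : Ix n → ℝ) :
    ∫ i, f i ∂(muk k n) = ∑ i : Ix n, wt (pk k) n i * f i := by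
  unfold muk
  rw [integral_finset_sum_measure]
  · apply Finset.sum_congr rfl
    intro i _
    rw [integral_smul_measure, integral_dirac,
      ENNReal.toReal_ofReal (wt_nonneg (pk_pos k).le (pk_le k) n i), smul_eq_mul]
  · intro i _
    apply Integrable.smul_measure _ ENNReal.ofReal_ne_top
    exact integrable_dirac (by simp)

/-- the law of the percolation -/
noncomputable def nu (k : ℕ) : Measure (∀ n, Ix n) := Measure.infinitePi (fun n => muk k n)

instance nu_prob (k : ℕ) : IsProbabilityMeasure (nu k) := by unfold nu; infer_instance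

/-- the random set -/
def Q (q : ∀ n, Ix n) : Set ℤ :=
  {z | ∃ n x : ℕ, x < 2 ^ n ∧ z = ((2 ^ n + x : ℕ) : ℤ) ∧ x ∈ st n (q n)}

theorem dyadic_unique {n n' x x' : ℕ} (hx : x < 2 ^ n) (hx' : x' < 2 ^ n')
    (h : 2 ^ n + x = 2 ^ n' + x') : n = n' ∧ x = x' := by
  have h1 : n = n' := by
    rcases lt_trichotomy n n' with h2 | h2 | h2
    · have : 2 ^ (n + 1) ≤ 2 ^ n' := Nat.pow_le_pow_right (by norm_num) h2
      rw [pow_succ] at this
      omega
    · exact h2
    · have : 2 ^ (n' + 1) ≤ 2 ^ n := Nat.pow_le_pow_right (by norm_num) h2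
      rw [pow_succ] at this
      omega
  subst h1
  exact ⟨rfl, by omega⟩

theorem mem_Q {q : ∀ n, Ix n} {n x : ℕ} (hx : x < 2 ^ n) :
    ((2 ^ n + x : ℕ) : ℤ) ∈ Q q ↔ x ∈ st n (q n) := by
  constructor
  · rintro ⟨n', x', h1, h2, h3⟩
    have h4 : 2 ^ n + x = 2 ^ n' + x' := by exact_mod_cast h2
    obtain ⟨rfl, rfl⟩ := dyadic_unique hx h1 h4
    exact h3
  · intro h
    exact ⟨n, x, hx, rfl, h⟩

theorem pk_add (k j : ℕ) : pk k * pk j = pk (k + j) := by
  unfold pk
  rw [← mul_inv, ← Real.rpow_add (by norm_num)]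
  congr 2
  push_cast
  ring

theorem swapQ (k j : ℕ) (S : Set ℤ) : ∀ᵐ q ∂(nu k),
    (Summable (fun n => F (pk j) n (At (S ∩ Q q) n)) ↔
      Summable (fun n => F (pk (k + j)) n (At S n))) := by
  set X : ∀ n, (∀ n, Ix n) → ℝ := fun n q => F (pk j) n (At S n ∩ st n (q n)) with hX
  have e1 : ∀ q n, F (pk j) n (At (S ∩ Q q) n) = X n q := by
    intro q n
    simp only [hX]
    apply F_congr
    intro x hx
    constructor
    · rintro ⟨h1, h2⟩
      exact ⟨h1, (mem_Q hx).1 h2⟩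
    · rintro ⟨h1, h2⟩
      exact ⟨h1, (mem_Q hx).2 h2⟩
  have hm : ∀ n, Measurable (X n) := fun n =>
    (meas_Ix (fun i => F (pk j) n (At S n ∩ st n i))).comp (measurable_pi_apply n)
  have h01 : ∀ n q, 0 ≤ X n q ∧ X n q ≤ 1 := fun n q => F_mem (pk_pos j).le (pk_le j) n _
  have hind : iIndepFun X (nu k) := by
    unfold nu
    exact iIndepFun_infinitePi (X := fun n i => F (pk j) n (At S n ∩ st n i)) (fun n => meas_Ix _)
  have hint : ∀ n, ∫ q, X n q ∂(nu k) = F (pk (k + j)) n (At S n) := by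
    intro n
    have h1 : ∫ q, X n q ∂(nu k) = ∫ i, F (pk j) n (At S n ∩ st n i) ∂(muk k n) := by
      have h2 := measurePreserving_eval_infinitePi (fun n => muk k n) n
      rw [← h2.map_eq, integral_map h2.measurable.aemeasurable (meas_Ix _).aestronglyMeasurable]
      rfl
    rw [h1, muk_int, F_comp, pk_add]
  have hEq : (fun n => ∫ q, X n q ∂(nu k)) = fun n => F (pk (k + j)) n (At S n) := funext hint
  simp only [e1]
  by_cases hs : Summable (fun n => F (pk (k + j)) n (At S n))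
  · filter_upwards [ser_conv hm h01 (hEq ▸ hs)] with q hq
    exact ⟨fun _ => hs, fun _ => hq⟩
  · filter_upwards [ser_div hm h01 hind (hEq ▸ hs)] with q hq
    exact ⟨fun h => absurd h hq, fun h => absurd h hs⟩

theorem fin_iff {S : Set ℤ} (hS : ∀ x ∈ S, 1 ≤ x) :
    Summable (fun n => F (pk 0) n (At S n)) ↔ S.Finite := by
  classical
  rw [pk_zero]
  simp only [F_one]
  constructor
  · intro h
    have h1 := h.tendsto_atTop_zero
    have h2 := (tendsto_order.1 h1).2 1 one_pos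
    rw [eventually_atTop] at h2
    obtain ⟨N, hN⟩ := h2
    apply (Set.finite_Icc (1 : ℤ) (2 ^ N)).subset
    intro z hz
    refine ⟨hS z hz, ?_⟩
    by_contra hlt
    push Not at hlt
    have hz1 := hS z hz
    have hpos : z.toNat ≠ 0 := by omega
    set n := Nat.log 2 z.toNat with hn
    have h4 : 2 ^ n ≤ z.toNat := Nat.pow_log_le_self 2 hpos
    have h5 : z.toNat < 2 ^ (n + 1) := Nat.lt_pow_succ_log_self (by norm_num) _
    have h8 : N ≤ n := by
      by_contra hcon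
      push Not at hcon
      have h6 : 2 ^ (n + 1) ≤ 2 ^ N := Nat.pow_le_pow_right (by norm_num) hcon
      have h7 : (z.toNat : ℤ) < ((2 ^ N : ℕ) : ℤ) := by exact_mod_cast lt_of_lt_of_le h5 h6
      push_cast at h7
      omega
    have h9 := hN n h8
    rw [if_pos] at h9
    · exact lt_irrefl _ h9
    · refine ⟨z.toNat - 2 ^ n, by rw [pow_succ] at h5; omega, ?_⟩
      show ((2 ^ n + (z.toNat - 2 ^ n) : ℕ) : ℤ) ∈ S
      rw [Nat.add_sub_cancel' h4, Int.toNat_of_nonneg (by omega)]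
      exact hz
  · intro h
    obtain ⟨M, hM⟩ := h.bddAbove
    apply summable_of_ne_finset_zero (s := range (M.toNat + 1))
    intro n hn
    rw [if_neg]
    rintro ⟨x, hx, hxS⟩
    have h1 : ((2 ^ n + x : ℕ) : ℤ) ≤ M := hM hxS
    rw [Finset.mem_range, not_lt] at hn
    have h2 : n < 2 ^ n := Nat.lt_two_pow_self
    have h3 : ((n + 1 : ℕ) : ℤ) ≤ ((2 ^ n + x : ℕ) : ℤ) := by
      exact_mod_cast (by omega : n + 1 ≤ 2 ^ n + x)
    push_cast at h3 h1
    omega

/-- the boundary points visited by the exploration path -/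
def V (ω : Conf) : Set ℤ := {x | ((x, 0) : ℤ × ℕ) ∈ Cm ω}

theorem V_meas (x : ℤ) : MeasurableSet {ω : Conf | x ∈ V ω} :=
  MeasurableSpace.generateFrom_le TH868.CT.Alg_meas _ (TH868.CT.Cm_gen x)

theorem one_path {S : Set ℤ} (hS : ∀ x ∈ S, 1 ≤ x) : ∀ᵐ ω ∂perc,
    ((S ∩ V ω).Infinite ↔ ¬ Summable (fun n => F (pk 1) n (At S n))) := by
  have h1 := summable_iff le_rfl S
  simp only [capk_one] at h1
  by_cases h : Summable (fun n => F (pk 1) n (At S n))
  · filter_upwards [TH868.CT.wiener_conv hS (h1.2 h)] with ω hω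
    exact ⟨fun h2 => absurd hω h2, fun h2 => absurd h h2⟩
  · filter_upwards [TH868.CT.wiener_div (fun h2 => h (h1.1 h2))] with ω hω
    exact ⟨fun _ => h, fun _ => hω⟩

theorem meas_inf {ι Z : Type*} [Countable ι] [MeasurableSpace Z] (E : ι → Set Z)
    (hE : ∀ i, MeasurableSet (E i)) : MeasurableSet {z | {i | z ∈ E i}.Infinite} := by
  classical
  have e : {z | {i | z ∈ E i}.Infinite} = ⋂ T : Finset ι, ⋃ i : ι, ⋃ _ : i ∉ T, E i := by
    ext z
    simp only [Set.mem_iInter, Set.mem_iUnion]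
    constructor
    · intro h T
      obtain ⟨i, hi, hiT⟩ := Set.Infinite.exists_notMem_finset h T
      exact ⟨i, hiT, hi⟩
    · intro h hfin
      obtain ⟨i, hiT, hi⟩ := h hfin.toFinset
      exact hiT (hfin.mem_toFinset.2 hi)
  rw [e]
  exact MeasurableSet.iInter fun T => MeasurableSet.iUnion fun i => MeasurableSet.iUnion fun _ => hE i

theorem Q_meas (z : ℤ) : MeasurableSet {q : ∀ n, Ix n | z ∈ Q q} := by
  have e : {q : ∀ n, Ix n | z ∈ Q q} = ⋃ n : ℕ, ⋃ x : ℕ, ⋃ _ : x < 2 ^ n ∧ z = ((2 ^ n + x : ℕ) : ℤ),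
      (fun q : ∀ n, Ix n => q n) ⁻¹' {i | x ∈ st n i} := by
    ext q
    simp only [Set.mem_iUnion]
    constructor
    · rintro ⟨n, x, h1, h2, h3⟩
      exact ⟨n, x, ⟨h1, h2⟩, h3⟩
    · rintro ⟨n, x, ⟨h1, h2⟩, h3⟩
      exact ⟨n, x, h1, h2, h3⟩
  rw [e]
  refine MeasurableSet.iUnion fun n => MeasurableSet.iUnion fun x => MeasurableSet.iUnion fun _ => ?_
  exact measurable_pi_apply n (show MeasurableSet {i : Ix n | x ∈ st n i} from trivial)

theorem main (k : ℕ) : ∀ S : Set ℤ, (∀ x ∈ S, 1 ≤ x) →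
    ∀ᵐ ω ∂(Measure.pi (fun _ : Fin k => perc)),
      ({x : ℤ | x ∈ S ∧ ∀ i, x ∈ V (ω i)}.Infinite ↔
        ¬ Summable (fun n => F (pk k) n (At S n))) := by
  induction k with
  | zero =>
    intro S hS
    refine ae_of_all _ fun ω => ?_
    rw [fin_iff hS]
    have e : {x : ℤ | x ∈ S ∧ ∀ i : Fin 0, x ∈ V (ω i)} = S := by
      ext x
      constructor
      · exact fun h => h.1
      · exact fun h => ⟨h, fun i => i.elim0⟩
    rw [e]
    rfl
  | succ k ih =>
    intro S hS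
    -- the percolation set and one path
    have h1 : ∀ᵐ q ∂(nu k), ∀ᵐ ω ∂perc, ({x : ℤ | x ∈ S ∧ x ∈ Q q ∧ x ∈ V ω}.Infinite ↔
        ¬ Summable (fun n => F (pk (k + 1)) n (At S n))) := by
      filter_upwards [swapQ k 1 S] with q hq
      filter_upwards [one_path (S := S ∩ Q q) (fun x hx => hS x hx.1)] with ω hω
      rw [hq] at hω
      rw [← hω]
      have e : {x : ℤ | x ∈ S ∧ x ∈ Q q ∧ x ∈ V ω} = S ∩ Q q ∩ V ω := by
        ext x
        simp only [Set.mem_inter_iff]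
        exact ⟨fun h => ⟨⟨h.1, h.2.1⟩, h.2.2⟩, fun h => ⟨h.1.1, h.1.2, h.2⟩⟩
      rw [e]
    have hmeas : MeasurableSet {z : (∀ n, Ix n) × Conf |
        {x : ℤ | x ∈ S ∧ x ∈ Q z.1 ∧ x ∈ V z.2}.Infinite ↔
          ¬ Summable (fun n => F (pk (k + 1)) n (At S n))} := by
      have h2 : MeasurableSet {z : (∀ n, Ix n) × Conf |
          {x : ℤ | x ∈ S ∧ x ∈ Q z.1 ∧ x ∈ V z.2}.Infinite} := by
        apply meas_inf (fun x : ℤ => {z : (∀ n, Ix n) × Conf | x ∈ S ∧ x ∈ Q z.1 ∧ x ∈ V z.2})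
        intro x
        by_cases hx : x ∈ S
        · have e : {z : (∀ n, Ix n) × Conf | x ∈ S ∧ x ∈ Q z.1 ∧ x ∈ V z.2} =
              Prod.fst ⁻¹' {q | x ∈ Q q} ∩ Prod.snd ⁻¹' {ω | x ∈ V ω} := by
            ext z
            exact ⟨fun h => h.2, fun h => ⟨hx, h⟩⟩
          rw [e]
          exact (measurable_fst (Q_meas x)).inter (measurable_snd (V_meas x))
        · have e : {z : (∀ n, Ix n) × Conf | x ∈ S ∧ x ∈ Q z.1 ∧ x ∈ V z.2} = ∅ := by
            ext z
            exact ⟨fun h => hx h.1, fun h => absurd h (Set.notMem_empty z)⟩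
          rw [e]
          exact MeasurableSet.empty
      by_cases hD : Summable (fun n => F (pk (k + 1)) n (At S n))
      · have e : {z : (∀ n, Ix n) × Conf | {x : ℤ | x ∈ S ∧ x ∈ Q z.1 ∧ x ∈ V z.2}.Infinite ↔
            ¬ Summable (fun n => F (pk (k + 1)) n (At S n))} =
            {z : (∀ n, Ix n) × Conf | {x : ℤ | x ∈ S ∧ x ∈ Q z.1 ∧ x ∈ V z.2}.Infinite}ᶜ := by
          ext z
          exact ⟨fun h h3 => (h.1 h3) hD, fun h => ⟨fun h3 => absurd h3 h, fun h3 => absurd hD h3⟩⟩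
        rw [e]; exact h2.compl
      · have e : {z : (∀ n, Ix n) × Conf | {x : ℤ | x ∈ S ∧ x ∈ Q z.1 ∧ x ∈ V z.2}.Infinite ↔
            ¬ Summable (fun n => F (pk (k + 1)) n (At S n))} =
            {z : (∀ n, Ix n) × Conf | {x : ℤ | x ∈ S ∧ x ∈ Q z.1 ∧ x ∈ V z.2}.Infinite} := by
          ext z
          exact ⟨fun h => h.2 hD, fun h => ⟨fun _ => hD, fun _ => h⟩⟩
        rw [e]; exact h2
    have h3 := (Measure.ae_ae_comm (μ := nu k) (ν := perc)
      (p := fun q ω => {x : ℤ | x ∈ S ∧ x ∈ Q q ∧ x ∈ V ω}.Infinite ↔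
        ¬ Summable (fun n => F (pk (k + 1)) n (At S n))) hmeas).1 h1
    -- the criterion for the visited points of the first path
    have h4 : ∀ᵐ ω ∂perc, (Summable (fun n => F (pk k) n (At (S ∩ V ω) n)) ↔
        Summable (fun n => F (pk (k + 1)) n (At S n))) := by
      filter_upwards [h3] with ω hω
      obtain ⟨q, hq1, hq2⟩ := (hω.and (swapQ k 0 (S ∩ V ω))).exists
      rw [fin_iff (S := S ∩ V ω ∩ Q q) (fun x hx => hS x hx.1.1), add_zero] at hq2
      rw [← hq2]
      have e : {x : ℤ | x ∈ S ∧ x ∈ Q q ∧ x ∈ V ω} = S ∩ V ω ∩ Q q := by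
        ext x
        simp only [Set.mem_inter_iff]
        exact ⟨fun h => ⟨⟨h.1, h.2.2⟩, h.2.1⟩, fun h => ⟨h.1.1, h.2, h.1.2⟩⟩
      rw [e] at hq1
      constructor
      · intro h5
        by_contra h6
        exact (hq1.2 h6) h5
      · intro h5
        by_contra h6
        exact (hq1.1 h6) h5
    -- all paths
    have h5 : ∀ᵐ ω ∂perc, ∀ᵐ ω' ∂(Measure.pi (fun _ : Fin k => perc)),
        ({x : ℤ | x ∈ S ∧ x ∈ V ω ∧ ∀ i, x ∈ V (ω' i)}.Infinite ↔
          ¬ Summable (fun n => F (pk (k + 1)) n (At S n))) := by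
      filter_upwards [h4] with ω hω
      filter_upwards [ih (S ∩ V ω) (fun x hx => hS x hx.1)] with ω' hω'
      rw [hω] at hω'
      rw [← hω']
      have e : {x : ℤ | x ∈ S ∧ x ∈ V ω ∧ ∀ i, x ∈ V (ω' i)} =
          {x : ℤ | x ∈ S ∩ V ω ∧ ∀ i, x ∈ V (ω' i)} := by
        ext x
        exact ⟨fun h => ⟨⟨h.1, h.2.1⟩, h.2.2⟩, fun h => ⟨h.1.1, h.1.2, h.2⟩⟩
      rw [e]
    have hmeas2 : MeasurableSet {z : Conf × (Fin k → Conf) |
        {x : ℤ | x ∈ S ∧ x ∈ V z.1 ∧ ∀ i, x ∈ V (z.2 i)}.Infinite ↔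
          ¬ Summable (fun n => F (pk (k + 1)) n (At S n))} := by
      have h2 : MeasurableSet {z : Conf × (Fin k → Conf) |
          {x : ℤ | x ∈ S ∧ x ∈ V z.1 ∧ ∀ i, x ∈ V (z.2 i)}.Infinite} := by
        apply meas_inf (fun x : ℤ => {z : Conf × (Fin k → Conf) |
          x ∈ S ∧ x ∈ V z.1 ∧ ∀ i, x ∈ V (z.2 i)})
        intro x
        by_cases hx : x ∈ S
        · have e : {z : Conf × (Fin k → Conf) | x ∈ S ∧ x ∈ V z.1 ∧ ∀ i, x ∈ V (z.2 i)} =
              Prod.fst ⁻¹' {ω | x ∈ V ω} ∩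
                ⋂ i : Fin k, (fun z : Conf × (Fin k → Conf) => z.2 i) ⁻¹' {ω | x ∈ V ω} := by
            ext z
            simp only [Set.mem_inter_iff, Set.mem_iInter]
            exact ⟨fun h => h.2, fun h => ⟨hx, h⟩⟩
          rw [e]
          refine (measurable_fst (V_meas x)).inter (MeasurableSet.iInter fun i => ?_)
          exact ((measurable_pi_apply i).comp measurable_snd) (V_meas x)
        · have e : {z : Conf × (Fin k → Conf) | x ∈ S ∧ x ∈ V z.1 ∧ ∀ i, x ∈ V (z.2 i)} = ∅ := by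
            ext z
            exact ⟨fun h => hx h.1, fun h => absurd h (Set.notMem_empty z)⟩
          rw [e]
          exact MeasurableSet.empty
      by_cases hD : Summable (fun n => F (pk (k + 1)) n (At S n))
      · have e : {z : Conf × (Fin k → Conf) |
            {x : ℤ | x ∈ S ∧ x ∈ V z.1 ∧ ∀ i, x ∈ V (z.2 i)}.Infinite ↔
              ¬ Summable (fun n => F (pk (k + 1)) n (At S n))} =
            {z : Conf × (Fin k → Conf) |
              {x : ℤ | x ∈ S ∧ x ∈ V z.1 ∧ ∀ i, x ∈ V (z.2 i)}.Infinite}ᶜ := by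
          ext z
          exact ⟨fun h h3 => (h.1 h3) hD, fun h => ⟨fun h3 => absurd h3 h, fun h3 => absurd hD h3⟩⟩
        rw [e]; exact h2.compl
      · have e : {z : Conf × (Fin k → Conf) |
            {x : ℤ | x ∈ S ∧ x ∈ V z.1 ∧ ∀ i, x ∈ V (z.2 i)}.Infinite ↔
              ¬ Summable (fun n => F (pk (k + 1)) n (At S n))} =
            {z : Conf × (Fin k → Conf) |
              {x : ℤ | x ∈ S ∧ x ∈ V z.1 ∧ ∀ i, x ∈ V (z.2 i)}.Infinite} := by
          ext z
          exact ⟨fun h => h.2 hD, fun h => ⟨fun _ => hD, fun _ => h⟩⟩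
        rw [e]; exact h2
    have h6 := (Measure.ae_prod_iff_ae_ae hmeas2).2 h5
    have h7 := (measurePreserving_piFinSuccAbove (fun _ : Fin (k + 1) => perc) 0)
    have h8 := h7.quasiMeasurePreserving.ae h6
    filter_upwards [h8] with ω hω
    have e : {x : ℤ | x ∈ S ∧ ∀ i : Fin (k + 1), x ∈ V (ω i)} =
        {x : ℤ | x ∈ S ∧ x ∈ V (ω 0) ∧ ∀ i : Fin k, x ∈ V (ω ((0 : Fin (k + 1)).succAbove i))} := by
      ext x
      constructor
      · rintro ⟨h9, h10⟩
        exact ⟨h9, h10 0, fun i => h10 _⟩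
      · rintro ⟨h9, h10, h11⟩
        refine ⟨h9, fun i => ?_⟩
        refine Fin.cases h10 (fun j => ?_) i
        exact h11 j
    rw [e]
    exact hω

/-- Wiener's test. -/
theorem wiener {k : ℕ} (hk : 1 ≤ k) (S : Set ℤ) (hS : ∀ x ∈ S, 1 ≤ x) :
    (Summable (fun n : ℕ => capk k (TH868.CT.pc S n)) →
      ∀ᵐ ω ∂(Measure.pi (fun _ : Fin k => perc)), {x : ℤ | x ∈ S ∧ ∀ i, x ∈ V (ω i)}.Finite) ∧
    (¬ Summable (fun n : ℕ => capk k (TH868.CT.pc S n)) →
      ∀ᵐ ω ∂(Measure.pi (fun _ : Fin k => perc)), {x : ℤ | x ∈ S ∧ ∀ i, x ∈ V (ω i)}.Infinite) := by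
  rw [summable_iff hk]
  constructor
  · intro h
    filter_upwards [main k S hS] with ω hω
    by_contra h2
    exact (hω.1 h2) h
  · intro h
    filter_upwards [main k S hS] with ω hω
    exact hω.2 h

end V11324.KW
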