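import Mathlib

/-!
Fractal percolation on the dyadic intervals of `[0, 2 ^ n)`: hitting probabilities, composition, and
the comparison with energies (Lyons' theorem for the binary tree).
-/

set_option autoImplicit false

namespace V11324.KW

open Finset

/-- the right half of `A` -/
def sh (n : ℕ) (A : Set ℕ) : Set ℕ := {x | x + 2 ^ n ∈ A}

open Classical in
/-- probability that the percolation with parameter `p` on `[0, 2 ^ n)` meets `A` -/
noncomputable def F (p : ℝ) : ℕ → Set ℕ → ℝ
  | 0, A => if 0 ∈ A then 1 else 0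
  | n + 1, A => 1 - (1 - p * F p n A) * (1 - p * F p n (sh n A))

theorem F_congr (p : ℝ) : ∀ (n : ℕ) (A B : Set ℕ), (∀ x, x < 2 ^ n → (x ∈ A ↔ x ∈ B)) →
    F p n A = F p n B
  | 0, A, B, h => by
    have h0 := h 0 (by norm_num)
    simp only [F]
    by_cases hA : 0 ∈ A
    · rw [if_pos hA, if_pos (h0.1 hA)]
    · rw [if_neg hA, if_neg (fun hB => hA (h0.2 hB))]
  | n + 1, A, B, h => by
    simp only [F]
    rw [F_congr p n A B (fun x hx => h x (by rw [pow_succ]; omega)),
      F_congr p n (sh n A) (sh n B) (fun x hx => h (x + 2 ^ n) (by rw [pow_succ]; omega))]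

theorem F_mem {p : ℝ} (h0 : 0 ≤ p) (h1 : p ≤ 1) : ∀ (n : ℕ) (A : Set ℕ), 0 ≤ F p n A ∧ F p n A ≤ 1
  | 0, A => by
    simp only [F]
    split_ifs <;> norm_num
  | n + 1, A => by
    obtain ⟨a0, a1⟩ := F_mem h0 h1 n A
    obtain ⟨b0, b1⟩ := F_mem h0 h1 n (sh n A)
    simp only [F]
    have h2 : 0 ≤ 1 - p * F p n A := by nlinarith
    have h3 : 0 ≤ 1 - p * F p n (sh n A) := by nlinarith
    have h4 : 1 - p * F p n A ≤ 1 := by nlinarith [mul_nonneg h0 a0]
    have h5 : 1 - p * F p n (sh n A) ≤ 1 := by nlinarith [mul_nonneg h0 b0]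
    constructor
    · nlinarith [mul_le_one₀ h4 h3 h5]
    · nlinarith [mul_nonneg h2 h3]

theorem F_empty (p : ℝ) : ∀ n, F p n ∅ = 0
  | 0 => by simp [F]
  | n + 1 => by
    have h : sh n ∅ = ∅ := by ext x; simp [sh]
    simp only [F, h, F_empty p n]
    ring

/-! ### The random sets -/

/-- the finite index set of the percolation -/
def Ix : ℕ → Type
  | 0 => Unit
  | n + 1 => (Ix n × Bool) × (Ix n × Bool)

noncomputable instance instFx : ∀ n, Fintype (Ix n)
  | 0 => inferInstanceAs (Fintype Unit)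
  | n + 1 => by
    haveI := instFx n
    exact inferInstanceAs (Fintype ((Ix n × Bool) × (Ix n × Bool)))

/-- the weights -/
noncomputable def wt (s : ℝ) : ∀ n, Ix n → ℝ
  | 0, _ => 1
  | n + 1, i => (wt s n i.1.1 * (if i.1.2 = true then s else 1 - s)) *
      (wt s n i.2.1 * (if i.2.2 = true then s else 1 - s))

/-- the random set -/
def st : ∀ n, Ix n → Set ℕ
  | 0, _ => {0}
  | n + 1, i => {x | (x < 2 ^ n ∧ i.1.2 = true ∧ x ∈ st n i.1.1) ∨
      (2 ^ n ≤ x ∧ i.2.2 = true ∧ x - 2 ^ n ∈ st n i.2.1)}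

theorem wt_nonneg {s : ℝ} (h0 : 0 ≤ s) (h1 : s ≤ 1) : ∀ n (i : Ix n), 0 ≤ wt s n i
  | 0, _ => by simp [wt]
  | n + 1, i => by
    simp only [wt]
    have hc : ∀ b : Bool, 0 ≤ (if b = true then s else 1 - s) := by
      intro b; split_ifs <;> linarith
    exact mul_nonneg (mul_nonneg (wt_nonneg h0 h1 n _) (hc _))
      (mul_nonneg (wt_nonneg h0 h1 n _) (hc _))

theorem sum_succ {n : ℕ} (f : Ix (n + 1) → ℝ) :
    ∑ i : Ix (n + 1), f i = ∑ a : Ix n × Bool, ∑ b : Ix n × Bool, f (a, b) :=
  Fintype.sum_prod_type (γ := ℝ) (f := fun i : (Ix n × Bool) × (Ix n × Bool) => f i)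

theorem sum_pb {n : ℕ} (f : Ix n × Bool → ℝ) :
    ∑ a : Ix n × Bool, f a = ∑ i : Ix n, (f (i, true) + f (i, false)) := by
  rw [Fintype.sum_prod_type]
  apply Finset.sum_congr rfl
  intro i _
  rw [Fintype.sum_bool]

theorem wt_sum (s : ℝ) : ∀ n, ∑ i : Ix n, wt s n i = 1
  | 0 => by
    show ∑ i : Unit, (1 : ℝ) = 1
    simp
  | n + 1 => by
    rw [sum_succ]
    have h := wt_sum s n
    have h2 : ∑ a : Ix n × Bool, (wt s n a.1 * (if a.2 = true then s else 1 - s)) = 1 := by
      rw [sum_pb]
      simp only [if_true, Bool.false_eq_true, if_false]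
      refine Eq.trans (Finset.sum_congr rfl (fun i _ => ?_)) h
      ring
    calc ∑ a : Ix n × Bool, ∑ b : Ix n × Bool, wt s (n + 1) (a, b)
        = ∑ a : Ix n × Bool, ∑ b : Ix n × Bool,
          (wt s n a.1 * (if a.2 = true then s else 1 - s)) *
            (wt s n b.1 * (if b.2 = true then s else 1 - s)) := rfl
      _ = 1 := by
        rw [← Finset.sum_mul_sum, h2, one_mul]

/-- composition of percolations -/
theorem F_comp (s p : ℝ) : ∀ (n : ℕ) (A : Set ℕ),
    ∑ i : Ix n, wt s n i * F p n (A ∩ st n i) = F (s * p) n A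
  | 0, A => by
    show ∑ i : Unit, (1 : ℝ) * F p 0 (A ∩ {0}) = F (s * p) 0 A
    simp only [F, Finset.univ_unique, Finset.sum_singleton, one_mul]
    by_cases h : 0 ∈ A
    · rw [if_pos ⟨h, rfl⟩, if_pos h]
    · rw [if_neg (fun h2 => h h2.1), if_neg h]
  | n + 1, A => by
    rw [sum_succ]
    have h1 := F_comp s p n A
    have h2 := F_comp s p n (sh n A)
    have hw := wt_sum s n
    have hX : ∀ B : Set ℕ, ∑ i : Ix n, wt s n i * F p n (B ∩ st n i) = F (s * p) n B →
        ∑ a : Ix n × Bool, (wt s n a.1 * (if a.2 = true then s else 1 - s)) *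
          (1 - p * (if a.2 = true then F p n (B ∩ st n a.1) else 0)) = 1 - s * p * F (s * p) n B := by
      intro B hB
      rw [sum_pb]
      simp only [if_true, Bool.false_eq_true, if_false]
      rw [← hB]
      have e : ∀ i : Ix n, wt s n i * s * (1 - p * F p n (B ∩ st n i)) +
          wt s n i * (1 - s) * (1 - p * 0) = wt s n i - s * p * (wt s n i * F p n (B ∩ st n i)) := by
        intro i; ring
      rw [Finset.sum_congr rfl (fun i _ => e i), Finset.sum_sub_distrib, hw, Finset.mul_sum]
    have e1 : ∀ a b : Ix n × Bool, F p n (A ∩ st (n + 1) (a, b)) =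
        if a.2 = true then F p n (A ∩ st n a.1) else 0 := by
      intro a b
      split_ifs with ha
      · apply F_congr
        intro x hx
        simp only [Set.mem_inter_iff]
        constructor
        · rintro ⟨h3, h4 | h4⟩
          · exact ⟨h3, h4.2.2⟩
          · exact absurd h4.1 (by omega)
        · rintro ⟨h3, h4⟩
          exact ⟨h3, Or.inl ⟨hx, ha, h4⟩⟩
      · rw [← F_empty p n]
        apply F_congr
        intro x hx
        simp only [Set.mem_inter_iff, Set.mem_empty_iff_false, iff_false]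
        rintro ⟨h3, h4 | h4⟩
        · exact ha h4.2.1
        · exact absurd h4.1 (by omega)
    have e2 : ∀ a b : Ix n × Bool, F p n (sh n (A ∩ st (n + 1) (a, b))) =
        if b.2 = true then F p n (sh n A ∩ st n b.1) else 0 := by
      intro a b
      split_ifs with ha
      · apply F_congr
        intro x hx
        constructor
        · rintro ⟨h3, h4 | h4⟩
          · exact absurd h4.1 (by omega)
          · refine ⟨h3, ?_⟩
            have := h4.2.2
            rwa [Nat.add_sub_cancel] at this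
        · rintro ⟨h3, h4⟩
          refine ⟨h3, Or.inr ⟨by omega, ha, ?_⟩⟩
          show x + 2 ^ n - 2 ^ n ∈ _
          rwa [Nat.add_sub_cancel]
      · rw [← F_empty p n]
        apply F_congr
        intro x hx
        simp only [Set.mem_empty_iff_false, iff_false]
        rintro ⟨h3, h4 | h4⟩
        · exact absurd h4.1 (by omega)
        · exact ha h4.2.1
    have e3 : ∀ a b : Ix n × Bool, wt s (n + 1) (a, b) * F p (n + 1) (A ∩ st (n + 1) (a, b)) =
        (wt s n a.1 * (if a.2 = true then s else 1 - s)) *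
            (wt s n b.1 * (if b.2 = true then s else 1 - s)) -
          ((wt s n a.1 * (if a.2 = true then s else 1 - s)) *
            (1 - p * (if a.2 = true then F p n (A ∩ st n a.1) else 0))) *
          ((wt s n b.1 * (if b.2 = true then s else 1 - s)) *
            (1 - p * (if b.2 = true then F p n (sh n A ∩ st n b.1) else 0))) := by
      intro a b
      have e4 : F p (n + 1) (A ∩ st (n + 1) (a, b)) =
          1 - (1 - p * F p n (A ∩ st (n + 1) (a, b))) *
            (1 - p * F p n (sh n (A ∩ st (n + 1) (a, b)))) := rfl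
      rw [e4, e1, e2]
      show (wt s n a.1 * (if a.2 = true then s else 1 - s)) *
            (wt s n b.1 * (if b.2 = true then s else 1 - s)) * _ = _
      ring
    rw [Finset.sum_congr rfl (fun a _ => Finset.sum_congr rfl (fun b _ => e3 a b))]
    simp only [Finset.sum_sub_distrib]
    rw [← Finset.sum_mul_sum, ← Finset.sum_mul_sum, hX A h1, hX (sh n A) h2]
    have h3 : ∑ a : Ix n × Bool, (wt s n a.1 * (if a.2 = true then s else 1 - s)) = 1 := by
      rw [sum_pb]
      simp only [if_true, Bool.false_eq_true, if_false]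
      refine Eq.trans (Finset.sum_congr rfl (fun i _ => ?_)) hw
      ring
    rw [h3]
    simp only [F]
    ring

open Classical in
/-- parameter one: the indicator -/
theorem F_one : ∀ (n : ℕ) (A : Set ℕ), F 1 n A = if ∃ x, x < 2 ^ n ∧ x ∈ A then 1 else 0
  | 0, A => by
    simp only [F]
    congr 1
    apply propext
    constructor
    · intro h; exact ⟨0, by norm_num, h⟩
    · rintro ⟨x, h1, h2⟩
      have : x = 0 := by
        rw [pow_zero] at h1; omega
      rwa [this] at h2
  | n + 1, A => by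
    simp only [F]
    rw [F_one n A, F_one n (sh n A)]
    by_cases h1 : ∃ x, x < 2 ^ n ∧ x ∈ A
    · have h5 : ∃ x, x < 2 ^ (n + 1) ∧ x ∈ A := by
        obtain ⟨x, h2, h3⟩ := h1
        exact ⟨x, by rw [pow_succ]; omega, h3⟩
      rw [if_pos h1, if_pos h5]
      ring
    · rw [if_neg h1]
      by_cases h2 : ∃ x, x < 2 ^ n ∧ x ∈ sh n A
      · have h5 : ∃ x, x < 2 ^ (n + 1) ∧ x ∈ A := by
          obtain ⟨x, h3, h4⟩ := h2
          exact ⟨x + 2 ^ n, by rw [pow_succ]; omega, h4⟩
        rw [if_pos h2, if_pos h5]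
        ring
      · have h5 : ¬ ∃ x, x < 2 ^ (n + 1) ∧ x ∈ A := by
          rintro ⟨x, h3, h4⟩
          by_cases hx : x < 2 ^ n
          · exact h1 ⟨x, hx, h4⟩
          · refine h2 ⟨x - 2 ^ n, by rw [pow_succ] at h3; omega, ?_⟩
            show x - 2 ^ n + 2 ^ n ∈ A
            rwa [Nat.sub_add_cancel (by omega)]
        rw [if_neg h2, if_neg h5]
        ring

end V11324.KW
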